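import Pool.Agent.H71.NT.Diag

/-!
Cofinally many time bounds `t` for which `NTIME(Pol t)` is not closed under complementation.
-/

namespace Pool.Agent.H71.NT

open Pool.Agent.Lead.NTM Pool.Agent.H83
open Nat.Partrec (Code)
open Nat.Partrec.Code

/-- The class `DTIME(Pol t)` of languages over the alphabet `A`: some deterministic machine (at
most one action for each state and each tuple of scanned letters) accepts exactly `L`, and for some
polynomial `p` every `w ∈ L` is accepted by it after at most `p(t(|w|))` steps. -/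
def DTIMEPol (A : Type) (t : ℕ → ℕ) : Set (Set (List A)) :=
  {L | ∃ (M : Machine A) (p : Polynomial ℕ), (∀ q x, (M.δ q x).Subsingleton) ∧
    (∀ w, w ∈ L ↔ Accepts M w) ∧ ∀ w ∈ L, ∃ s ≤ p.eval (t w.length), AcceptsIn M w s}

theorem DTIMEPol_subset (A : Type) (t : ℕ → ℕ) : DTIMEPol A t ⊆ NTIMEPol A t := by
  rintro L ⟨M, p, -, h⟩
  exact ⟨M, p, h⟩

/-! ### The lower bound -/

/-- A strictly increasing function above `g`. -/
def gg (g : ℕ → ℕ) (n : ℕ) : ℕ := Nat.rec (g 0) (fun y ih => ih + 1 + g (y + 1)) n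

theorem computable_gg {g : ℕ → ℕ} (hg : Computable g) : Computable (gg g) := by
  have h : Computable₂ fun (_ : ℕ) (p : ℕ × ℕ) => p.2 + 1 + g (p.1 + 1) := by
    have h1 : Computable fun a : ℕ × (ℕ × ℕ) => a.2.2 + 1 :=
      Computable.succ.comp (Computable.snd.comp Computable.snd)
    have h2 : Computable fun a : ℕ × (ℕ × ℕ) => g (a.2.1 + 1) :=
      hg.comp (Computable.succ.comp (Computable.fst.comp Computable.snd))
    exact Primrec.nat_add.to_comp.comp h1 h2
  exact Computable.nat_rec (f := fun n : ℕ => n) (g := fun _ => g 0) Computable.id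
    (Computable.const _) h

theorem gg_succ (g : ℕ → ℕ) (n : ℕ) : gg g (n + 1) = gg g n + 1 + g (n + 1) := rfl

theorem le_gg (g : ℕ → ℕ) (n : ℕ) : g n ≤ gg g n := by
  cases n with
  | zero => exact le_rfl
  | succ n => rw [gg_succ]; omega

theorem strictMono_gg (g : ℕ → ℕ) : StrictMono (gg g) :=
  strictMono_nat_of_lt_succ fun n => by rw [gg_succ]; omega

/-- A polynomial is dominated by some `y ^ k + k`. -/
theorem exists_pow_bound (p : Polynomial ℕ) : ∃ k : ℕ, ∀ y : ℕ, p.eval y ≤ y ^ k + k := by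
  refine ⟨p.eval 1 + p.natDegree, fun x => ?_⟩
  rcases Nat.lt_or_ge x 2 with h | h
  · have hx1 : x ≤ 1 := by omega
    have : p.eval x ≤ p.eval 1 := by
      rw [Polynomial.eval_eq_sum_range, Polynomial.eval_eq_sum_range]
      exact Finset.sum_le_sum fun i _ => Nat.mul_le_mul_left _ (Nat.pow_le_pow_left hx1 i)
    omega
  · have h1 : p.eval x ≤ p.eval 1 * x ^ p.natDegree := by
      rw [Polynomial.eval_eq_sum_range, Polynomial.eval_eq_sum_range, Finset.sum_mul]
      refine Finset.sum_le_sum fun i hi => ?_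
      rw [Finset.mem_range] at hi
      rw [one_pow, mul_one]
      exact Nat.mul_le_mul_left _ (Nat.pow_le_pow_right (by omega) (by omega))
    have h2 : p.eval 1 ≤ x ^ p.eval 1 := by
      calc p.eval 1 ≤ 2 ^ p.eval 1 := Nat.lt_two_pow_self.le
        _ ≤ x ^ p.eval 1 := Nat.pow_le_pow_left h _
    calc p.eval x ≤ p.eval 1 * x ^ p.natDegree := h1
      _ ≤ x ^ p.eval 1 * x ^ p.natDegree := Nat.mul_le_mul_right _ h2
      _ = x ^ (p.eval 1 + p.natDegree) := (pow_add _ _ _).symm
      _ ≤ _ := Nat.le_add_right _ _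

/-- Every primitive recursive relation has an index for the universal function. -/
theorem exists_index {P : ℕ → ℕ → Prop} (hP : PrimrecPred fun p : ℕ × ℕ => P p.1 p.2) :
    ∃ e, ∀ n τ, 1 ∈ univ e (Nat.pair n τ) ↔ P n τ := by
  classical
  have h1 : Primrec fun z : ℕ => bif decide (P z.unpair.1 z.unpair.2) then 1 else 0 :=
    Primrec.cond (hP.decide.comp Primrec.unpair) (Primrec.const 1) (Primrec.const 0)
  obtain ⟨e, he⟩ := exists_univ_index (Primrec.nat_iff.1 h1)
  refine ⟨e, fun n τ => ?_⟩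
  have h2 := he (Nat.pair n τ)
  rw [Nat.unpair_pair] at h2
  simp only at h2
  constructor
  · intro h
    have h3 := Part.mem_unique h h2
    by_contra hn
    rw [decide_eq_false hn] at h3
    exact absurd h3 (by decide)
  · intro h
    rw [decide_eq_true h] at h2
    exact h2

/-- The main theorem. -/
theorem main {g : ℕ → ℕ} (hg : Computable g) :
    ∃ t : ℕ → ℕ, Computable t ∧ StrictMono t ∧ (∀ n, g n ≤ t n) ∧
      ∀ (A : Type) [Finite A] [Nonempty A], ∃ L ∈ DTIMEPol A t, Lᶜ ∉ NTIMEPol A t := by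
  -- the machine
  obtain ⟨ins, N, R, q₀, hq0, hR0, hN, hR, hK⟩ := exists_machine rePred_Kp
  obtain ⟨k, rfl⟩ : ∃ k, R = k + 1 := ⟨R - 1, by omega⟩
  have : NeZero N := ⟨by omega⟩
  have hKT : ∀ n, Kp n ↔ ∃ j, HaltsAt ins q₀ n j := fun n =>
    ⟨fun h => exists_haltsAt ((hK n).1 h), fun ⟨j, hj⟩ => (hK n).2 ⟨j, hj.1⟩⟩
  have hTK : ∀ n, Kp n → (runT ins k N q₀ n).Dom := by
    intro n hn
    obtain ⟨j, hj⟩ := (hKT n).1 hn
    exact Part.dom_iff_mem.2 ⟨_, mem_runT hN hR hq0 hj⟩
  -- the recursion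
  have hG := computable_gg hg
  obtain ⟨c, b, hb, hb1, hb0, hv⟩ := exists_diag (partrec_runT ins k N q₀) hG hTK
  set e := Encodable.encode c with he
  have hbmono : Monotone b := by
    refine monotone_nat_of_le_succ fun x => ?_
    by_cases hx : 1 ∈ eval c x
    · obtain ⟨s, hs⟩ := Part.dom_iff_mem.1 (hTK _ ((Kp_len c x).2 hx))
      rw [hb1 x hx s hs]
      exact le_max_left _ _
    · exact (hb0 x hx).ge
  set X : ℕ → ℕ := fun n => (n / 2 ^ e + 1) / 2 with hX
  have hXlen : ∀ x, X (len e x) = x + 1 := by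
    intro x
    simp only [hX, len]
    rw [Nat.mul_div_cancel_left _ (by positivity)]
    omega
  have hXmono : Monotone X := fun m n hmn =>
    Nat.div_le_div_right (Nat.add_le_add_right (Nat.div_le_div_right hmn) 1)
  have hXcomp : Computable X := by
    have : Primrec X := Primrec.nat_div.comp (Primrec.succ.comp
      (Primrec.nat_div.comp Primrec.id (Primrec.const _))) (Primrec.const 2)
    exact this.to_comp
  refine ⟨fun n => gg g n + b (X n), ?_, ?_, ?_, ?_⟩
  · exact Primrec.nat_add.to_comp.comp hG (hb.comp hXcomp)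
  · intro m n hmn
    have h1 := strictMono_gg g hmn
    have h2 := hbmono (hXmono hmn.le)
    show gg g m + b (X m) < gg g n + b (X n)
    omega
  · intro n
    exact (le_gg g n).trans (Nat.le_add_right _ _)
  intro A _ _
  refine ⟨{w | ∃ x, w.length = len e x ∧ 1 ∈ eval c x}, ?_, ?_⟩
  · -- the language is accepted deterministically
    refine ⟨cmach A ins k (2 ^ (e + 1)) N (2 ^ e) q₀, Polynomial.X, cmach_deterministic,
      fun w => ?_, ?_⟩
    · unfold Accepts
      simp only [acceptsIn_cmach w hN hR hq0]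
      constructor
      · rintro ⟨x, hx, h1⟩
        obtain ⟨j, hj⟩ := (hKT _).1 ((Kp_len c x).2 h1)
        rw [← he, ← hx] at hj
        exact ⟨_, (mod_eq_iff e _).2 ⟨x, hx⟩, j, hj, rfl⟩
      · rintro ⟨s, hmod, j, hj, rfl⟩
        obtain ⟨x, hx⟩ := (mod_eq_iff e _).1 hmod
        refine ⟨x, hx, ?_⟩
        rw [← Kp_len, ← he, ← hx, hKT]
        exact ⟨j, hj⟩
    · rintro w ⟨x, hx, h1⟩
      obtain ⟨j, hj⟩ := (hKT _).1 ((Kp_len c x).2 h1)
      rw [← he, ← hx] at hj
      refine ⟨w.length + 3 + j, ?_, (acceptsIn_cmach w hN hR hq0 _).2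
        ⟨(mod_eq_iff e _).2 ⟨x, hx⟩, j, hj, rfl⟩⟩
      have hm := mem_runT hN hR hq0 hj
      rw [hx] at hm
      have h2 := hb1 x h1 _ hm
      rw [Polynomial.eval_X]
      show w.length + 3 + j ≤ gg g w.length + b (X w.length)
      rw [hx, hXlen, h2]
      have := le_max_right (b x) (len e x + 3 + j)
      omega
  · -- the complement
    rintro ⟨M, p, hM, hp⟩
    obtain ⟨a⟩ := ‹Nonempty A›
    obtain ⟨i, hi⟩ := exists_index (P := fun n τ => ∃ s ≤ τ, AcceptsIn M (List.replicate n a) s)
      (primrecPred_acceptsWithin M a)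
    obtain ⟨k', hk'⟩ := exists_pow_bound p
    set x := Nat.pair i k' with hx
    have hvx := hv x
    rw [hx, Nat.unpair_pair] at hvx
    simp only at hvx
    rw [← hx, hi] at hvx
    have hlen : (List.replicate (len e x) a).length = len e x := List.length_replicate
    have hmem : List.replicate (len e x) a ∈ {w : List A | ∃ x, w.length = len e x ∧ 1 ∈ eval c x} ↔
        1 ∈ eval c x := by
      constructor
      · rintro ⟨x', hx', h⟩
        rw [hlen] at hx'
        rwa [len_injective hx']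
      · intro h
        exact ⟨x, hlen, h⟩
    by_cases h1 : 1 ∈ eval c x
    · obtain ⟨s, hs, hacc⟩ := hvx.1 h1
      exact ((hM _).2 ⟨s, hacc⟩) (hmem.2 h1)
    · have hc : List.replicate (len e x) a ∈
          ({w : List A | ∃ x, w.length = len e x ∧ 1 ∈ eval c x})ᶜ := fun h => h1 (hmem.1 h)
      obtain ⟨s, hs, hacc⟩ := hp _ hc
      refine h1 (hvx.2 ⟨s, hs.trans ?_, hacc⟩)
      rw [hlen]
      show p.eval (gg g (len e x) + b (X (len e x))) ≤ _
      rw [hXlen, hb0 x h1]
      refine (hk' _).trans ?_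
      unfold tau
      rw [hx, Nat.unpair_pair]

end Pool.Agent.H71.NT
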