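import Pool.Agent.H71.NT.Ver
import Pool.Agent.H71.NT.UMach
import Pool.Agent.H71.NT.Main

/-!
Failure of closure under complementation just above `NP`.
-/

namespace Pool.Agent.H71.NT

open Pool.Agent.H79.Cx Pool.Agent.Lead.NTM Pool.Agent.H83

/-! ### The description of a machine for a recursively enumerable predicate -/

theorem exists_desc_of_re {p : ℕ → Prop} (hp : REPred p) :
    ∃ C : Desc, ∀ z, p z ↔ ∃ h : List ℕ, C.valid z h = true ∧ C.acc h = true := by
  obtain ⟨ins, N, R, q₀, hq0, hR0, hN, hR, hK⟩ := exists_machine hp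
  obtain ⟨k, rfl⟩ : ∃ k, R = k + 1 := ⟨R - 1, by omega⟩
  have : NeZero N := ⟨by omega⟩
  refine ⟨descM (cmach Unit ins k 1 N 0 q₀) (), fun z => ?_⟩
  have h1 : p z ↔ ∃ s, AcceptsIn (cmach Unit ins k 1 N 0 q₀) (List.replicate z ()) s := by
    rw [hK]
    constructor
    · intro h
      obtain ⟨j, hj⟩ := exists_haltsAt h
      refine ⟨z + 3 + j, (acceptsIn_cmach _ hN hR hq0 _).2 ⟨?_, j, ?_, ?_⟩⟩
      · exact Nat.mod_one _
      · rwa [List.length_replicate]
      · rw [List.length_replicate]
    · rintro ⟨s, hs⟩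
      obtain ⟨-, j, hj, -⟩ := (acceptsIn_cmach _ hN hR hq0 _).1 hs
      rw [List.length_replicate] at hj
      exact ⟨j, hj.1⟩
  rw [h1]
  simp only [acceptsIn_iff_desc]
  constructor
  · rintro ⟨s, h, -, hv, ha⟩
    exact ⟨h, hv, ha⟩
  · rintro ⟨h, hv, ha⟩
    exact ⟨h.length, h, rfl, hv, ha⟩

/-! ### Primitive recursiveness -/

theorem primrec_polyEval (P : Polynomial ℕ) : Primrec fun n : ℕ => P.eval n := by
  induction P using Polynomial.induction_on' with
  | add p q hp hq =>
    simp only [Polynomial.eval_add]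
    exact Primrec.nat_add.comp hp hq
  | monomial n a =>
    simp only [Polynomial.eval_monomial]
    exact Primrec.nat_mul.comp (Primrec.const a) (primrec_pow.comp Primrec.id (Primrec.const n))

theorem primrec_bb : Primrec bb :=
  primrec_pow.comp (Primrec.const 2) (primrec_pow.comp (Primrec.const 2) Primrec.id)

theorem primrec_kk : Primrec kk := Primrec.snd.comp (primrec_dec.comp Primrec.succ)

open Classical in
/-- the number `j` with `bb (j * j) = n` -/
noncomputable def jj (n : ℕ) : ℕ := Nat.findGreatest (fun j => bb (j * j) = n) n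

theorem le_bb_sq (j : ℕ) : j ≤ bb (j * j) := by
  have := lt_bb (j * j)
  nlinarith

theorem bb_sq_inj {i j : ℕ} (h : bb (i * i) = bb (j * j)) : i = j := by
  have := bb_strictMono.injective h
  nlinarith

theorem jj_bb (j : ℕ) : jj (bb (j * j)) = j := by
  classical
  unfold jj
  have h : bb ((Nat.findGreatest (fun i => bb (i * i) = bb (j * j)) (bb (j * j))) *
      (Nat.findGreatest (fun i => bb (i * i) = bb (j * j)) (bb (j * j)))) = bb (j * j) :=
    Nat.findGreatest_spec (P := fun i => bb (i * i) = bb (j * j)) (le_bb_sq j) rfl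
  exact bb_sq_inj h

theorem primrec_jj : Primrec jj := by
  classical
  unfold jj
  refine Primrec.nat_findGreatest (p := fun n j => bb (j * j) = n) Primrec.id ?_
  exact Primrec.eq.comp (primrec_bb.comp (Primrec.nat_mul.comp Primrec.snd Primrec.snd))
    Primrec.fst

theorem primrecPred_Vf (C : Desc) : PrimrecPred (Vf C) := by
  obtain ⟨T, hT⟩ := exists_guess_machine (pt_verB C)
  obtain ⟨M, hM, hM'⟩ := hT Unit
  obtain ⟨Q, hQ⟩ := exists_cert C
  have h1 : Primrec fun n : ℕ => T.eval (n + Q.eval (n + n ^ n)) := by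
    refine (primrec_polyEval T).comp (Primrec.nat_add.comp Primrec.id ?_)
    exact (primrec_polyEval Q).comp (Primrec.nat_add.comp Primrec.id
      (primrec_pow.comp Primrec.id Primrec.id))
  refine ((primrecPred_acceptsWithin M ()).comp (Primrec.id.pair h1)).of_eq fun n => ?_
  have hlen : (List.replicate n ()).length = n := List.length_replicate
  constructor
  · rintro ⟨s, -, hs⟩
    have h2 := (hM (List.replicate n ())).1 ⟨s, hs⟩
    rw [hlen, exists_verB_iff] at h2
    exact h2
  · rintro ⟨j, hj, hg, hh⟩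
    obtain ⟨y, hy, hyl⟩ := hQ n j hj hg hh
    obtain ⟨s, hs, ha⟩ := hM' (List.replicate n ()) y (by rw [hlen]; exact hy)
    refine ⟨s, hs.trans ?_, ha⟩
    rw [hlen]
    refine eval_mono T (Nat.add_le_add_left (hyl.trans (eval_mono Q ?_)) _)
    refine Nat.add_le_add_left (Nat.pow_le_pow_right ?_ ?_) _
    · rw [← hj]
      exact (by norm_num : 0 < 2).trans_le (two_le_bb _)
    · refine (kk_le j).trans ?_
      rw [← hj]
      exact le_bb_sq j

/-! ### The time bound -/

section Bound

variable (C : Desc)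

open Classical in
/-- the contribution of `m` -/
noncomputable def wt (m : ℕ) : ℕ := if Vf C m then m ^ kk (jj m) else 0

/-- the largest contribution up to `n` -/
noncomputable def WT (n : ℕ) : ℕ := Nat.rec (wt C 0) (fun y ih => max ih (wt C (y + 1))) n

/-- the time bound -/
noncomputable def tt (n : ℕ) : ℕ := max n (WT C n)

theorem primrec_wt : Primrec (wt C) := by
  classical
  unfold wt
  exact Primrec.ite (primrecPred_Vf C) (primrec_pow.comp Primrec.id
    (primrec_kk.comp primrec_jj)) (Primrec.const 0)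

theorem primrec_WT : Primrec (WT C) := by
  have h : Primrec₂ fun (y ih : ℕ) => max ih (wt C (y + 1)) :=
    Primrec.nat_max.comp Primrec.snd ((primrec_wt C).comp (Primrec.succ.comp Primrec.fst))
  exact Primrec.nat_rec₁ _ h

theorem primrec_tt : Primrec (tt C) := Primrec.nat_max.comp Primrec.id (primrec_WT C)

theorem WT_succ (n : ℕ) : WT C (n + 1) = max (WT C n) (wt C (n + 1)) := rfl

theorem monotone_WT : Monotone (WT C) :=
  monotone_nat_of_le_succ fun n => by rw [WT_succ]; exact le_max_left _ _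

theorem monotone_tt : Monotone (tt C) := fun _ _ h => max_le_max h (monotone_WT C h)

theorem wt_le_WT (n : ℕ) : wt C n ≤ WT C n := by
  cases n with
  | zero => exact le_rfl
  | succ n => rw [WT_succ]; exact le_max_right _ _

theorem WT_le {n B : ℕ} (h : ∀ m ≤ n, wt C m ≤ B) : WT C n ≤ B := by
  induction n with
  | zero => exact h 0 le_rfl
  | succ n ih =>
    rw [WT_succ]
    exact max_le (ih fun m hm => h m (by omega)) (h _ le_rfl)

theorem gap (i : ℕ) : bb (i * i) ^ i < bb ((i + 1) * (i + 1)) := by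
  unfold bb
  rw [← pow_mul]
  refine Nat.pow_lt_pow_right (by norm_num) ?_
  have h1 : (i + 1) * (i + 1) = i * i + (2 * i + 1) := by ring
  rw [h1, pow_add]
  refine Nat.mul_lt_mul_of_pos_left ?_ (by positivity)
  have h2 : 2 * i + 1 < 2 ^ (2 * i + 1) := Nat.lt_two_pow_self
  omega

/-- Contributions from smaller special lengths are small. -/
theorem wt_lt {m j : ℕ} (h : m < bb (j * j)) : wt C m < bb (j * j) := by
  classical
  unfold wt
  split_ifs with hv
  · obtain ⟨i, hi, -⟩ := hv
    subst hi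
    rw [jj_bb]
    have hij : i < j := by
      have := bb_strictMono.lt_iff_lt.1 h
      nlinarith
    have h1 : bb (i * i) ^ kk i ≤ bb (i * i) ^ i :=
      Nat.pow_le_pow_right ((by norm_num : 0 < 2).trans_le (two_le_bb _)) (kk_le i)
    have h2 : bb ((i + 1) * (i + 1)) ≤ bb (j * j) :=
      bb_strictMono.monotone (Nat.mul_le_mul (by omega) (by omega))
    exact (h1.trans_lt (gap i)).trans_le h2
  · exact (by norm_num : 0 < 2).trans_le (two_le_bb _)

theorem tt_pred (j : ℕ) : tt C (bb (j * j) - 1) = bb (j * j) - 1 := by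
  unfold tt
  refine max_eq_left (WT_le C fun m hm => ?_)
  have h1 := two_le_bb (j * j)
  have := wt_lt C (show m < bb (j * j) by omega)
  omega

theorem tt_of_not {j : ℕ} (h : ¬ Vf C (bb (j * j))) : tt C (bb (j * j)) = bb (j * j) := by
  classical
  unfold tt
  refine max_eq_left (WT_le C fun m hm => ?_)
  rcases hm.lt_or_eq with h1 | h1
  · exact (wt_lt C h1).le
  · subst h1
    unfold wt
    rw [if_neg h]
    exact Nat.zero_le _

end Bound

/-- A polynomial is dominated by a power on `[2, ∞)`. -/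
theorem exists_pow_bound' (p : Polynomial ℕ) : ∃ k : ℕ, ∀ x : ℕ, 2 ≤ x → p.eval x ≤ x ^ k := by
  refine ⟨p.eval 1 + p.natDegree, fun x h => ?_⟩
  have h1 : p.eval x ≤ p.eval 1 * x ^ p.natDegree := by
    rw [Polynomial.eval_eq_sum_range, Polynomial.eval_eq_sum_range, Finset.sum_mul]
    refine Finset.sum_le_sum fun i hi => ?_
    rw [Finset.mem_range] at hi
    rw [one_pow, mul_one]
    exact Nat.mul_le_mul_left _ (Nat.pow_le_pow_right (by omega) (by omega))
  have h2 : p.eval 1 ≤ x ^ p.eval 1 := by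
    calc p.eval 1 ≤ 2 ^ p.eval 1 := Nat.lt_two_pow_self.le
      _ ≤ x ^ p.eval 1 := Nat.pow_le_pow_left h _
  calc p.eval x ≤ p.eval 1 * x ^ p.natDegree := h1
    _ ≤ x ^ p.eval 1 * x ^ p.natDegree := Nat.mul_le_mul_right _ h2
    _ = x ^ (p.eval 1 + p.natDegree) := (pow_add _ _ _).symm

/-- **Failure just above `NP`.** -/
theorem near {h : ℕ → ℕ} (hc : Computable h) (hm : Monotone h) (hu : ∀ k, ∃ n, k ≤ h n)
    (h1 : ∀ n, 1 ≤ h n) :
    ∃ t : ℕ → ℕ, Primrec t ∧ Monotone t ∧ (∀ n, n ≤ t n) ∧ (∀ n, t n ≤ n ^ h n) ∧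
      (∃ᶠ n in Filter.atTop, t n = n) ∧
      ∀ (A : Type) [Finite A] [Nonempty A], ∃ L ∈ NTIMEPol A t, Lᶜ ∉ NTIMEPol A t := by
  classical
  have hre : REPred fun z : ℕ => z.unpair.1 ≤ h z.unpair.2 := by
    refine ComputablePred.to_re ?_
    have hf : Computable fun z : ℕ => decide (z.unpair.1 ≤ h z.unpair.2) :=
      (Primrec.nat_le.decide.to_comp).comp (Computable.fst.comp Primrec.unpair.to_comp)
        (hc.comp (Computable.snd.comp Primrec.unpair.to_comp))
    exact ⟨inferInstance, hf⟩
  obtain ⟨C, hC⟩ := exists_desc_of_re hre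
  have hgood : ∀ {k n : ℕ}, Good C k n → k ≤ h n := by
    rintro k n ⟨N, hN, x, -, hv, ha⟩
    have h2 := (hC (Nat.pair k N)).2 ⟨x, hv, ha⟩
    rw [Nat.unpair_pair] at h2
    exact h2.trans (hm hN)
  refine ⟨tt C, primrec_tt C, monotone_tt C, fun n => le_max_left _ _, ?_, ?_, ?_⟩
  · -- upper bound
    intro n
    refine max_le ?_ (WT_le C fun m hmn => ?_)
    · rcases Nat.eq_zero_or_pos n with h0 | h0
      · omega
      · calc n = n ^ 1 := (pow_one n).symm
          _ ≤ n ^ h n := Nat.pow_le_pow_right h0 (h1 n)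
    · unfold wt
      split_ifs with hv
      · obtain ⟨j, hj, hg, -⟩ := hv
        have hpos : 0 < m := by
          rw [← hj]
          exact (by norm_num : 0 < 2).trans_le (two_le_bb _)
        have h2 : jj m = j := by rw [← hj, jj_bb]
        rw [h2]
        calc m ^ kk j ≤ m ^ h m := Nat.pow_le_pow_right hpos (hgood hg)
          _ ≤ m ^ h n := Nat.pow_le_pow_right hpos (hm hmn)
          _ ≤ n ^ h n := Nat.pow_le_pow_left hmn _
      · exact Nat.zero_le _
  · -- equality infinitely often
    rw [Filter.frequently_atTop]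
    intro B
    refine ⟨bb ((B + 1) * (B + 1)) - 1, ?_, tt_pred C _⟩
    have := lt_bb ((B + 1) * (B + 1))
    have h2 : B + 1 ≤ (B + 1) * (B + 1) := Nat.le_mul_of_pos_left _ (by omega)
    show B ≤ _
    omega
  intro A _ _
  obtain ⟨T, hT⟩ := exists_guess_machine (pt_verB C)
  obtain ⟨Q, hQ⟩ := exists_cert C
  refine ⟨{w | Vf C w.length}, ?_, ?_⟩
  · -- membership
    obtain ⟨M, hM, hM'⟩ := hT A
    refine ⟨M, T.comp (Polynomial.X + Q.comp (2 * Polynomial.X)), ?_, ?_⟩
    · intro w
      rw [hM, exists_verB_iff]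
      rfl
    · intro w hw
      obtain ⟨j, hj, hg, hh⟩ := id hw
      obtain ⟨y, hy, hyl⟩ := hQ _ j hj hg hh
      obtain ⟨s, hs, ha⟩ := hM' w y hy
      refine ⟨s, hs.trans ?_, ha⟩
      simp only [Polynomial.eval_comp, Polynomial.eval_add, Polynomial.eval_X,
        Polynomial.eval_mul, Polynomial.eval_ofNat]
      have h2 : w.length ≤ tt C w.length := le_max_left _ _
      have h3 : w.length ^ kk j ≤ tt C w.length := by
        refine le_trans ?_ ((wt_le_WT C w.length).trans (le_max_right _ _))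
        have hw' : Vf C w.length := hw
        unfold wt
        rw [if_pos hw', ← hj, jj_bb]
      refine eval_mono T (Nat.add_le_add h2 (hyl.trans (eval_mono Q ?_)))
      omega
  · -- the complement
    rintro ⟨M, p, hM, hp⟩
    obtain ⟨a⟩ := ‹Nonempty A›
    obtain ⟨k, hk⟩ := exists_pow_bound' p
    obtain ⟨N, hN⟩ := hu k
    obtain ⟨x, hxv, hxa⟩ := (hC (Nat.pair k N)).1 (by rw [Nat.unpair_pair]; exact hN)
    obtain ⟨j, hjB, hjk, hjd⟩ := exists_index_desc k (descM M a) (max N x.length)
    set n := bb (j * j) with hn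
    have hjn : j ≤ n := le_bb_sq j
    have hg : Good C (kk j) n := by
      rw [hjk]
      exact ⟨N, by omega, x, by omega, hxv, hxa⟩
    have hV : Vf C n ↔ ∃ s ≤ n ^ k, AcceptsIn M (List.replicate n a) s := by
      constructor
      · rintro ⟨i, hi, -, y, hy, hyv, hya⟩
        have hij := bb_sq_inj hi
        subst hij
        rw [hjk] at hy
        rw [hjd] at hyv hya
        exact ⟨y.length, hy, (acceptsIn_iff_desc M a n _).2 ⟨y, rfl, hyv, hya⟩⟩
      · rintro ⟨s, hs, hacc⟩
        obtain ⟨y, hyl, hyv, hya⟩ := (acceptsIn_iff_desc M a n _).1 hacc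
        refine ⟨j, rfl, hg, y, ?_, ?_, ?_⟩
        · rw [hjk, hyl]; exact hs
        · rw [hjd]; exact hyv
        · rw [hjd]; exact hya
    have hlen : (List.replicate n a).length = n := List.length_replicate
    by_cases hv : Vf C n
    · obtain ⟨s, -, hacc⟩ := hV.1 hv
      have h2 : List.replicate n a ∈ ({w : List A | Vf C w.length})ᶜ := (hM _).2 ⟨s, hacc⟩
      refine h2 ?_
      show Vf C (List.replicate n a).length
      rw [hlen]
      exact hv
    · have h2 : List.replicate n a ∈ ({w : List A | Vf C w.length})ᶜ := by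
        intro h3
        have h4 : Vf C (List.replicate n a).length := h3
        rw [hlen] at h4
        exact hv h4
      obtain ⟨s, hs, hacc⟩ := hp _ h2
      refine hv (hV.2 ⟨s, hs.trans ?_, hacc⟩)
      rw [hlen, hn, tt_of_not C hv]
      exact hk _ (two_le_bb _)

end Pool.Agent.H71.NT
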