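import Pool.Agent.H71.NT.SimM
import Pool.Agent.H83.CounterMachine

/-!
Counter machines as Turing machines: the head positions are the counters.
-/

namespace Pool.Agent.H71.NT

open Pool.Agent.Lead.NTM Pool.Agent.H83

/-- Reduction modulo `m` as an element of `Fin m`. -/
def fm (m : ℕ) [NeZero m] (i : ℕ) : Fin m := ⟨i % m, Nat.mod_lt _ (NeZero.pos m)⟩

/-- States: two initial states, scanning states, states of the counter machine. -/
abbrev CQ (m N : ℕ) := Bool ⊕ (Fin m ⊕ Fin N)

section

variable (A : Type) (ins : ℕ → Instr) (k m N r q0 : ℕ) [NeZero m] [NeZero N]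

open Classical in
/-- The (deterministic) next action. -/
noncomputable def cnxt : CQ m N → (Fin (k + 1) → Option (A ⊕ Unit)) →
    Option (CQ m N × (Fin (k + 1) → Option (A ⊕ Unit)) × (Fin (k + 1) → Move))
  | .inl false, x => some (.inl true, x, fun _ => .left)
  | .inl true, _ => some (.inr (.inl (fm m 0)), fun _ => some (.inr ()),
      fun i => if i = 0 then .right else .stay)
  | .inr (.inl ρ), x => match x 0 with
    | some _ => some (.inr (.inl (fm m (ρ + 1))), x, fun i => if i = 0 then .right else .stay)
    | none => if (ρ : ℕ) = r then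
        some (.inr (.inr (fm N q0)), x, fun i => if i = 0 then .left else .stay) else none
  | .inr (.inr q), x => match ins q with
    | .halt => none
    | .goto q' => some (.inr (.inr (fm N q')), x, fun _ => .stay)
    | .inc r' q' => some (.inr (.inr (fm N q')), x, fun i => if (i : ℕ) = r' then .right else .stay)
    | .jz r' q₀ q₁ => if ∃ i : Fin (k + 1), (i : ℕ) = r' ∧ x i = some (.inr ()) then
        some (.inr (.inr (fm N q₀)), x, fun _ => .stay)
        else some (.inr (.inr (fm N q₁)), x, fun i => if (i : ℕ) = r' then .left else .stay)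

/-- The Turing machine of a counter machine which moreover checks that the length of the input is
congruent to `r` modulo `m`. -/
noncomputable def cmach : Machine A where
  k := k
  Q := CQ m N
  finQ := inferInstance
  G := Unit
  finG := inferInstance
  start := .inl false
  accepting := {q | ∃ p : Fin N, q = .inr (.inr p) ∧ ins p = .halt}
  δ q x := {y | cnxt A ins k m N r q0 q x = some y}

/-- Concrete configurations of `cmach`. -/
structure CC (A : Type) (k m N : ℕ) where
  st : CQ m N
  tp : Fin (k + 1) → ℤ → Option (A ⊕ Unit)
  ps : Fin (k + 1) → ℤ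

variable {A k m N} in
/-- The configuration reached by an action. -/
def actC (c : CC A k m N)
    (y : CQ m N × (Fin (k + 1) → Option (A ⊕ Unit)) × (Fin (k + 1) → Move)) : CC A k m N where
  st := y.1
  tp := fun i => Function.update (c.tp i) (c.ps i) (y.2.1 i)
  ps := fun i => c.ps i + (y.2.2 i).toInt

/-- The deterministic successor. -/
noncomputable def csucc (c : CC A k m N) : Option (CC A k m N) :=
  (cnxt A ins k m N r q0 c.st (fun i => c.tp i (c.ps i))).map (actC c)

variable {A ins k m N r q0}

/-- Configurations of the machine as concrete configurations. -/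
def ofC (d : Config (cmach A ins k m N r q0)) : CC A k m N := ⟨d.state, d.tape, d.pos⟩

theorem ofC_injective : Function.Injective (ofC (A := A) (ins := ins) (k := k) (m := m) (N := N)
    (r := r) (q0 := q0)) := by
  rintro ⟨s, t, p⟩ ⟨s', t', p'⟩ h
  have h1 : s = s' := congrArg CC.st h
  have h2 : t = t' := congrArg CC.tp h
  have h3 : p = p' := congrArg CC.ps h
  subst h1 h2 h3
  rfl

theorem ofC_surjective : Function.Surjective (ofC (A := A) (ins := ins) (k := k) (m := m) (N := N)
    (r := r) (q0 := q0)) := fun c => ⟨⟨c.st, c.tp, c.ps⟩, rfl⟩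

theorem step_cmach_iff (c d : Config (cmach A ins k m N r q0)) :
    Step (cmach A ins k m N r q0) c d ↔ csucc A ins k m N r q0 (ofC c) = some (ofC d) := by
  unfold csucc
  rw [Option.map_eq_some_iff]
  constructor
  · rintro ⟨y, hy, h1, h2, h3⟩
    refine ⟨y, hy, ?_⟩
    obtain ⟨st, tp, ps⟩ := d
    simp only at h1 h2 h3
    subst h1 h2 h3
    rfl
  · rintro ⟨y, hy, h⟩
    refine ⟨y, hy, ?_⟩
    exact ⟨(congrArg CC.st h).symm, (congrArg CC.tp h).symm, (congrArg CC.ps h).symm⟩

variable (A ins k m N r q0) in
/-- Iteration of the deterministic successor. -/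
noncomputable def citer (c : CC A k m N) (s : ℕ) : Option (CC A k m N) :=
  Nat.rec (some c) (fun _ o => o.bind (csucc A ins k m N r q0)) s

theorem citer_succ (c : CC A k m N) (s : ℕ) :
    citer A ins k m N r q0 c (s + 1) =
      (citer A ins k m N r q0 c s).bind (csucc A ins k m N r q0) := rfl

theorem reachIn_cmach (c d : Config (cmach A ins k m N r q0)) (s : ℕ) :
    ReachIn (cmach A ins k m N r q0) c s d ↔
      citer A ins k m N r q0 (ofC c) s = some (ofC d) := by
  induction s generalizing d with
  | zero =>
    show d = c ↔ some (ofC c) = some (ofC d)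
    rw [Option.some_inj, ofC_injective.eq_iff, eq_comm]
  | succ s ih =>
    rw [citer_succ, Option.bind_eq_some_iff]
    constructor
    · rintro ⟨c', h1, h2⟩
      exact ⟨ofC c', (ih c').1 h1, (step_cmach_iff c' d).1 h2⟩
    · rintro ⟨c', h1, h2⟩
      obtain ⟨c'', rfl⟩ := ofC_surjective (ins := ins) (r := r) (q0 := q0) c'
      exact ⟨c'', (ih c'').2 h1, (step_cmach_iff c'' d).2 h2⟩

/-- The tapes after the initial phase. -/
def mtape (w : List A) (i : Fin (k + 1)) (z : ℤ) : Option (A ⊕ Unit) :=
  if z = -1 then some (.inr ()) else if i = 0 then wordTape w z else none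

variable (k m N) in
/-- The start configuration. -/
noncomputable def icfg (w : List A) : CC A k m N where
  st := .inl false
  tp := fun i => if i = 0 then wordTape w else fun _ => none
  ps := fun _ => 0

variable (k m N) in
/-- The second configuration. -/
noncomputable def jcfg (w : List A) : CC A k m N where
  st := .inl true
  tp := fun i => if i = 0 then wordTape w else fun _ => none
  ps := fun _ => -1

variable (k m N) in
/-- Scanning configurations. -/
noncomputable def scfg (w : List A) (i : ℕ) : CC A k m N where
  st := .inr (.inl (fm m i))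
  tp := mtape w
  ps := fun j => if j = 0 then (i : ℤ) else -1

variable (k m N) in
/-- Configurations of the simulation of the counter machine. -/
noncomputable def mcfg (w : List A) (c : ℕ × Regs) : CC A k m N where
  st := .inr (.inr (fm N c.1))
  tp := mtape w
  ps := fun j => (c.2 j : ℤ) - 1

theorem ofC_startConfig (w : List A) :
    ofC (startConfig (cmach A ins k m N r q0) w) = icfg k m N w := rfl

theorem csucc_icfg (w : List A) :
    csucc A ins k m N r q0 (icfg k m N w) = some (jcfg k m N w) := by
  unfold csucc
  have h : cnxt A ins k m N r q0 (icfg k m N w).st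
      (fun i => (icfg k m N w).tp i ((icfg k m N w).ps i)) =
      some (.inl true, (fun i => (icfg k m N w).tp i ((icfg k m N w).ps i)), fun _ => .left) := rfl
  rw [h, Option.map_some, Option.some_inj]
  unfold actC icfg jcfg
  congr 1
  · funext i
    exact Function.update_eq_self _ _

theorem csucc_jcfg (w : List A) :
    csucc A ins k m N r q0 (jcfg k m N w) = some (scfg k m N w 0) := by
  unfold csucc
  have h : cnxt A ins k m N r q0 (jcfg k m N w).st
      (fun i => (jcfg k m N w).tp i ((jcfg k m N w).ps i)) =
      some (.inr (.inl (fm m 0)), fun _ => some (.inr ()),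
      fun i => if i = 0 then .right else .stay) := rfl
  rw [h, Option.map_some, Option.some_inj]
  unfold actC jcfg scfg
  congr 1
  · funext i z
    unfold mtape
    by_cases hz : z = -1
    · subst hz
      simp
    · rw [Function.update_of_ne hz, if_neg hz]
      show (if i = 0 then wordTape w else fun _ => none : ℤ → Option (A ⊕ Unit)) z =
        if i = 0 then wordTape w z else none
      split_ifs <;> rfl
  · funext i
    simp only
    split_ifs <;> simp [Move.toInt]

theorem cnxt_scan_some {ρ : Fin m} {x : Fin (k + 1) → Option (A ⊕ Unit)} {y : A ⊕ Unit}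
    (h : x 0 = some y) : cnxt A ins k m N r q0 (.inr (.inl ρ)) x =
      some (.inr (.inl (fm m (ρ + 1))), x, fun i => if i = 0 then .right else .stay) := by
  simp only [cnxt, h]

theorem cnxt_scan_none {ρ : Fin m} {x : Fin (k + 1) → Option (A ⊕ Unit)}
    (h : x 0 = none) : cnxt A ins k m N r q0 (.inr (.inl ρ)) x =
      if (ρ : ℕ) = r then
        some (.inr (.inr (fm N q0)), x, fun i => if i = 0 then .left else .stay) else none := by
  simp only [cnxt, h]

theorem csucc_scfg_of_lt (w : List A) (i : ℕ) (hi : i < w.length) :
    csucc A ins k m N r q0 (scfg k m N w i) = some (scfg k m N w (i + 1)) := by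
  unfold csucc
  have h0 : (fun j => (scfg k m N w i).tp j ((scfg k m N w i).ps j)) 0 = some (.inl w[i]) := by
    simp only [scfg, if_true]
    unfold mtape
    rw [if_neg (by omega), if_pos rfl]
    simp [wordTape, hi]
  have hst : (scfg k m N w i).st = .inr (.inl (fm m i)) := rfl
  rw [hst, cnxt_scan_some h0, Option.map_some, Option.some_inj]
  unfold actC scfg
  congr 1
  · simp only
    congr 2
    apply Fin.ext
    simp [fm]
  · funext j
    exact Function.update_eq_self _ _
  · funext j
    simp only
    split_ifs <;> simp [Move.toInt]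

theorem csucc_scfg_end (w : List A) :
    csucc A ins k m N r q0 (scfg k m N w w.length) =
      if w.length % m = r then some (mcfg k m N w (q0, Pool.Agent.H83.init w.length))
      else none := by
  unfold csucc
  have h0 : (fun j => (scfg k m N w w.length).tp j ((scfg k m N w w.length).ps j)) 0 = none := by
    simp only [scfg, if_true]
    unfold mtape
    rw [if_neg (by omega), if_pos rfl]
    simp [wordTape]
  have hst : (scfg k m N w w.length).st = .inr (.inl (fm m w.length)) := rfl
  rw [hst, cnxt_scan_none h0]
  have hfm : ((fm m w.length : Fin m) : ℕ) = w.length % m := rfl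
  rw [hfm]
  by_cases hr : w.length % m = r
  · rw [if_pos hr, if_pos hr, Option.map_some, Option.some_inj]
    unfold actC scfg mcfg
    congr 1
    · funext j
      exact Function.update_eq_self _ _
    · funext j
      simp only
      by_cases hj : j = 0
      · subst hj
        simp [Move.toInt, Pool.Agent.H83.init]
        ring
      · have hj' : (j : ℕ) ≠ 0 := fun h => hj (Fin.ext h)
        simp [Move.toInt, Pool.Agent.H83.init, hj, hj']
  · rw [if_neg hr, if_neg hr, Option.map_none]

open Classical in
/-- One step of the simulation. -/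
theorem csucc_mcfg (w : List A) (c : ℕ × Regs)
    (hR : ∀ q < N, (ins q).RegBelow (k + 1)) (hc : c.1 < N) :
    csucc A ins k m N r q0 (mcfg k m N w c) =
      if ins c.1 = .halt then none else some (mcfg k m N w (mstep ins c)) := by
  classical
  obtain ⟨q, s⟩ := c
  simp only at hc
  have hq : ((fm N q : Fin N) : ℕ) = q := Nat.mod_eq_of_lt hc
  have hst : (mcfg k m N w (q, s)).st = .inr (.inr (fm N q)) := rfl
  have hself : ∀ j, Function.update ((mcfg k m N w (q, s)).tp j) ((mcfg k m N w (q, s)).ps j)
      ((mcfg k m N w (q, s)).tp j ((mcfg k m N w (q, s)).ps j)) = mtape w j := fun j =>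
    Function.update_eq_self _ _
  unfold csucc
  rw [hst]
  cases hi : ins q with
  | halt =>
    simp only [cnxt, hq, hi, Option.map_none]
    rw [if_pos trivial]
  | goto q' =>
    simp only [cnxt, hq, hi, Option.map_some, mstep]
    rw [if_neg (by simp)]
    congr 1
    unfold actC
    simp only [hself]
    unfold mcfg
    congr 1
    funext j
    simp [Move.toInt]
  | inc r' q' =>
    simp only [cnxt, hq, hi, Option.map_some, mstep]
    rw [if_neg (by simp)]
    congr 1
    unfold actC
    simp only [hself]
    unfold mcfg
    congr 1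
    funext j
    simp only
    by_cases hj : (j : ℕ) = r'
    · subst hj
      simp [Move.toInt]
    · rw [if_neg hj, Function.update_of_ne hj]
      simp [Move.toInt]
  | jz r' q₀ q₁ =>
    have hreg : r' < k + 1 := by
      have := hR q hc
      rw [hi] at this
      exact this
    have hiff : (∃ i : Fin (k + 1), (i : ℕ) = r' ∧ (mcfg k m N w (q, s)).tp i
        ((mcfg k m N w (q, s)).ps i) = some (.inr ())) ↔ s r' = 0 := by
      constructor
      · rintro ⟨i, rfl, hx⟩
        simp only [mcfg] at hx
        by_contra hs
        unfold mtape at hx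
        rw [if_neg (by omega)] at hx
        split_ifs at hx
        unfold wordTape at hx
        rw [if_pos (by omega)] at hx
        simp at hx
      · intro hs
        refine ⟨⟨r', hreg⟩, rfl, ?_⟩
        simp only [mcfg]
        unfold mtape
        rw [if_pos (by simp [hs])]
    simp only [cnxt, hq, hi, mstep]
    rw [if_neg (show ¬ Instr.jz r' q₀ q₁ = Instr.halt by simp)]
    by_cases hs : s r' = 0
    · rw [if_pos (hiff.2 hs), if_pos hs, Option.map_some]
      congr 1
      unfold actC
      simp only [hself]
      unfold mcfg
      congr 1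
      funext j
      simp [Move.toInt]
    · rw [if_neg (fun h => hs (hiff.1 h)), if_neg hs, Option.map_some]
      congr 1
      unfold actC
      simp only [hself]
      unfold mcfg
      congr 1
      funext j
      simp only
      by_cases hj : (j : ℕ) = r'
      · subst hj
        simp [Move.toInt]
        omega
      · rw [if_neg hj, Function.update_of_ne hj]
        simp [Move.toInt]

/-- The counter machine started on input `n` halts after exactly `j` steps. -/
def HaltsAt (ins : ℕ → Instr) (q0 n j : ℕ) : Prop :=
  ins ((mstep ins)^[j] (q0, Pool.Agent.H83.init n)).1 = .halt ∧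
    ∀ j' < j, ins ((mstep ins)^[j'] (q0, Pool.Agent.H83.init n)).1 ≠ .halt

omit [NeZero N] in
theorem mstep_lt (hN : ∀ q < N, (ins q).Below N) {c : ℕ × Regs} (hc : c.1 < N) :
    (mstep ins c).1 < N := by
  obtain ⟨q, s⟩ := c
  simp only at hc
  have h := hN q hc
  unfold mstep
  simp only
  cases hi : ins q with
  | halt => exact hc
  | goto q' => rw [hi] at h; exact h
  | inc r' q' => rw [hi] at h; exact h
  | jz r' q₀ q₁ =>
    rw [hi] at h
    simp only
    split_ifs
    · exact h.1
    · exact h.2

omit [NeZero N] in
theorem mstep_iter_lt (hN : ∀ q < N, (ins q).Below N) (hq0 : q0 < N) (s : Regs) (j : ℕ) :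
    ((mstep ins)^[j] (q0, s)).1 < N := by
  induction j with
  | zero => exact hq0
  | succ j ih =>
    rw [Function.iterate_succ_apply']
    exact mstep_lt hN ih

theorem citer_scan (w : List A) (i : ℕ) (hi : i ≤ w.length) :
    citer A ins k m N r q0 (icfg k m N w) (2 + i) = some (scfg k m N w i) := by
  induction i with
  | zero =>
    show ((some (icfg k m N w)).bind (csucc A ins k m N r q0)).bind (csucc A ins k m N r q0) = _
    rw [Option.bind_some, csucc_icfg, Option.bind_some, csucc_jcfg]
  | succ i ih =>
    rw [← Nat.add_assoc, citer_succ, ih (by omega), Option.bind_some,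
      csucc_scfg_of_lt w i (by omega)]

open Classical in
theorem citer_main (w : List A) (hN : ∀ q < N, (ins q).Below N)
    (hR : ∀ q < N, (ins q).RegBelow (k + 1)) (hq0 : q0 < N) (j : ℕ) :
    citer A ins k m N r q0 (icfg k m N w) (w.length + 3 + j) =
      if w.length % m = r ∧
        ∀ j' < j, ins ((mstep ins)^[j'] (q0, Pool.Agent.H83.init w.length)).1 ≠ .halt then
        some (mcfg k m N w ((mstep ins)^[j] (q0, Pool.Agent.H83.init w.length))) else none := by
  induction j with
  | zero =>
    have h : w.length + 3 + 0 = (2 + w.length) + 1 := by omega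
    rw [h, citer_succ, citer_scan w _ le_rfl, Option.bind_some, csucc_scfg_end]
    simp
  | succ j ih =>
    rw [← Nat.add_assoc, citer_succ, ih]
    by_cases h : w.length % m = r ∧
        ∀ j' < j, ins ((mstep ins)^[j'] (q0, Pool.Agent.H83.init w.length)).1 ≠ .halt
    · rw [if_pos h, Option.bind_some, csucc_mcfg w _ hR (mstep_iter_lt hN hq0 _ j)]
      by_cases hj : ins ((mstep ins)^[j] (q0, Pool.Agent.H83.init w.length)).1 = .halt
      · rw [if_pos hj, if_neg]
        rintro ⟨-, h2⟩
        exact h2 j (Nat.lt_succ_self j) hj
      · rw [if_neg hj, if_pos, ← Function.iterate_succ_apply' (mstep ins)]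
        refine ⟨h.1, fun j' hj' => ?_⟩
        rcases Nat.lt_succ_iff_lt_or_eq.1 hj' with h3 | h3
        · exact h.2 j' h3
        · rw [h3]; exact hj
    · rw [if_neg h, Option.bind_none, if_neg]
      rintro ⟨h1, h2⟩
      exact h ⟨h1, fun j' hj' => h2 j' (by omega)⟩

/-- **Acceptance by the Turing machine of a counter machine.** -/
theorem acceptsIn_cmach (w : List A) (hN : ∀ q < N, (ins q).Below N)
    (hR : ∀ q < N, (ins q).RegBelow (k + 1)) (hq0 : q0 < N) (s : ℕ) :
    AcceptsIn (cmach A ins k m N r q0) w s ↔
      w.length % m = r ∧ ∃ j, HaltsAt ins q0 w.length j ∧ s = w.length + 3 + j := by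
  classical
  rw [acceptsIn_iff]
  have hacc : ∀ d : Config (cmach A ins k m N r q0), d.state ∈ (cmach A ins k m N r q0).accepting ↔
      ∃ p : Fin N, (ofC d).st = .inr (.inr p) ∧ ins p = .halt := fun q => Iff.rfl
  constructor
  · rintro ⟨d, hd, ha⟩
    rw [reachIn_cmach, ofC_startConfig] at hd
    rw [hacc] at ha
    obtain ⟨p, hp1, hp2⟩ := ha
    rcases Nat.lt_or_ge s (w.length + 3) with hs | hs
    · exfalso
      rcases Nat.lt_or_ge s 2 with h2 | h2
      · have h01 : s = 0 ∨ s = 1 := by omega
        rcases h01 with rfl | rfl
        · have : citer A ins k m N r q0 (icfg k m N w) 0 = some (icfg k m N w) := rfl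
          rw [this, Option.some_inj] at hd
          rw [← hd] at hp1
          exact absurd hp1 (by simp [icfg])
        · have : citer A ins k m N r q0 (icfg k m N w) 1 = some (jcfg k m N w) := by
            show (some (icfg k m N w)).bind (csucc A ins k m N r q0) = _
            rw [Option.bind_some, csucc_icfg]
          rw [this, Option.some_inj] at hd
          rw [← hd] at hp1
          exact absurd hp1 (by simp [jcfg])
      · obtain ⟨i, rfl⟩ := Nat.exists_eq_add_of_le h2
        rw [citer_scan w i (by omega), Option.some_inj] at hd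
        rw [← hd] at hp1
        exact absurd hp1 (by simp [scfg])
    · obtain ⟨j, rfl⟩ := Nat.exists_eq_add_of_le hs
      rw [citer_main w hN hR hq0] at hd
      split_ifs at hd with h
      rw [Option.some_inj] at hd
      rw [← hd] at hp1
      simp only [mcfg, Sum.inr.injEq] at hp1
      refine ⟨h.1, j, ⟨?_, h.2⟩, rfl⟩
      have hlt := mstep_iter_lt hN hq0 (Pool.Agent.H83.init w.length) j
      have : (p : ℕ) = ((mstep ins)^[j] (q0, Pool.Agent.H83.init w.length)).1 := by
        rw [← hp1]
        exact Nat.mod_eq_of_lt hlt
      rw [← this]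
      exact hp2
  · rintro ⟨hr, j, ⟨hj1, hj2⟩, rfl⟩
    obtain ⟨d, hd⟩ := ofC_surjective (ins := ins) (r := r) (q0 := q0)
      (mcfg k m N w ((mstep ins)^[j] (q0, Pool.Agent.H83.init w.length)))
    refine ⟨d, ?_, ?_⟩
    · rw [reachIn_cmach, ofC_startConfig, citer_main w hN hR hq0, if_pos ⟨hr, hj2⟩, hd]
    · rw [hacc, hd]
      refine ⟨_, rfl, ?_⟩
      have hlt := mstep_iter_lt hN hq0 (Pool.Agent.H83.init w.length) j
      have : ((fm N ((mstep ins)^[j] (q0, Pool.Agent.H83.init w.length)).1 : Fin N) : ℕ) =
          ((mstep ins)^[j] (q0, Pool.Agent.H83.init w.length)).1 := Nat.mod_eq_of_lt hlt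
      rw [this]
      exact hj1

/-- The machine is deterministic. -/
theorem cmach_deterministic (q : (cmach A ins k m N r q0).Q)
    (x : Fin ((cmach A ins k m N r q0).k + 1) → Option (A ⊕ (cmach A ins k m N r q0).G)) :
    ((cmach A ins k m N r q0).δ q x).Subsingleton := by
  intro y hy z hz
  have h1 : cnxt A ins k m N r q0 q x = some y := hy
  have h2 : cnxt A ins k m N r q0 q x = some z := hz
  exact Option.some_injective _ (h1.symm.trans h2)

end

end Pool.Agent.H71.NT
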