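import Pool.Agent.H71.NT.Sim

/-!
Bounded acceptance of a fixed nondeterministic machine on the words `aⁿ` is primitive recursive:
from machines to finite history systems.
-/

namespace Pool.Agent.H71.NT

open Pool.Agent.Lead.NTM

/-- Configurations reachable in exactly `s` steps. -/
def ReachIn {A : Type} (M : Machine A) (c0 : Config M) : ℕ → Config M → Prop
  | 0, d => d = c0
  | s + 1, d => ∃ c, ReachIn M c0 s c ∧ Step M c d

theorem reachIn_iff {A : Type} {M : Machine A} {c0 : Config M} {s : ℕ} {d : Config M} :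
    ReachIn M c0 s d ↔
      ∃ c : ℕ → Config M, c 0 = c0 ∧ (∀ i < s, Step M (c i) (c (i + 1))) ∧ c s = d := by
  induction s generalizing d with
  | zero =>
    constructor
    · intro h
      exact ⟨fun _ => d, h, fun i hi => absurd hi (Nat.not_lt_zero i), rfl⟩
    · rintro ⟨c, h0, -, hd⟩
      exact hd.symm.trans h0
  | succ s ih =>
    constructor
    · rintro ⟨c', h1, h2⟩
      obtain ⟨c, h0, hs, hc⟩ := ih.1 h1
      refine ⟨fun i => if i ≤ s then c i else d, ?_, ?_, ?_⟩
      · simp [h0]
      · intro i hi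
        rcases Nat.lt_succ_iff_lt_or_eq.1 hi with h | h
        · simp only [if_pos h.le, if_pos (Nat.succ_le_of_lt h)]
          exact hs i h
        · subst h
          simp only [if_pos le_rfl, if_neg (Nat.not_succ_le_self i), hc]
          exact h2
      · simp
    · rintro ⟨c, h0, hs, hc⟩
      exact ⟨c s, ih.2 ⟨c, h0, fun i hi => hs i (by omega), rfl⟩, hc ▸ hs s (Nat.lt_succ_self s)⟩

theorem acceptsIn_iff {A : Type} {M : Machine A} {w : List A} {s : ℕ} :
    AcceptsIn M w s ↔ ∃ d, ReachIn M (startConfig M w) s d ∧ d.state ∈ M.accepting := by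
  constructor
  · rintro ⟨c, h0, hs, ha⟩
    exact ⟨c s, reachIn_iff.2 ⟨c, h0, hs, rfl⟩, ha⟩
  · rintro ⟨d, hd, ha⟩
    obtain ⟨c, h0, hs, hc⟩ := reachIn_iff.1 hd
    exact ⟨c, h0, hs, by rw [hc]; exact ha⟩

instance : Finite Move :=
  Finite.of_injective (fun m : Move => (match m with
    | .left => 0
    | .stay => 1
    | .right => 2 : Fin 3)) (by
      intro a b h
      cases a <;> cases b <;> simp_all)

/-- A rule: state, scanned letters, and a possible action. -/
def Rule {A : Type} (M : Machine A) : Type :=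
  {r : (M.Q × (Fin (M.k + 1) → Option (A ⊕ M.G))) ×
    (M.Q × (Fin (M.k + 1) → Option (A ⊕ M.G)) × (Fin (M.k + 1) → Move)) //
      r.2 ∈ M.δ r.1.1 r.1.2}

instance {A : Type} [Finite A] (M : Machine A) : Finite (Rule M) := by
  have := M.finQ
  have := M.finG
  unfold Rule
  infer_instance

/-- An injective numbering of a finite type. -/
noncomputable def num (X : Type) [Finite X] (x : X) : ℕ := (Finite.equivFin X x : ℕ)

theorem num_injective (X : Type) [Finite X] : Function.Injective (num X) := fun _ _ h =>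
  (Finite.equivFin X).injective (Fin.ext h)

section

variable {A : Type} [Finite A] (M : Machine A) (a : A)

/-- numbering of the states -/
noncomputable def qnum (q : M.Q) : ℕ :=
  haveI := M.finQ
  num M.Q q

omit [Finite A] in
theorem qnum_injective : Function.Injective (qnum M) :=
  haveI := M.finQ
  num_injective M.Q

/-- numbering of the letters -/
noncomputable def snum (x : Option (A ⊕ M.G)) : ℕ :=
  haveI := M.finG
  num (Option (A ⊕ M.G)) x

theorem snum_injective : Function.Injective (snum M) :=
  haveI := M.finG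
  num_injective _

/-- the rule with number `j` -/
noncomputable def rul (j : Fin (Nat.card (Rule M))) : Rule M := (Finite.equivFin (Rule M)).symm j

theorem rul_surjective : Function.Surjective (rul M) := (Finite.equivFin (Rule M)).symm.surjective

open Classical in
/-- The history system of a machine. -/
noncomputable def hsys : HSys (M.k + 1) where
  b := Nat.card (Rule M)
  src j := qnum M (rul M j).1.1.1
  tgt j := qnum M (rul M j).1.2.1
  rd i j := snum M ((rul M j).1.1.2 i)
  wr i j := snum M ((rul M j).1.2.2.1 i)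
  mr i j := match (rul M j).1.2.2.2 i with
    | .right => 1
    | _ => 0
  ml i j := match (rul M j).1.2.2.2 i with
    | .left => 1
    | _ => 0
  start := qnum M M.start
  letter := snum M (some (Sum.inl a))
  blank := snum M none
  acc c := decide (∃ q ∈ M.accepting, qnum M q = c)

/-- The configuration obtained by applying a rule. -/
noncomputable def applyRule (r : Rule M) (c : Config M) : Config M where
  state := r.1.2.1
  tape := fun i => Function.update (c.tape i) (c.pos i) (r.1.2.2.1 i)
  pos := fun i => c.pos i + (r.1.2.2.2 i).toInt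

/-- The configuration after a history. -/
noncomputable def cfg (n : ℕ) : List (Fin (hsys M a).b) → Config M
  | [] => startConfig M (List.replicate n a)
  | ρ :: t => applyRule M (rul M ρ) (cfg n t)

theorem cfg_state (n : ℕ) (h : List (Fin (hsys M a).b)) :
    qnum M (cfg M a n h).state = (hsys M a).state h := by
  cases h <;> rfl

theorem cfg_pos (n : ℕ) (i : Fin (M.k + 1)) (h : List (Fin (hsys M a).b)) :
    (cfg M a n h).pos i = (((hsys M a).pos i h).1 : ℤ) - (((hsys M a).pos i h).2 : ℤ) := by
  induction h with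
  | nil => simp [cfg, startConfig, HSys.pos]
  | cons ρ t ih =>
    have h1 : (cfg M a n (ρ :: t)).pos i = (cfg M a n t).pos i + ((rul M ρ).1.2.2.2 i).toInt := rfl
    have h2 : (hsys M a).pos i (ρ :: t) = (((hsys M a).pos i t).1 + (hsys M a).mr i ρ,
        ((hsys M a).pos i t).2 + (hsys M a).ml i ρ) := rfl
    have h3 : ((rul M ρ).1.2.2.2 i).toInt = ((hsys M a).mr i ρ : ℤ) - ((hsys M a).ml i ρ : ℤ) := by
      simp only [hsys]
      cases (rul M ρ).1.2.2.2 i <;> simp [Move.toInt]
    rw [h1, ih, h2, h3]
    push_cast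
    ring

theorem cfg_tape (n : ℕ) (i : Fin (M.k + 1)) (h : List (Fin (hsys M a).b)) (c : ℕ × ℕ) :
    snum M ((cfg M a n h).tape i ((c.1 : ℤ) - (c.2 : ℤ))) = (hsys M a).cont i n h c := by
  induction h with
  | nil =>
    have h1 : (cfg M a n []).tape i = if i = 0 then wordTape (List.replicate n a) else
      fun _ => none := rfl
    have h2 : (hsys M a).cont i n [] c = (hsys M a).ini i n c := rfl
    rw [h1, h2]
    unfold HSys.ini
    by_cases hi : i = 0
    · subst hi
      simp only [if_true, Fin.val_zero, true_and]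
      unfold wordTape
      by_cases h1 : c.2 ≤ c.1
      · rw [if_pos (by omega)]
        have h2 : ((c.1 : ℤ) - (c.2 : ℤ)).toNat = c.1 - c.2 := by omega
        rw [h2]
        by_cases h3 : c.1 < n + c.2
        · rw [if_pos ⟨h1, h3⟩, List.getElem?_replicate, if_pos (by omega)]
          rfl
        · rw [if_neg (by tauto), List.getElem?_replicate, if_neg (by omega)]
          rfl
      · rw [if_neg (by omega), if_neg (by tauto)]
        rfl
    · have hi' : (i : ℕ) ≠ 0 := fun h => hi (Fin.ext h)
      rw [if_neg hi, if_neg (by tauto)]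
      rfl
  | cons ρ t ih =>
    have h1 : (cfg M a n (ρ :: t)).tape i =
      Function.update ((cfg M a n t).tape i) ((cfg M a n t).pos i) ((rul M ρ).1.2.2.1 i) := rfl
    have h2 : (hsys M a).cont i n (ρ :: t) c =
      if ((hsys M a).pos i t).1 + c.2 = c.1 + ((hsys M a).pos i t).2 then (hsys M a).wr i ρ
        else (hsys M a).cont i n t c := rfl
    rw [h1, h2, cfg_pos]
    by_cases hc : ((hsys M a).pos i t).1 + c.2 = c.1 + ((hsys M a).pos i t).2
    · rw [if_pos hc]
      have : ((c.1 : ℤ) - (c.2 : ℤ)) =
          (((hsys M a).pos i t).1 : ℤ) - (((hsys M a).pos i t).2 : ℤ) := by omega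
      rw [this, Function.update_self]
      rfl
    · rw [if_neg hc, Function.update_of_ne (by omega)]
      exact ih

theorem app_iff (n : ℕ) (ρ : Fin (hsys M a).b) (t : List (Fin (hsys M a).b)) :
    (hsys M a).App n ρ t ↔ (rul M ρ).1.1.1 = (cfg M a n t).state ∧
      (rul M ρ).1.1.2 = fun i => (cfg M a n t).tape i ((cfg M a n t).pos i) := by
  unfold HSys.App
  rw [← cfg_state]
  refine and_congr ?_ ?_
  · exact (qnum_injective M).eq_iff
  · rw [funext_iff]
    refine forall_congr' fun i => ?_
    rw [← cfg_tape, ← cfg_pos]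
    exact (snum_injective M).eq_iff

theorem step_cfg_iff (n : ℕ) (t : List (Fin (hsys M a).b)) (d : Config M) :
    Step M (cfg M a n t) d ↔ ∃ ρ, (hsys M a).App n ρ t ∧ d = cfg M a n (ρ :: t) := by
  constructor
  · rintro ⟨r, hr, h1, h2, h3⟩
    obtain ⟨ρ, hρ⟩ := rul_surjective M ⟨(((cfg M a n t).state,
      fun i => (cfg M a n t).tape i ((cfg M a n t).pos i)), r), hr⟩
    refine ⟨ρ, (app_iff M a n ρ t).2 ⟨by rw [hρ], by rw [hρ]⟩, ?_⟩
    have : cfg M a n (ρ :: t) = applyRule M (rul M ρ) (cfg M a n t) := rfl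
    rw [this, hρ]
    obtain ⟨st, tp, ps⟩ := d
    simp only at h1 h2 h3
    unfold applyRule
    congr
  · rintro ⟨ρ, happ, rfl⟩
    rw [app_iff] at happ
    refine ⟨(rul M ρ).1.2, ?_, rfl, rfl, rfl⟩
    rw [← happ.1, ← happ.2]
    exact (rul M ρ).2

theorem reachIn_cfg (n s : ℕ) (d : Config M) :
    ReachIn M (startConfig M (List.replicate n a)) s d ↔
      ∃ h : List (Fin (hsys M a).b), h.length = s ∧ (hsys M a).valid n h = true ∧
        d = cfg M a n h := by
  induction s generalizing d with
  | zero =>
    constructor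
    · intro h
      exact ⟨[], rfl, rfl, h⟩
    · rintro ⟨h, hl, -, hd⟩
      rw [List.length_eq_zero_iff] at hl
      subst hl
      exact hd
  | succ s ih =>
    constructor
    · rintro ⟨c, hc, hst⟩
      obtain ⟨t, hl, hv, rfl⟩ := (ih c).1 hc
      obtain ⟨ρ, happ, rfl⟩ := (step_cfg_iff M a n t d).1 hst
      refine ⟨ρ :: t, by simp [hl], ?_, rfl⟩
      show (decide ((hsys M a).App n ρ t) && (hsys M a).valid n t) = true
      simp [happ, hv]
    · rintro ⟨h, hl, hv, rfl⟩
      cases h with
      | nil => simp at hl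
      | cons ρ t =>
        have hv' : (decide ((hsys M a).App n ρ t) && (hsys M a).valid n t) = true := hv
        rw [Bool.and_eq_true, decide_eq_true_eq] at hv'
        exact ⟨cfg M a n t, (ih _).2 ⟨t, by simpa using hl, hv'.2, rfl⟩,
          (step_cfg_iff M a n t _).2 ⟨ρ, hv'.1, rfl⟩⟩

/-- **Bounded acceptance is primitive recursive.** -/
theorem primrecPred_acceptsIn :
    PrimrecPred fun p : ℕ × ℕ => AcceptsIn M (List.replicate p.1 a) p.2 := by
  refine (hsys M a).primrecPred_accepts.of_eq fun p => ?_
  rw [acceptsIn_iff]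
  constructor
  · rintro ⟨h, hl, hv, ha⟩
    rw [HSys.mem_hist] at hl
    refine ⟨cfg M a p.1 h, (reachIn_cfg M a _ _ _).2 ⟨h, hl, hv, rfl⟩, ?_⟩
    simp only [hsys, decide_eq_true_eq] at ha
    obtain ⟨q, hq, hqc⟩ := ha
    have h1 := cfg_state M a p.1 h
    rw [← qnum_injective M (hqc.trans h1.symm)]
    exact hq
  · rintro ⟨d, hd, ha⟩
    obtain ⟨h, hl, hv, rfl⟩ := (reachIn_cfg M a _ _ _).1 hd
    refine ⟨h, ((hsys M a).mem_hist _ _).2 hl, hv, ?_⟩
    simp only [hsys, decide_eq_true_eq]
    exact ⟨_, ha, cfg_state M a p.1 h⟩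

/-- Acceptance within a bound is primitive recursive. -/
theorem primrecPred_acceptsWithin :
    PrimrecPred fun p : ℕ × ℕ => ∃ s ≤ p.2, AcceptsIn M (List.replicate p.1 a) s := by
  have h : PrimrecRel fun (s n : ℕ) => AcceptsIn M (List.replicate n a) s :=
    (primrecPred_acceptsIn M a).comp (Primrec.snd.pair Primrec.fst)
  have h2 := h.exists_lt.comp (Primrec.succ.comp Primrec.snd) (Primrec.fst (α := ℕ) (β := ℕ))
  exact h2.of_eq fun p => by simp

end

end Pool.Agent.H71.NT
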