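import Pool.Agent.H71.NT.Parse
import Pool.Agent.H71.NT.SimM

/-!
Polynomial-time verification of the computations of nondeterministic machines given by data.
-/

namespace Pool.Agent.H71.NT

open Pool.Agent.H79.Cx Pool.Agent.Lead.NTM

/-- Descriptions of machines. -/
abbrev Desc := List (List (List ℕ))

namespace Desc

/-- an entry of a list of lists -/
def at2 (l : List (List ℕ)) (i j : ℕ) : ℕ := (l.getD i []).getD j 0

/-- number of tapes -/
def nt (d : Desc) : ℕ := at2 (d.getD 0 []) 0 0
/-- start state -/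
def st (d : Desc) : ℕ := at2 (d.getD 0 []) 0 1
/-- the letter -/
def lt (d : Desc) : ℕ := at2 (d.getD 0 []) 0 2
/-- the blank -/
def bl (d : Desc) : ℕ := at2 (d.getD 0 []) 0 3
/-- accepting states -/
def ac (d : Desc) : List ℕ := (d.getD 0 []).getD 1 []
/-- number of rules -/
def nr (d : Desc) : ℕ := d.length - 1
/-- source -/
def src (d : Desc) (ρ : ℕ) : ℕ := at2 (d.getD (ρ + 1) []) 0 0
/-- target -/
def tgt (d : Desc) (ρ : ℕ) : ℕ := at2 (d.getD (ρ + 1) []) 0 1
/-- scanned letter -/
def rd (d : Desc) (i ρ : ℕ) : ℕ := at2 (d.getD (ρ + 1) []) 1 i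
/-- written letter -/
def wr (d : Desc) (i ρ : ℕ) : ℕ := at2 (d.getD (ρ + 1) []) 2 i
/-- move to the right -/
def mr (d : Desc) (i ρ : ℕ) : ℕ := at2 (d.getD (ρ + 1) []) 3 i
/-- move to the left -/
def ml (d : Desc) (i ρ : ℕ) : ℕ := at2 (d.getD (ρ + 1) []) 4 i

/-- position -/
def pos (d : Desc) (i : ℕ) (t : List ℕ) : ℕ × ℕ :=
  ((t.map fun ρ => d.mr i ρ).sum, (t.map fun ρ => d.ml i ρ).sum)

/-- initial content -/
def ini (d : Desc) (i n : ℕ) (c : ℕ × ℕ) : ℕ :=
  if i = 0 ∧ c.2 ≤ c.1 ∧ c.1 < n + c.2 then d.lt else d.bl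

/-- the last visit of a cell -/
def vis (d : Desc) (i : ℕ) (t : List ℕ) (c : ℕ × ℕ) : ℕ :=
  findFirst t.length fun u => decide ((d.pos i (t.drop (u + 1))).1 + c.2 =
    c.1 + (d.pos i (t.drop (u + 1))).2)

/-- content -/
def cont (d : Desc) (i n : ℕ) (t : List ℕ) (c : ℕ × ℕ) : ℕ :=
  if d.vis i t c < t.length then d.wr i (t.getD (d.vis i t c) 0) else d.ini i n c

/-- state -/
def state (d : Desc) (t : List ℕ) : ℕ := if t.length = 0 then d.st else d.tgt (t.headD 0)

/-- applicability -/
def app (d : Desc) (n ρ : ℕ) (t : List ℕ) : Bool :=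
  decide (ρ < d.nr) && (decide (d.src ρ = d.state t) &&
    (List.range d.nt).all fun i => decide (d.rd i ρ = d.cont i n t (d.pos i t)))

/-- validity of a history -/
def valid (d : Desc) (n : ℕ) (h : List ℕ) : Bool :=
  (List.range h.length).all fun u => d.app n (h.getD u 0) (h.drop (u + 1))

/-- acceptance -/
def acc (d : Desc) (h : List ℕ) : Bool :=
  !((List.range d.ac.length).all fun u => !(decide (d.ac.getD u 0 = d.state h)))

section PT

variable {α : Type} [Enc α]

theorem PT.at2 {l : α → List (List ℕ)} {i j : α → ℕ} (hl : PT l) (hi : PT i) (hj : PT j) :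
    PT (fun x => at2 (l x) (i x) (j x)) := by
  unfold Desc.at2
  fun_prop

attribute [fun_prop] PT.at2

variable {d : α → Desc} {i n ρ : α → ℕ} {t : α → List ℕ} {c : α → ℕ × ℕ}

@[fun_prop] theorem PT.nt (hd : PT d) : PT (fun x => (d x).nt) := by unfold Desc.nt; fun_prop
@[fun_prop] theorem PT.st (hd : PT d) : PT (fun x => (d x).st) := by unfold Desc.st; fun_prop
@[fun_prop] theorem PT.lt (hd : PT d) : PT (fun x => (d x).lt) := by unfold Desc.lt; fun_prop
@[fun_prop] theorem PT.bl (hd : PT d) : PT (fun x => (d x).bl) := by unfold Desc.bl; fun_prop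
@[fun_prop] theorem PT.ac (hd : PT d) : PT (fun x => (d x).ac) := by unfold Desc.ac; fun_prop
@[fun_prop] theorem PT.nr (hd : PT d) : PT (fun x => (d x).nr) := by unfold Desc.nr; fun_prop
@[fun_prop] theorem PT.src (hd : PT d) (hρ : PT ρ) : PT (fun x => (d x).src (ρ x)) := by
  unfold Desc.src; fun_prop
@[fun_prop] theorem PT.tgt (hd : PT d) (hρ : PT ρ) : PT (fun x => (d x).tgt (ρ x)) := by
  unfold Desc.tgt; fun_prop
@[fun_prop] theorem PT.rd (hd : PT d) (hi : PT i) (hρ : PT ρ) :
    PT (fun x => (d x).rd (i x) (ρ x)) := by unfold Desc.rd; fun_prop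
@[fun_prop] theorem PT.wr (hd : PT d) (hi : PT i) (hρ : PT ρ) :
    PT (fun x => (d x).wr (i x) (ρ x)) := by unfold Desc.wr; fun_prop
@[fun_prop] theorem PT.mr (hd : PT d) (hi : PT i) (hρ : PT ρ) :
    PT (fun x => (d x).mr (i x) (ρ x)) := by unfold Desc.mr; fun_prop
@[fun_prop] theorem PT.ml (hd : PT d) (hi : PT i) (hρ : PT ρ) :
    PT (fun x => (d x).ml (i x) (ρ x)) := by unfold Desc.ml; fun_prop

@[fun_prop] theorem PT.pos (hd : PT d) (hi : PT i) (ht : PT t) :
    PT (fun x => (d x).pos (i x) (t x)) := by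
  unfold Desc.pos
  fun_prop

@[fun_prop] theorem PT.ini (hd : PT d) (hi : PT i) (hn : PT n) (hc : PT c) :
    PT (fun x => (d x).ini (i x) (n x) (c x)) := by
  unfold Desc.ini
  fun_prop

@[fun_prop] theorem PT.vis (hd : PT d) (hi : PT i) (ht : PT t) (hc : PT c) :
    PT (fun x => (d x).vis (i x) (t x) (c x)) := by
  unfold Desc.vis
  fun_prop

@[fun_prop] theorem PT.cont (hd : PT d) (hi : PT i) (hn : PT n) (ht : PT t) (hc : PT c) :
    PT (fun x => (d x).cont (i x) (n x) (t x) (c x)) := by
  unfold Desc.cont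
  fun_prop

@[fun_prop] theorem PT.state (hd : PT d) (ht : PT t) : PT (fun x => (d x).state (t x)) := by
  unfold Desc.state
  fun_prop

@[fun_prop] theorem PT.app (hd : PT d) (hn : PT n) (hρ : PT ρ) (ht : PT t) :
    PT (fun x => (d x).app (n x) (ρ x) (t x)) := by
  unfold Desc.app
  fun_prop

@[fun_prop] theorem PT.valid (hd : PT d) (hn : PT n) (ht : PT t) :
    PT (fun x => (d x).valid (n x) (t x)) := by
  unfold Desc.valid
  fun_prop

@[fun_prop] theorem PT.acc (hd : PT d) (ht : PT t) : PT (fun x => (d x).acc (t x)) := by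
  unfold Desc.acc
  fun_prop

end PT

/-! ### The description of a history system -/

theorem findFirst_succ (n : ℕ) (p : ℕ → Bool) :
    findFirst (n + 1) p = if p 0 = true then 0 else findFirst n (fun i => p (i + 1)) + 1 := by
  unfold findFirst
  rw [List.range_succ_eq_map, List.reverse_cons, List.foldl_append, ← List.map_reverse,
    List.foldl_map]
  show (if p 0 = true then 0 else _) = _
  congr 1
  generalize (List.range n).reverse = l
  generalize n = s
  induction l generalizing s with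
  | nil => rfl
  | cons i l ih =>
    rw [List.foldl_cons, List.foldl_cons]
    by_cases h : p (i + 1) = true
    · rw [if_pos h, if_pos h]
      exact ih i
    · rw [if_neg h, if_neg h]
      exact ih s

variable {m : ℕ} (S : HSys m)

/-- The description of a history system. -/
def ofSys : Desc :=
  [[m, S.start, S.letter, S.blank], (S.start :: List.ofFn S.tgt).filter S.acc] ::
    List.ofFn fun ρ : Fin S.b => [[S.src ρ, S.tgt ρ], List.ofFn fun i => S.rd i ρ,
      List.ofFn fun i => S.wr i ρ, List.ofFn fun i => S.mr i ρ, List.ofFn fun i => S.ml i ρ]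

theorem ofSys_nt : (ofSys S).nt = m := rfl
theorem ofSys_st : (ofSys S).st = S.start := rfl
theorem ofSys_lt : (ofSys S).lt = S.letter := rfl
theorem ofSys_bl : (ofSys S).bl = S.blank := rfl
theorem ofSys_nr : (ofSys S).nr = S.b := by
  unfold nr ofSys
  simp

theorem getD_ofFn {α : Type} {n : ℕ} (f : Fin n → α) (i : Fin n) (d : α) :
    (List.ofFn f).getD i d = f i := by
  rw [List.getD_eq_getElem?_getD, List.getElem?_ofFn, dif_pos i.2]
  rfl

theorem ofSys_rule (ρ : Fin S.b) : (ofSys S).getD (ρ + 1) [] = [[S.src ρ, S.tgt ρ],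
    List.ofFn fun i => S.rd i ρ, List.ofFn fun i => S.wr i ρ, List.ofFn fun i => S.mr i ρ,
    List.ofFn fun i => S.ml i ρ] := by
  unfold ofSys
  rw [List.getD_cons_succ, getD_ofFn]

theorem ofSys_src (ρ : Fin S.b) : (ofSys S).src ρ = S.src ρ := by
  unfold src; rw [ofSys_rule]; rfl
theorem ofSys_tgt (ρ : Fin S.b) : (ofSys S).tgt ρ = S.tgt ρ := by
  unfold tgt; rw [ofSys_rule]; rfl
theorem ofSys_rd (i : Fin m) (ρ : Fin S.b) : (ofSys S).rd i ρ = S.rd i ρ := by
  unfold rd; rw [ofSys_rule]; exact getD_ofFn _ i 0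
theorem ofSys_wr (i : Fin m) (ρ : Fin S.b) : (ofSys S).wr i ρ = S.wr i ρ := by
  unfold wr; rw [ofSys_rule]; exact getD_ofFn _ i 0
theorem ofSys_mr (i : Fin m) (ρ : Fin S.b) : (ofSys S).mr i ρ = S.mr i ρ := by
  unfold mr; rw [ofSys_rule]; exact getD_ofFn _ i 0
theorem ofSys_ml (i : Fin m) (ρ : Fin S.b) : (ofSys S).ml i ρ = S.ml i ρ := by
  unfold ml; rw [ofSys_rule]; exact getD_ofFn _ i 0

theorem ofSys_pos (i : Fin m) (h : List (Fin S.b)) :
    (ofSys S).pos i (h.map Fin.val) = S.pos i h := by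
  induction h with
  | nil => rfl
  | cons ρ t ih =>
    have h1 : S.pos i (ρ :: t) = ((S.pos i t).1 + S.mr i ρ, (S.pos i t).2 + S.ml i ρ) := rfl
    rw [h1, ← ih]
    unfold pos
    simp only [List.map_cons, List.sum_cons, ofSys_mr, ofSys_ml]
    rw [Nat.add_comm, Nat.add_comm (S.ml i ρ)]

theorem ofSys_ini (i : Fin m) (n : ℕ) (c : ℕ × ℕ) : (ofSys S).ini i n c = S.ini i n c := rfl

theorem ofSys_cont (i : Fin m) (n : ℕ) (h : List (Fin S.b)) (c : ℕ × ℕ) :
    (ofSys S).cont i n (h.map Fin.val) c = S.cont i n h c := by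
  induction h with
  | nil =>
    unfold cont
    rw [if_neg (by simp)]
    rfl
  | cons ρ t ih =>
    have h1 : S.cont i n (ρ :: t) c = if (S.pos i t).1 + c.2 = c.1 + (S.pos i t).2 then S.wr i ρ
        else S.cont i n t c := rfl
    have h2 : (ofSys S).vis i ((ρ :: t).map Fin.val) c =
        if (S.pos i t).1 + c.2 = c.1 + (S.pos i t).2 then 0
          else (ofSys S).vis i (t.map Fin.val) c + 1 := by
      unfold vis
      rw [List.map_cons, List.length_cons, findFirst_succ]
      simp only [List.drop_succ_cons, List.drop_zero, decide_eq_true_eq, ofSys_pos]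
    rw [h1, ← ih]
    unfold cont
    rw [h2]
    by_cases hc : (S.pos i t).1 + c.2 = c.1 + (S.pos i t).2
    · rw [if_pos hc, if_pos hc, if_pos (by simp)]
      rw [List.map_cons, List.getD_cons_zero, ofSys_wr]
    · rw [if_neg hc, if_neg hc]
      rw [List.map_cons, List.length_cons, List.getD_cons_succ]
      simp only [Nat.add_lt_add_iff_right]

theorem ofSys_state (h : List (Fin S.b)) : (ofSys S).state (h.map Fin.val) = S.state h := by
  cases h with
  | nil => rfl
  | cons ρ t =>
    have h1 : S.state (ρ :: t) = S.tgt ρ := rfl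
    rw [h1, ← ofSys_tgt]
    unfold state
    rw [if_neg (by simp)]
    rfl

theorem ofSys_app (n : ℕ) (ρ : Fin S.b) (t : List (Fin S.b)) :
    (ofSys S).app n ρ (t.map Fin.val) = decide (S.App n ρ t) := by
  rw [Bool.eq_iff_iff, decide_eq_true_eq]
  unfold app HSys.App
  rw [ofSys_nr, ofSys_nt, ofSys_src, ofSys_state, decide_eq_true ρ.2, Bool.true_and,
    Bool.and_eq_true, decide_eq_true_eq, List.all_eq_true]
  refine and_congr Iff.rfl ?_
  constructor
  · intro h i
    have := h i (List.mem_range.2 i.2)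
    rwa [decide_eq_true_eq, ofSys_rd, ofSys_pos, ofSys_cont] at this
  · intro h i hi
    rw [List.mem_range] at hi
    have := h ⟨i, hi⟩
    rw [decide_eq_true_eq]
    rw [← ofSys_rd, ← ofSys_cont, ← ofSys_pos] at this
    exact this

theorem ofSys_valid (n : ℕ) (h : List (Fin S.b)) :
    (ofSys S).valid n (h.map Fin.val) = S.valid n h := by
  induction h with
  | nil => rfl
  | cons ρ t ih =>
    have h1 : S.valid n (ρ :: t) = (decide (S.App n ρ t) && S.valid n t) := rfl
    rw [h1, ← ih]
    unfold valid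
    rw [List.map_cons, List.length_cons, List.range_succ_eq_map, List.all_cons, List.all_map]
    rw [List.getD_cons_zero, List.drop_succ_cons, List.drop_zero, ofSys_app]
    congr 1

/-- Every valid history comes from a history of the system. -/
theorem exists_of_valid {n : ℕ} {h : List ℕ} (hv : (ofSys S).valid n h = true) :
    ∃ h' : List (Fin S.b), h'.map Fin.val = h := by
  have h1 : ∀ ρ ∈ h, ρ < S.b := by
    intro ρ hρ
    obtain ⟨u, hu, rfl⟩ := List.mem_iff_getElem.1 hρ
    unfold valid at hv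
    rw [List.all_eq_true] at hv
    have h2 := hv u (List.mem_range.2 hu)
    unfold app at h2
    rw [Bool.and_eq_true, decide_eq_true_eq, ofSys_nr] at h2
    have h3 : h.getD u 0 = h[u] := by
      rw [List.getD_eq_getElem?_getD, List.getElem?_eq_getElem hu]
      rfl
    rw [h3] at h2
    exact h2.1
  clear hv
  induction h with
  | nil => exact ⟨[], rfl⟩
  | cons ρ t ih =>
    obtain ⟨t', ht'⟩ := ih fun x hx => h1 x (List.mem_cons_of_mem _ hx)
    exact ⟨⟨ρ, h1 ρ List.mem_cons_self⟩ :: t', by rw [List.map_cons, ht']⟩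

theorem ofSys_acc (h : List (Fin S.b)) :
    (ofSys S).acc (h.map Fin.val) = S.acc (S.state h) := by
  unfold acc
  rw [ofSys_state]
  have hac : (ofSys S).ac = (S.start :: List.ofFn S.tgt).filter S.acc := rfl
  have hmem : S.state h ∈ S.start :: List.ofFn S.tgt := by
    cases h with
    | nil => exact List.mem_cons_self
    | cons ρ t =>
      refine List.mem_cons_of_mem _ ?_
      rw [List.mem_ofFn]
      exact ⟨ρ, rfl⟩
  rw [Bool.eq_iff_iff, Bool.not_eq_true', ← Bool.not_eq_true, List.all_eq_true]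
  push Not
  constructor
  · rintro ⟨u, hu, h1⟩
    rw [List.mem_range] at hu
    have h2 : (ofSys S).ac.getD u 0 = S.state h := by simpa using h1
    have h3 : (ofSys S).ac.getD u 0 ∈ (ofSys S).ac := by
      rw [List.getD_eq_getElem?_getD, List.getElem?_eq_getElem hu]
      exact List.getElem_mem hu
    rw [h2, hac, List.mem_filter] at h3
    exact h3.2
  · intro h1
    have h2 : S.state h ∈ (ofSys S).ac := by
      rw [hac, List.mem_filter]
      exact ⟨hmem, h1⟩
    obtain ⟨u, hu, h3⟩ := List.mem_iff_getElem.1 h2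
    refine ⟨u, List.mem_range.2 hu, ?_⟩
    rw [List.getD_eq_getElem?_getD, List.getElem?_eq_getElem hu]
    simp [h3]

end Desc

/-! ### Acceptance of machines -/

section

variable {A : Type} [Finite A] (M : Machine A) (a : A)

/-- The description of a machine (on the words over the single letter `a`). -/
noncomputable def descM : Desc := Desc.ofSys (hsys M a)

/-- Acceptance in terms of the description. -/
theorem acceptsIn_iff_desc (n s : ℕ) : AcceptsIn M (List.replicate n a) s ↔
    ∃ h : List ℕ, h.length = s ∧ (descM M a).valid n h = true ∧ (descM M a).acc h = true := by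
  unfold descM
  rw [acceptsIn_iff]
  constructor
  · rintro ⟨d, hd, ha⟩
    obtain ⟨h, hl, hv, rfl⟩ := (reachIn_cfg M a _ _ _).1 hd
    refine ⟨h.map Fin.val, by simpa using hl, ?_, ?_⟩
    · rw [Desc.ofSys_valid]; exact hv
    · rw [Desc.ofSys_acc]
      simp only [hsys, decide_eq_true_eq]
      exact ⟨_, ha, cfg_state M a n h⟩
  · rintro ⟨h, hl, hv, ha⟩
    obtain ⟨h', rfl⟩ := Desc.exists_of_valid _ hv
    rw [Desc.ofSys_valid] at hv
    rw [Desc.ofSys_acc] at ha
    refine ⟨cfg M a n h', (reachIn_cfg M a _ _ _).2 ⟨h', by simpa using hl, hv, rfl⟩, ?_⟩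
    simp only [hsys, decide_eq_true_eq] at ha
    obtain ⟨q, hq, hqc⟩ := ha
    have h1 := cfg_state M a n h'
    rw [← qnum_injective M (hqc.trans h1.symm)]
    exact hq

end

end Pool.Agent.H71.NT
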