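import Pool.Agent.H71.NT.PRUniv
import Pool.Agent.H71.NT.CM

/-!
The diagonal construction: for every computable `g` there is a computable time bound `t ≥ g` such
that `DTIME(Pol t)` contains a language whose complement is not in `NTIME(Pol t)`.
-/

namespace Pool.Agent.H71.NT

open Pool.Agent.Lead.NTM Pool.Agent.H83
open Nat.Partrec (Code)
open Nat.Partrec.Code

/-! ### Lengths -/

/-- The length coding the pair `(c, x)`. -/
def len (c x : ℕ) : ℕ := 2 ^ c * (2 * x + 1)

/-- One decoding step. -/
def decStep (p : ℕ × ℕ) : ℕ × ℕ := bif p.1 % 2 == 0 then (p.1 / 2, p.2 + 1) else p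

/-- The decoding of lengths. -/
def dec (n : ℕ) : ℕ × ℕ := decStep^[n] (n, 0)

theorem decStep_odd (x c : ℕ) : decStep (2 * x + 1, c) = (2 * x + 1, c) := by
  unfold decStep
  have h : (2 * x + 1) % 2 = 1 := by omega
  simp [h]

theorem decStep_iter_odd (x c i : ℕ) : decStep^[i] (2 * x + 1, c) = (2 * x + 1, c) := by
  induction i with
  | zero => rfl
  | succ i ih => rw [Function.iterate_succ_apply', ih, decStep_odd]

theorem decStep_iter (x c d : ℕ) : decStep^[c] (2 ^ c * (2 * x + 1), d) = (2 * x + 1, d + c) := by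
  induction c generalizing d with
  | zero => simp
  | succ c ih =>
    rw [Function.iterate_succ_apply]
    have h1 : (2 ^ (c + 1) * (2 * x + 1)) % 2 = 0 := by
      rw [pow_succ, mul_comm (2 ^ c) 2, mul_assoc]
      exact Nat.mul_mod_right _ _
    have h2 : (2 ^ (c + 1) * (2 * x + 1)) / 2 = 2 ^ c * (2 * x + 1) := by
      rw [pow_succ, mul_comm (2 ^ c) 2, mul_assoc]
      exact Nat.mul_div_cancel_left _ (by norm_num)
    have h3 : decStep (2 ^ (c + 1) * (2 * x + 1), d) = (2 ^ c * (2 * x + 1), d + 1) := by
      unfold decStep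
      simp only [h1, h2]
      rfl
    rw [h3, ih]
    congr 1
    omega

theorem dec_len (c x : ℕ) : dec (len c x) = (2 * x + 1, c) := by
  unfold dec
  have h : c ≤ len c x := by
    unfold len
    calc c ≤ 2 ^ c := Nat.lt_two_pow_self.le
      _ ≤ 2 ^ c * (2 * x + 1) := Nat.le_mul_of_pos_right _ (by omega)
  obtain ⟨i, hi⟩ := Nat.exists_eq_add_of_le h
  have : decStep^[len c x] (len c x, 0) = decStep^[i] (decStep^[c] (len c x, 0)) := by
    conv_lhs => rw [hi, Nat.add_comm c i]
    rw [Function.iterate_add_apply, Nat.add_comm i c, ← hi]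
  rw [this]
  unfold len
  rw [decStep_iter, decStep_iter_odd, Nat.zero_add]

theorem len_injective {c x x' : ℕ} (h : len c x = len c x') : x = x' := by
  unfold len at h
  have := Nat.eq_of_mul_eq_mul_left (by positivity) h
  omega

theorem computable_len (c : ℕ) : Computable (len c) := by
  have h : Primrec fun x : ℕ => 2 ^ c * (2 * x + 1) :=
    Primrec.nat_mul.comp (Primrec.const _)
      (Primrec.nat_add.comp (Primrec.nat_mul.comp (Primrec.const 2) Primrec.id) (Primrec.const 1))
  exact h.to_comp

theorem primrec_pow : Primrec₂ fun a b : ℕ => a ^ b := by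
  have h : Primrec fun p : ℕ × ℕ => Nat.rec (motive := fun _ => ℕ) 1 (fun _ ih => ih * p.1) p.2 :=
    Primrec.nat_rec' Primrec.snd (Primrec.const 1)
      (Primrec.nat_mul.comp (Primrec.snd.comp Primrec.snd) (Primrec.fst.comp Primrec.fst)).to₂
  refine h.of_eq fun p => ?_
  obtain ⟨a, b⟩ := p
  simp only
  induction b with
  | zero => rfl
  | succ b ih => rw [pow_succ, ← ih]

theorem primrec_len : Primrec₂ len := by
  exact Primrec.nat_mul.comp (primrec_pow.comp (Primrec.const 2) Primrec.fst)
    (Primrec.nat_add.comp (Primrec.nat_mul.comp (Primrec.const 2) Primrec.snd) (Primrec.const 1))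

theorem primrec_decStep : Primrec decStep := by
  have h0 : Primrec fun p : ℕ × ℕ => (p.1 % 2 == 0) := by
    exact Primrec.beq.comp (Primrec.nat_mod.comp Primrec.fst (Primrec.const 2)) (Primrec.const 0)
  exact Primrec.cond h0
    ((Primrec.nat_div.comp Primrec.fst (Primrec.const 2)).pair (Primrec.succ.comp Primrec.snd))
    Primrec.id

theorem primrec_dec : Primrec dec :=
  Primrec.nat_iterate Primrec.id (Primrec.id.pair (Primrec.const 0))
    (primrec_decStep.comp Primrec.snd).to₂

/-- `n = len c x` for some `x` iff `n ≡ 2 ^ c` modulo `2 ^ (c + 1)`. -/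
theorem mod_eq_iff (c n : ℕ) : n % 2 ^ (c + 1) = 2 ^ c ↔ ∃ x, n = len c x := by
  constructor
  · intro h
    refine ⟨n / 2 ^ (c + 1), ?_⟩
    have h1 := Nat.div_add_mod n (2 ^ (c + 1))
    rw [h] at h1
    unfold len
    rw [pow_succ] at h1 ⊢
    nlinarith
  · rintro ⟨x, rfl⟩
    unfold len
    have : 2 ^ c * (2 * x + 1) = 2 ^ c + 2 ^ (c + 1) * x := by ring
    rw [this, Nat.add_mul_mod_self_left, Nat.mod_eq_of_lt]
    exact Nat.pow_lt_pow_right (by norm_num) (Nat.lt_succ_self c)

/-! ### The halting set -/

/-- The universal predicate: the length `n` codes `(c, x)` and the code `c` outputs `1` on `x`. -/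
def Kp (n : ℕ) : Prop := 1 ∈ eval (Denumerable.ofNat Code (dec n).2) ((dec n).1 / 2)

theorem Kp_len (c : Code) (x : ℕ) : Kp (len (Encodable.encode c) x) ↔ 1 ∈ eval c x := by
  unfold Kp
  rw [dec_len, Denumerable.ofNat_encode]
  have : (2 * x + 1) / 2 = x := by omega
  simp only [this]

theorem rePred_Kp : REPred Kp := by
  have hf : Partrec fun n : ℕ => eval (Denumerable.ofNat Code (dec n).2) ((dec n).1 / 2) :=
    eval_part.comp ((Computable.ofNat Code).comp (Computable.snd.comp primrec_dec.to_comp))
      ((Primrec.nat_div.comp (Primrec.fst.comp primrec_dec) (Primrec.const 2)).to_comp)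
  have hb : Computable fun p : ℕ × ℕ => (p.2 == 1) :=
    (Primrec.beq.comp Primrec.snd (Primrec.const 1)).to_comp
  have hg : Partrec₂ fun (_ : ℕ) (v : ℕ) => bif (v == 1) then Part.some () else Part.none := by
    refine Partrec.cond hb (Partrec.some.comp (Computable.const ())) Partrec.none
  refine (Partrec.bind hf hg).dom_re.of_eq fun n => ?_
  unfold Kp
  constructor
  · intro h
    obtain ⟨u, hu⟩ := Part.dom_iff_mem.1 h
    obtain ⟨v, hv, hv'⟩ := Part.mem_bind_iff.1 hu
    cases hv1 : (v == 1) with
    | true =>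
      rw [beq_iff_eq] at hv1
      rwa [← hv1]
    | false =>
      rw [hv1] at hv'
      exact absurd hv' (Part.notMem_none _)
  · intro h
    rw [Part.dom_iff_mem]
    exact ⟨(), Part.mem_bind_iff.2 ⟨1, h, by simp⟩⟩

/-! ### Running times -/

section RunTime

variable (ins : ℕ → Instr) (k N q0 : ℕ) [NeZero N]

open Classical in
/-- The running time of the machine on the length `n`. -/
noncomputable def runT (n : ℕ) : Part ℕ :=
  Nat.rfind fun s => Part.some
    (decide (AcceptsIn (cmach Unit ins k 1 N 0 q0) (List.replicate n ()) s))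

theorem partrec_runT : Partrec (runT ins k N q0) := by
  classical
  have h := primrecPred_acceptsIn (cmach Unit ins k 1 N 0 q0) ()
  have h2 : Primrec₂ fun (n s : ℕ) =>
      decide (AcceptsIn (cmach Unit ins k 1 N 0 q0) (List.replicate n ()) s) := by
    exact h.decide
  exact Partrec.rfind (p := fun n => fun s => Part.some
    (decide (AcceptsIn (cmach Unit ins k 1 N 0 q0) (List.replicate n ()) s))) h2.to_comp.partrec₂

theorem HaltsAt.unique {ins : ℕ → Instr} {q0 n j j' : ℕ} (h : HaltsAt ins q0 n j)
    (h' : HaltsAt ins q0 n j') : j = j' := by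
  rcases lt_trichotomy j j' with h1 | h1 | h1
  · exact absurd h.1 (h'.2 j h1)
  · exact h1
  · exact absurd h'.1 (h.2 j' h1)

theorem exists_haltsAt {ins : ℕ → Instr} {q0 n : ℕ}
    (h : ∃ i, ins ((mstep ins)^[i] (q0, Pool.Agent.H83.init n)).1 = .halt) :
    ∃ j, HaltsAt ins q0 n j := by
  classical
  exact ⟨Nat.find h, Nat.find_spec h, fun j' hj' => Nat.find_min h hj'⟩

variable {ins k N q0}

theorem mem_runT (hN : ∀ q < N, (ins q).Below N)
    (hR : ∀ q < N, (ins q).RegBelow (k + 1)) (hq0 : q0 < N) {n j : ℕ}
    (h : HaltsAt ins q0 n j) : n + 3 + j ∈ runT ins k N q0 n := by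
  classical
  have key : ∀ s, AcceptsIn (cmach Unit ins k 1 N 0 q0) (List.replicate n ()) s ↔
      s = n + 3 + j := by
    intro s
    rw [acceptsIn_cmach _ hN hR hq0, List.length_replicate]
    constructor
    · rintro ⟨-, j', hj', rfl⟩
      rw [hj'.unique h]
    · rintro rfl
      exact ⟨Nat.mod_one n, j, h, rfl⟩
  refine Nat.mem_rfind.2 ⟨?_, ?_⟩
  · rw [Part.mem_some_iff]
    exact (decide_eq_true ((key _).2 rfl)).symm
  · intro m hm
    rw [Part.mem_some_iff]
    refine (decide_eq_false fun h' => ?_).symm
    have := (key m).1 h'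
    omega

end RunTime

/-! ### The recursion -/

section Recursion

variable (T : ℕ →. ℕ) (G : ℕ → ℕ)

/-- One step of the recursion for the auxiliary bound. -/
def bndStep (c : Code) (p : ℕ × ℕ) : Part ℕ :=
  (eval c p.1).bind fun v =>
    bif v == 1 then (T (len (Encodable.encode c) p.1)).map (max p.2) else Part.some p.2

/-- The auxiliary bound. -/
def bnd (c : Code) (x : ℕ) : Part ℕ :=
  Nat.rec (Part.some 0) (fun y ih => ih.bind fun b => bndStep T c (y, b)) x

/-- The time at which the simulated machine is stopped. -/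
def tau (c : Code) (x b : ℕ) : ℕ :=
  (G (len (Encodable.encode c) x) + b) ^ x.unpair.2 + x.unpair.2

/-- The diagonal function. -/
def psi (c : Code) (x : ℕ) : Part ℕ :=
  (bnd T c x).bind fun b =>
    (univ x.unpair.1 (Nat.pair (len (Encodable.encode c) x) (tau G c x b))).map
      fun v => bif v == 1 then 1 else 0

variable {T G}

theorem computable_lenc : Computable₂ fun (c : Code) (x : ℕ) => len (Encodable.encode c) x :=
  (primrec_len.comp (Primrec.encode.comp Primrec.fst) Primrec.snd).to_comp

theorem partrec_bndStep (hT : Partrec T) : Partrec₂ (bndStep T) := by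
  have h1 : Partrec fun a : Code × (ℕ × ℕ) => eval a.1 a.2.1 :=
    eval_part.comp Computable.fst (Computable.fst.comp Computable.snd)
  have h2 : Partrec fun a : (Code × (ℕ × ℕ)) × ℕ =>
      (T (len (Encodable.encode a.1.1) a.1.2.1)).map (max a.1.2.2) := by
    have ht : Partrec fun a : (Code × (ℕ × ℕ)) × ℕ => T (len (Encodable.encode a.1.1) a.1.2.1) :=
      hT.comp (computable_lenc.comp (Computable.fst.comp Computable.fst)
        (Computable.fst.comp (Computable.snd.comp Computable.fst)))
    exact Partrec.map ht (Primrec.nat_max.comp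
      (Primrec.snd.comp (Primrec.snd.comp (Primrec.fst.comp Primrec.fst)))
      Primrec.snd).to_comp.to₂
  have h3 : Partrec fun a : (Code × (ℕ × ℕ)) × ℕ =>
      bif a.2 == 1 then (T (len (Encodable.encode a.1.1) a.1.2.1)).map (max a.1.2.2)
        else Part.some a.1.2.2 := by
    refine Partrec.cond (Primrec.beq.comp Primrec.snd (Primrec.const 1)).to_comp h2 ?_
    exact Computable.partrec (Computable.snd.comp (Computable.snd.comp Computable.fst))
  exact Partrec.bind h1 h3

theorem partrec_bnd (hT : Partrec T) : Partrec₂ (bnd T) := by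
  have h : Partrec₂ fun (a : Code × ℕ) (p : ℕ × ℕ) => bndStep T a.1 p :=
    (partrec_bndStep hT).comp (Computable.fst.comp Computable.fst) Computable.snd
  exact Partrec.nat_rec (f := fun a : Code × ℕ => a.2) (g := fun _ => Part.some 0)
    Computable.snd (Computable.const 0).partrec h

theorem computable_tau (hG : Computable G) :
    Computable fun p : (Code × ℕ) × ℕ => tau G p.1.1 p.1.2 p.2 := by
  have h1 : Computable fun p : (Code × ℕ) × ℕ => G (len (Encodable.encode p.1.1) p.1.2) :=
    hG.comp (computable_lenc.comp (Computable.fst.comp Computable.fst)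
      (Computable.snd.comp Computable.fst))
  have h2 : Computable fun p : (Code × ℕ) × ℕ => p.1.2.unpair.2 :=
    (Primrec.snd.comp (Primrec.unpair.comp (Primrec.snd.comp Primrec.fst))).to_comp
  have h3 : Computable fun p : (Code × ℕ) × ℕ =>
      G (len (Encodable.encode p.1.1) p.1.2) + p.2 :=
    Primrec.nat_add.to_comp.comp h1 Computable.snd
  exact Primrec.nat_add.to_comp.comp (primrec_pow.to_comp.comp h3 h2) h2

theorem partrec_psi (hT : Partrec T) (hG : Computable G) : Partrec₂ (psi T G) := by
  have h1 : Partrec fun a : Code × ℕ => bnd T a.1 a.2 := partrec_bnd hT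
  have hz : Computable fun p : (Code × ℕ) × ℕ =>
      Nat.pair (len (Encodable.encode p.1.1) p.1.2) (tau G p.1.1 p.1.2 p.2) :=
    Primrec₂.natPair.to_comp.comp (computable_lenc.comp (Computable.fst.comp Computable.fst)
      (Computable.snd.comp Computable.fst)) (computable_tau hG)
  have hj : Computable fun p : (Code × ℕ) × ℕ => p.1.2.unpair.1 :=
    (Primrec.fst.comp (Primrec.unpair.comp (Primrec.snd.comp Primrec.fst))).to_comp
  have h2 : Partrec fun p : (Code × ℕ) × ℕ => univ p.1.2.unpair.1
      (Nat.pair (len (Encodable.encode p.1.1) p.1.2) (tau G p.1.1 p.1.2 p.2)) :=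
    partrec_univ.comp hj hz
  have h3 : Computable₂ fun (_ : (Code × ℕ) × ℕ) (v : ℕ) => bif v == 1 then 1 else 0 :=
    (Primrec.cond (Primrec.beq.comp Primrec.snd (Primrec.const 1)) (Primrec.const 1)
      (Primrec.const 0)).to_comp
  exact Partrec.bind h1 (Partrec.map h2 h3)

theorem bnd_zero (c : Code) : bnd T c 0 = Part.some 0 := rfl

theorem bnd_succ (c : Code) (x : ℕ) :
    bnd T c (x + 1) = (bnd T c x).bind fun b => bndStep T c (x, b) := rfl

/-- The diagonal data. -/
theorem exists_diag (hT : Partrec T) (hG : Computable G) (hTK : ∀ n, Kp n → (T n).Dom) :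
    ∃ (c : Code) (b : ℕ → ℕ), Computable b ∧
      (∀ x, 1 ∈ eval c x → ∀ s ∈ T (len (Encodable.encode c) x), b (x + 1) = max (b x) s) ∧
      (∀ x, 1 ∉ eval c x → b (x + 1) = b x) ∧
      (∀ x, 1 ∈ eval c x ↔ 1 ∈ univ x.unpair.1
        (Nat.pair (len (Encodable.encode c) x) (tau G c x (b x)))) := by
  obtain ⟨c, hc⟩ := fixed_point₂ (partrec_psi hT hG)
  have hpsi : ∀ x, eval c x = (bnd T c x).bind fun b =>
      (univ x.unpair.1 (Nat.pair (len (Encodable.encode c) x) (tau G c x b))).map
        fun v => bif v == 1 then 1 else 0 := fun x => congrFun hc x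
  have hdomv : ∀ x, (bnd T c x).Dom → (eval c x).Dom := by
    intro x hx
    obtain ⟨b, hb⟩ := Part.dom_iff_mem.1 hx
    rw [hpsi, Part.eq_some_iff.2 hb, Part.bind_some]
    exact univ_dom _ _
  have hdom : ∀ x, (bnd T c x).Dom := by
    intro x
    induction x with
    | zero => trivial
    | succ x ih =>
      obtain ⟨v, hv⟩ := Part.dom_iff_mem.1 (hdomv x ih)
      obtain ⟨b, hb⟩ := Part.dom_iff_mem.1 ih
      rw [bnd_succ, Part.eq_some_iff.2 hb, Part.bind_some]
      unfold bndStep
      simp only
      rw [Part.eq_some_iff.2 hv, Part.bind_some]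
      cases hv1 : (v == 1) with
      | true =>
        rw [beq_iff_eq] at hv1
        subst hv1
        exact hTK _ ((Kp_len c x).2 hv)
      | false => trivial
  obtain ⟨b, hsome⟩ : ∃ b : ℕ → ℕ, ∀ x, bnd T c x = Part.some (b x) :=
    ⟨fun x => (bnd T c x).get (hdom x), fun x => Part.eq_some_iff.2 (Part.get_mem _)⟩
  refine ⟨c, b, ?_, ?_, ?_, ?_⟩
  · have h : Partrec fun x : ℕ => bnd T c x := (partrec_bnd hT).comp (Computable.const c)
      Computable.id
    exact h.of_eq fun x => hsome x
  · intro x h1 s hs
    have h2 : bnd T c (x + 1) = Part.some (max (b x) s) := by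
      rw [bnd_succ, hsome x, Part.bind_some]
      unfold bndStep
      simp only
      rw [Part.eq_some_iff.2 h1, Part.bind_some]
      simp only [beq_self_eq_true, cond_true]
      rw [Part.eq_some_iff.2 hs, Part.map_some]
    exact Part.some_injective ((hsome (x + 1)).symm.trans h2)
  · intro x h1
    have h2 : bnd T c (x + 1) = Part.some (b x) := by
      rw [bnd_succ, hsome x, Part.bind_some]
      unfold bndStep
      simp only
      obtain ⟨v, hv⟩ := Part.dom_iff_mem.1 (hdomv x (hdom x))
      rw [Part.eq_some_iff.2 hv, Part.bind_some]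
      have hv1 : (v == 1) = false := by
        rw [beq_eq_false_iff_ne]
        rintro rfl
        exact h1 hv
      rw [hv1]
      rfl
    exact Part.some_injective ((hsome (x + 1)).symm.trans h2)
  · intro x
    rw [hpsi, hsome x, Part.bind_some, Part.mem_map_iff]
    constructor
    · rintro ⟨v, hv, hv1⟩
      cases h : (v == 1) with
      | true =>
        rw [beq_iff_eq] at h
        rwa [← h]
      | false =>
        rw [h] at hv1
        exact absurd hv1 (by decide)
    · intro h
      exact ⟨1, h, rfl⟩

end Recursion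

end Pool.Agent.H71.NT
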