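import Pool.Agent.H71.NT.Ver2
import Pool.Agent.H71.NT.Near

/-!
Failure of closure under complementation just above an honest time bound.
-/

namespace Pool.Agent.H71.NT

open Pool.Agent.H79.Cx Pool.Agent.Lead.NTM Pool.Agent.H83

/-- `G` is honest: up to a polynomial it is the running time of a machine on the words `1ⁿ`. That
is, some machine accepts every word `1ⁿ`, all its accepting computations on `1ⁿ` have the same
length `τ n`, and `G n ≤ τ n ≤ p (G n)` for some polynomial `p`. -/
def Honest (G : ℕ → ℕ) : Prop :=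
  ∃ (M : Machine Unit) (τ : ℕ → ℕ) (p : Polynomial ℕ),
    (∀ n s, AcceptsIn M (List.replicate n ()) s ↔ s = τ n) ∧
    ∀ n, G n ≤ τ n ∧ τ n ≤ p.eval (G n)

theorem honest_id : Honest fun n => n := by
  have hH : ∀ n j, HaltsAt (fun _ => Instr.halt) 0 n j ↔ j = 0 := by
    intro n j
    constructor
    · intro h
      by_contra h0
      exact h.2 0 (by omega) rfl
    · rintro rfl
      exact ⟨rfl, fun j' hj' => absurd hj' (by omega)⟩
  refine ⟨cmach Unit (fun _ => Instr.halt) 0 1 1 0 0, fun n => n + 3, Polynomial.X + 3, ?_, ?_⟩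
  · intro n s
    rw [acceptsIn_cmach (ins := fun _ => Instr.halt) (k := 0) (m := 1) (N := 1) (r := 0)
      (q0 := 0) _ (fun q _ => trivial) (fun q _ => trivial) (by omega)]
    simp only [List.length_replicate, hH]
    constructor
    · rintro ⟨-, j, rfl, h⟩
      omega
    · rintro rfl
      exact ⟨Nat.mod_one _, 0, rfl, rfl⟩
  · intro n
    simp

section Bound

variable {τ : ℕ → ℕ}

/-- search for the index of a special length -/
def srch (τ : ℕ → ℕ) (m B : ℕ) : ℕ :=
  Nat.rec 0 (fun y ih => bif decide (sN τ (y + 1) = m) then y + 1 else ih) B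

theorem srch_succ (m B : ℕ) :
    srch τ m (B + 1) = bif decide (sN τ (B + 1) = m) then B + 1 else srch τ m B := rfl

theorem srch_sN (hs : StrictMono (sN τ)) (r B : ℕ) (h : r ≤ B) : srch τ (sN τ r) B = r := by
  induction B with
  | zero =>
    have : r = 0 := by omega
    subst this
    rfl
  | succ B ih =>
    rw [srch_succ]
    by_cases hB : r = B + 1
    · subst hB
      simp
    · have h1 : sN τ (B + 1) ≠ sN τ r := fun h => hB (hs.injective h).symm
      rw [decide_eq_false h1, cond_false]
      exact ih (by omega)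

/-- the index of a special length -/
def rr (τ : ℕ → ℕ) (m : ℕ) : ℕ := srch τ m m

theorem rr_sN (hs : StrictMono (sN τ)) (r : ℕ) : rr τ (sN τ r) = r :=
  srch_sN hs r _ (hs.id_le r)

theorem computable_sN (hτ : Computable τ) : Computable (sN τ) := by
  have h : Computable₂ fun (_ : ℕ) (p : ℕ × ℕ) => (τ p.2 + 2) ^ (p.1 + 1) := by
    have h1 : Computable fun a : ℕ × (ℕ × ℕ) => τ a.2.2 + 2 :=
      Primrec.nat_add.to_comp.comp (hτ.comp (Computable.snd.comp Computable.snd))
        (Computable.const 2)
    exact primrec_pow.to_comp.comp h1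
      (Computable.succ.comp (Computable.fst.comp Computable.snd))
  exact Computable.nat_rec (f := fun n : ℕ => n) (g := fun _ => 2) Computable.id
    (Computable.const _) h

theorem computable_rr (hτ : Computable τ) : Computable (rr τ) := by
  have hs := computable_sN hτ
  have h : Computable₂ fun (m : ℕ) (p : ℕ × ℕ) =>
      bif decide (sN τ (p.1 + 1) = m) then p.1 + 1 else p.2 := by
    have h1 : Computable fun a : ℕ × (ℕ × ℕ) => sN τ (a.2.1 + 1) :=
      hs.comp (Computable.succ.comp (Computable.fst.comp Computable.snd))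
    have h2 : Computable fun a : ℕ × (ℕ × ℕ) => decide (sN τ (a.2.1 + 1) = a.1) :=
      (Primrec.eq.decide.to_comp).comp h1 Computable.fst
    exact Computable.cond h2 (Computable.succ.comp (Computable.fst.comp Computable.snd))
      (Computable.snd.comp Computable.snd)
  exact Computable.nat_rec (f := fun n : ℕ => n) (g := fun _ => 0) Computable.id
    (Computable.const _) h

variable (C : Desc) (τ) (G : ℕ → ℕ)

open Classical in
/-- the contribution of `m` -/
noncomputable def wt2 (m : ℕ) : ℕ := bif decide (VG C τ m) then τ m ^ kk (rr τ m) else 0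

/-- the largest contribution up to `n` -/
noncomputable def WT2 (n : ℕ) : ℕ := Nat.rec (wt2 τ C 0) (fun y ih => max ih (wt2 τ C (y + 1))) n

/-- the time bound -/
noncomputable def tt2 (n : ℕ) : ℕ := max (G n) (WT2 τ C n)

variable {τ C G}

theorem WT2_succ (n : ℕ) : WT2 τ C (n + 1) = max (WT2 τ C n) (wt2 τ C (n + 1)) := rfl

theorem monotone_WT2 : Monotone (WT2 τ C) :=
  monotone_nat_of_le_succ fun n => by rw [WT2_succ]; exact le_max_left _ _

theorem monotone_tt2 (hG : Monotone G) : Monotone (tt2 τ C G) :=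
  fun _ _ h => max_le_max (hG h) (monotone_WT2 h)

theorem wt2_le_WT2 (n : ℕ) : wt2 τ C n ≤ WT2 τ C n := by
  cases n with
  | zero => exact le_rfl
  | succ n => rw [WT2_succ]; exact le_max_right _ _

theorem WT2_le {n B : ℕ} (h : ∀ m ≤ n, wt2 τ C m ≤ B) : WT2 τ C n ≤ B := by
  induction n with
  | zero => exact h 0 le_rfl
  | succ n ih =>
    rw [WT2_succ]
    exact max_le (ih fun m hm => h m (by omega)) (h _ le_rfl)

theorem wt2_of_not {m : ℕ} (h : ¬ VG C τ m) : wt2 τ C m = 0 := by
  classical
  unfold wt2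
  rw [decide_eq_false h, cond_false]

theorem wt2_of (hs : StrictMono (sN τ)) {r : ℕ} (h : VG C τ (sN τ r)) :
    wt2 τ C (sN τ r) = τ (sN τ r) ^ kk r := by
  classical
  unfold wt2
  rw [decide_eq_true h, cond_true, rr_sN hs]

/-- Contributions from smaller special lengths are small. -/
theorem wt2_lt (hs : StrictMono (sN τ)) {m r : ℕ} (h : m < sN τ r) : wt2 τ C m < sN τ r := by
  by_cases hv : VG C τ m
  · obtain ⟨i, hi, -⟩ := id hv
    subst hi
    rw [wt2_of hs hv]
    have hir : i < r := hs.lt_iff_lt.1 h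
    have h1 : τ (sN τ i) ^ kk i ≤ (τ (sN τ i) + 2) ^ i := by
      calc τ (sN τ i) ^ kk i ≤ (τ (sN τ i) + 2) ^ kk i :=
            Nat.pow_le_pow_left (by omega) _
        _ ≤ (τ (sN τ i) + 2) ^ i := Nat.pow_le_pow_right (by omega) (kk_le i)
    have h2 : (τ (sN τ i) + 2) ^ i < sN τ (i + 1) := by
      rw [sN_succ]
      exact Nat.pow_lt_pow_right (by omega) (by omega)
    exact (h1.trans_lt h2).trans_le (hs.monotone hir)
  · rw [wt2_of_not hv]
    exact (by norm_num : 0 < 2).trans_le (two_le_sN r)

theorem tt2_pred (hid : ∀ n, n ≤ G n) (hs : StrictMono (sN τ)) (r : ℕ) :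
    tt2 τ C G (sN τ r - 1) = G (sN τ r - 1) := by
  unfold tt2
  refine max_eq_left (WT2_le fun m hm => ?_)
  have h1 := two_le_sN (τ := τ) r
  have h2 := wt2_lt (C := C) hs (show m < sN τ r by omega)
  have h3 := hid (sN τ r - 1)
  omega

theorem tt2_of_not (hid : ∀ n, n ≤ G n) (hs : StrictMono (sN τ)) {r : ℕ}
    (h : ¬ VG C τ (sN τ r)) : tt2 τ C G (sN τ r) = G (sN τ r) := by
  unfold tt2
  refine max_eq_left (WT2_le fun m hm => ?_)
  rcases hm.lt_or_eq with h1 | h1
  · have h2 := wt2_lt (C := C) hs h1
    have h3 := hid (sN τ r)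
    omega
  · subst h1
    rw [wt2_of_not h]
    exact Nat.zero_le _

theorem computable_tt2 (hτ : Computable τ) (hGc : Computable G)
    (hV : Computable fun n => @decide (VG C τ n) (Classical.propDecidable _)) :
    Computable (tt2 τ C G) := by
  have hw : Computable (wt2 τ C) := by
    unfold wt2
    exact Computable.cond hV (primrec_pow.to_comp.comp hτ
      (primrec_kk.to_comp.comp (computable_rr hτ))) (Computable.const 0)
  have h : Computable₂ fun (_ : ℕ) (p : ℕ × ℕ) => max p.2 (wt2 τ C (p.1 + 1)) :=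
    Primrec.nat_max.to_comp.comp (Computable.snd.comp Computable.snd)
      (hw.comp (Computable.succ.comp (Computable.fst.comp Computable.snd)))
  have hW : Computable (WT2 τ C) := by
    unfold WT2
    exact Computable.nat_rec (f := fun n : ℕ => n) (g := fun _ => wt2 τ C 0) Computable.id
      (Computable.const _) h
  exact Primrec.nat_max.to_comp.comp hGc hW

end Bound

/-- The running time of a machine is computable. -/
theorem computable_time {M : Machine Unit} {τ : ℕ → ℕ}
    (h : ∀ n s, AcceptsIn M (List.replicate n ()) s ↔ s = τ n) : Computable τ := by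
  classical
  have h1 : Primrec₂ fun (n s : ℕ) => decide (AcceptsIn M (List.replicate n ()) s) :=
    (primrecPred_acceptsIn M ()).decide
  have h2 : Partrec fun n : ℕ => Nat.rfind (fun s => Part.some
      (decide (AcceptsIn M (List.replicate n ()) s))) :=
    Partrec.rfind (p := fun n => fun s => Part.some
      (decide (AcceptsIn M (List.replicate n ()) s))) h1.to_comp.partrec₂
  refine h2.of_eq fun n => ?_
  refine Part.eq_some_iff.2 (Nat.mem_rfind.2 ⟨?_, fun {m} hm => ?_⟩)
  · rw [Part.mem_some_iff]
    exact (decide_eq_true ((h n _).2 rfl)).symm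
  · rw [Part.mem_some_iff]
    refine (decide_eq_false fun h' => ?_).symm
    have := (h n m).1 h'
    omega

/-- **Failure just above an honest time bound.** -/
theorem near2 {G h : ℕ → ℕ} (hGc : Computable G) (hGm : Monotone G) (hid : ∀ n, n ≤ G n)
    (hGh : Honest G) (hc : Computable h) (hm : Monotone h) (hu : ∀ k, ∃ n, k ≤ h n)
    (h1 : ∀ n, 1 ≤ h n) :
    ∃ t : ℕ → ℕ, Computable t ∧ Monotone t ∧ (∀ n, G n ≤ t n) ∧ (∀ n, t n ≤ G n ^ h n) ∧
      (∃ᶠ n in Filter.atTop, t n = G n) ∧
      ∀ (A : Type) [Finite A] [Nonempty A], ∃ L ∈ NTIMEPol A t, Lᶜ ∉ NTIMEPol A t := by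
  classical
  obtain ⟨MG, τ, pG, hMG, hτG⟩ := hGh
  have hτc : Computable τ := computable_time hMG
  have hτid : ∀ n, n ≤ τ n := fun n => (hid n).trans (hτG n).1
  have hD : IsTime (descM MG ()) τ :=
    ⟨fun n s => (acceptsIn_iff_desc MG () n s).symm.trans (hMG n s), hτid⟩
  have hs : StrictMono (sN τ) := sN_strictMono hD
  obtain ⟨e, he⟩ := exists_pow_bound' pG
  have hre : REPred fun z : ℕ => e * z.unpair.1 ≤ h z.unpair.2 := by
    refine ComputablePred.to_re ?_
    have hf : Computable fun z : ℕ => decide (e * z.unpair.1 ≤ h z.unpair.2) :=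
      (Primrec.nat_le.decide.to_comp).comp
        (Primrec.nat_mul.to_comp.comp (Computable.const e)
          (Computable.fst.comp Primrec.unpair.to_comp))
        (hc.comp (Computable.snd.comp Primrec.unpair.to_comp))
    exact ⟨inferInstance, hf⟩
  obtain ⟨C, hC⟩ := exists_desc_of_re hre
  have hgood : ∀ {k n : ℕ}, Good C k n → e * k ≤ h n := by
    rintro k n ⟨N, hN, x, -, hv, ha⟩
    have h2 := (hC (Nat.pair k N)).2 ⟨x, hv, ha⟩
    rw [Nat.unpair_pair] at h2
    exact h2.trans (hm hN)
  obtain ⟨T, hT⟩ := exists_guess_machine (pt_verGB C (descM MG ()))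
  obtain ⟨Q, hQ⟩ := exists_certG hD C
  -- decidability
  have hV : Computable fun n => @decide (VG C τ n) (Classical.propDecidable _) := by
    obtain ⟨M, hM, hM'⟩ := hT Unit
    have hB : Computable fun n : ℕ => T.eval (n + Q.eval (τ n + τ n ^ n)) := by
      refine (primrec_polyEval T).to_comp.comp (Primrec.nat_add.to_comp.comp Computable.id ?_)
      exact (primrec_polyEval Q).to_comp.comp (Primrec.nat_add.to_comp.comp hτc
        (primrec_pow.to_comp.comp hτc Computable.id))
    have hW : Primrec fun p : ℕ × ℕ =>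
        decide (∃ s ≤ p.2, AcceptsIn M (List.replicate p.1 ()) s) :=
      (primrecPred_acceptsWithin M ()).decide
    refine (hW.to_comp.comp (Computable.id.pair hB)).of_eq fun n => ?_
    have hlen : (List.replicate n ()).length = n := List.length_replicate
    refine decide_eq_decide.2 ⟨?_, ?_⟩
    · rintro ⟨s, -, hs⟩
      have h2 := (hM (List.replicate n ())).1 ⟨s, hs⟩
      rw [hlen, exists_verGB_iff hD] at h2
      exact h2
    · rintro ⟨r, hr, hg, hh⟩
      obtain ⟨y, hy, hyl⟩ := hQ n r hr hg hh
      obtain ⟨s, hs', ha⟩ := hM' (List.replicate n ()) y (by rw [hlen]; exact hy)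
      refine ⟨s, hs'.trans ?_, ha⟩
      rw [hlen]
      refine eval_mono T (Nat.add_le_add_left (hyl.trans (eval_mono Q ?_)) _)
      have h2 : 0 < τ n := by
        have h3 := two_le_sN (τ := τ) r
        have h4 := hτid n
        omega
      refine Nat.add_le_add_left (Nat.pow_le_pow_right h2 ?_) _
      refine (kk_le r).trans ?_
      rw [← hr]
      exact hs.id_le r
  refine ⟨tt2 τ C G, computable_tt2 hτc hGc hV, monotone_tt2 hGm, fun n => le_max_left _ _,
    ?_, ?_, ?_⟩
  · -- upper bound
    intro n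
    refine max_le ?_ (WT2_le fun m hmn => ?_)
    · rcases Nat.eq_zero_or_pos (G n) with h0 | h0
      · omega
      · calc G n = G n ^ 1 := (pow_one _).symm
          _ ≤ G n ^ h n := Nat.pow_le_pow_right h0 (h1 n)
    · by_cases hv : VG C τ m
      · obtain ⟨r, hr, hg, -⟩ := id hv
        subst hr
        rw [wt2_of hs hv]
        have h2 := two_le_sN (τ := τ) r
        have h3 := hid (sN τ r)
        calc τ (sN τ r) ^ kk r ≤ (G (sN τ r) ^ e) ^ kk r :=
              Nat.pow_le_pow_left ((hτG _).2.trans (he _ (by omega))) _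
          _ = G (sN τ r) ^ (e * kk r) := (pow_mul _ _ _).symm
          _ ≤ G (sN τ r) ^ h (sN τ r) := Nat.pow_le_pow_right (by omega) (hgood hg)
          _ ≤ G (sN τ r) ^ h n := Nat.pow_le_pow_right (by omega) (hm hmn)
          _ ≤ G n ^ h n := Nat.pow_le_pow_left (hGm hmn) _
      · rw [wt2_of_not hv]
        exact Nat.zero_le _
  · -- equality infinitely often
    rw [Filter.frequently_atTop]
    intro B
    refine ⟨sN τ (B + 1) - 1, ?_, tt2_pred hid hs _⟩
    have := hs.id_le (B + 1)
    simp only [id] at this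
    show B ≤ _
    omega
  intro A _ _
  refine ⟨{w | VG C τ w.length}, ?_, ?_⟩
  · -- membership
    obtain ⟨M, hM, hM'⟩ := hT A
    refine ⟨M, T.comp (Polynomial.X + Q.comp (pG.comp Polynomial.X + Polynomial.X)), ?_, ?_⟩
    · intro w
      rw [hM, exists_verGB_iff hD]
      rfl
    · intro w hw
      obtain ⟨r, hr, hg, hh⟩ := id hw
      obtain ⟨y, hy, hyl⟩ := hQ _ r hr hg hh
      obtain ⟨s, hs', ha⟩ := hM' w y hy
      refine ⟨s, hs'.trans ?_, ha⟩
      simp only [Polynomial.eval_comp, Polynomial.eval_add, Polynomial.eval_X]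
      have hG : G w.length ≤ tt2 τ C G w.length := le_max_left _ _
      have h2 : w.length ≤ tt2 τ C G w.length := (hid _).trans hG
      have h3 : τ w.length ^ kk r ≤ tt2 τ C G w.length := by
        refine le_trans ?_ ((wt2_le_WT2 w.length).trans (le_max_right _ _))
        have hw' : VG C τ (sN τ r) := by rw [hr]; exact hw
        rw [← hr, wt2_of hs hw']
      have h4 : τ w.length ≤ pG.eval (tt2 τ C G w.length) := (hτG _).2.trans (eval_mono pG hG)
      exact eval_mono T (Nat.add_le_add h2 (hyl.trans (eval_mono Q (Nat.add_le_add h4 h3))))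
  · -- the complement
    rintro ⟨M, p, hM, hp⟩
    obtain ⟨a⟩ := ‹Nonempty A›
    obtain ⟨k, hk⟩ := exists_pow_bound' p
    obtain ⟨N, hN⟩ := hu (e * k)
    obtain ⟨x, hxv, hxa⟩ := (hC (Nat.pair k N)).1 (by rw [Nat.unpair_pair]; exact hN)
    obtain ⟨r, hrB, hrk, hrd⟩ := exists_index_desc k (descM M a) (max N x.length)
    set n := sN τ r with hn
    have hrn : r ≤ n := hs.id_le r
    have hg : Good C (kk r) n := by
      rw [hrk]
      exact ⟨N, by omega, x, by omega, hxv, hxa⟩
    have hVn : VG C τ n ↔ ∃ s ≤ τ n ^ k, AcceptsIn M (List.replicate n a) s := by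
      constructor
      · rintro ⟨i, hi, -, y, hy, hyv, hya⟩
        have hij : i = r := hs.injective hi
        subst hij
        rw [hrk] at hy
        rw [hrd] at hyv hya
        exact ⟨y.length, hy, (acceptsIn_iff_desc M a n _).2 ⟨y, rfl, hyv, hya⟩⟩
      · rintro ⟨s, hs', hacc⟩
        obtain ⟨y, hyl, hyv, hya⟩ := (acceptsIn_iff_desc M a n _).1 hacc
        refine ⟨r, rfl, hg, y, ?_, ?_, ?_⟩
        · rw [hrk, hyl]; exact hs'
        · rw [hrd]; exact hyv
        · rw [hrd]; exact hya
    have hlen : (List.replicate n a).length = n := List.length_replicate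
    by_cases hv : VG C τ n
    · obtain ⟨s, -, hacc⟩ := hVn.1 hv
      have h2 : List.replicate n a ∈ ({w : List A | VG C τ w.length})ᶜ := (hM _).2 ⟨s, hacc⟩
      refine h2 ?_
      show VG C τ (List.replicate n a).length
      rw [hlen]
      exact hv
    · have h2 : List.replicate n a ∈ ({w : List A | VG C τ w.length})ᶜ := by
        intro h3
        have h4 : VG C τ (List.replicate n a).length := h3
        rw [hlen] at h4
        exact hv h4
      obtain ⟨s, hs', hacc⟩ := hp _ h2
      refine hv (hVn.2 ⟨s, hs'.trans ?_, hacc⟩)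
      rw [hlen, hn, tt2_of_not hid hs hv]
      have h5 := two_le_sN (τ := τ) r
      have h6 := hid (sN τ r)
      exact (hk _ (by omega)).trans (Nat.pow_le_pow_left (hτG _).1 _)

end Pool.Agent.H71.NT
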