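import Mathlib

/-!
A total computable universal function for the primitive recursive functions: evaluation of the
codes without minimization.
-/

namespace Pool.Agent.H71.NT

open Nat.Partrec (Code)
open Nat.Partrec.Code

/-- Codes without minimization. -/
def isPR (c : Code) : Bool :=
  Code.recOn c true true true true (fun _ _ a b => a && b) (fun _ _ a b => a && b)
    (fun _ _ a b => a && b) (fun _ _ => false)

theorem primrec_isPR : Primrec isPR := by
  have hand : Primrec fun a : Code × Code × Code × Bool × Bool => (a.2.2.2.1 && a.2.2.2.2) :=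
    Primrec.and.comp (Primrec.fst.comp (Primrec.snd.comp (Primrec.snd.comp Primrec.snd)))
      (Primrec.snd.comp (Primrec.snd.comp (Primrec.snd.comp Primrec.snd)))
  exact Nat.Partrec.Code.primrec_recOn (c := fun c : Code => c) Primrec.id
    (z := fun _ => true) (Primrec.const true) (s := fun _ => true) (Primrec.const true)
    (l := fun _ => true) (Primrec.const true) (r := fun _ => true) (Primrec.const true)
    (pr := fun _ _ _ a b => a && b) hand (co := fun _ _ _ a b => a && b) hand
    (pc := fun _ _ _ a b => a && b) hand (rf := fun _ _ _ => false) (Primrec.const false)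

theorem dom_of_isPR {c : Code} (h : isPR c = true) : ∀ n, (eval c n).Dom := by
  induction c with
  | zero => intro n; trivial
  | succ => intro n; trivial
  | left => intro n; trivial
  | right => intro n; trivial
  | pair cf cg hf hg =>
    have h' : (isPR cf && isPR cg) = true := h
    rw [Bool.and_eq_true] at h'
    intro n
    simp only [eval]
    obtain ⟨a, ha⟩ := Part.dom_iff_mem.1 (hf h'.1 n)
    obtain ⟨b, hb⟩ := Part.dom_iff_mem.1 (hg h'.2 n)
    rw [Part.eq_some_iff.2 ha, Part.eq_some_iff.2 hb]
    simp [Seq.seq]
  | comp cf cg hf hg =>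
    have h' : (isPR cf && isPR cg) = true := h
    rw [Bool.and_eq_true] at h'
    intro n
    obtain ⟨b, hb⟩ := Part.dom_iff_mem.1 (hg h'.2 n)
    have he : eval (.comp cf cg) n = (eval cg n).bind (fun m => eval cf m) := rfl
    rw [he, Part.eq_some_iff.2 hb, Part.bind_some]
    exact hf h'.1 b
  | prec cf cg hf hg =>
    have h' : (isPR cf && isPR cg) = true := h
    rw [Bool.and_eq_true] at h'
    intro n
    rw [← Nat.pair_unpair n]
    generalize n.unpair.1 = a
    induction n.unpair.2 with
    | zero =>
      rw [eval_prec_zero]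
      exact hf h'.1 a
    | succ k ih =>
      rw [eval_prec_succ]
      obtain ⟨b, hb⟩ := Part.dom_iff_mem.1 ih
      rw [Part.eq_some_iff.2 hb]
      simpa using hg h'.2 _
  | rfind' cf hf => exact absurd h (by simp [isPR])

theorem exists_isPR_code {f : ℕ → ℕ} (hf : Nat.Primrec f) :
    ∃ c : Code, isPR c = true ∧ ∀ n, f n ∈ eval c n := by
  induction hf with
  | zero => exact ⟨.zero, rfl, fun n => by simp [eval, pure, PFun.pure]⟩
  | succ => exact ⟨.succ, rfl, fun n => by simp [eval]⟩
  | left => exact ⟨.left, rfl, fun n => by simp [eval]⟩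
  | right => exact ⟨.right, rfl, fun n => by simp [eval]⟩
  | pair hf hg ihf ihg =>
    obtain ⟨cf, h1, h2⟩ := ihf
    obtain ⟨cg, h3, h4⟩ := ihg
    refine ⟨.pair cf cg, ?_, fun n => ?_⟩
    · show (isPR cf && isPR cg) = true
      rw [h1, h3]; rfl
    · simp only [eval]
      rw [Part.eq_some_iff.2 (h2 n), Part.eq_some_iff.2 (h4 n)]
      simp [Seq.seq]
  | comp hf hg ihf ihg =>
    obtain ⟨cf, h1, h2⟩ := ihf
    obtain ⟨cg, h3, h4⟩ := ihg
    refine ⟨.comp cf cg, ?_, fun n => ?_⟩
    · show (isPR cf && isPR cg) = true
      rw [h1, h3]; rfl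
    · have he : eval (.comp cf cg) n = (eval cg n).bind (fun m => eval cf m) := rfl
      rw [he, Part.eq_some_iff.2 (h4 n), Part.bind_some]
      exact h2 _
  | @prec f g hf hg ihf ihg =>
    obtain ⟨cf, h1, h2⟩ := ihf
    obtain ⟨cg, h3, h4⟩ := ihg
    refine ⟨.prec cf cg, ?_, fun n => ?_⟩
    · show (isPR cf && isPR cg) = true
      rw [h1, h3]; rfl
    · rw [← Nat.pair_unpair n]
      simp only [Nat.unpaired, Nat.unpair_pair]
      generalize n.unpair.1 = a
      induction n.unpair.2 with
      | zero =>
        rw [eval_prec_zero]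
        exact h2 a
      | succ k ih =>
        rw [eval_prec_succ]
        rw [Part.eq_some_iff.2 ih]
        simpa using h4 _

/-- The universal function for primitive recursive functions. -/
def univ (j z : ℕ) : Part ℕ :=
  bif isPR (Denumerable.ofNat Code j) then eval (Denumerable.ofNat Code j) z else Part.some 0

theorem univ_dom (j z : ℕ) : (univ j z).Dom := by
  unfold univ
  cases h : isPR (Denumerable.ofNat Code j) with
  | true => exact dom_of_isPR h z
  | false => trivial

theorem partrec_univ : Partrec₂ univ := by
  have hc : Computable fun p : ℕ × ℕ => Denumerable.ofNat Code p.1 :=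
    (Computable.ofNat Code).comp Computable.fst
  exact Partrec.cond (primrec_isPR.to_comp.comp hc) (eval_part.comp hc Computable.snd)
    (Computable.const 0)

theorem exists_univ_index {f : ℕ → ℕ} (hf : Nat.Primrec f) : ∃ j, ∀ z, f z ∈ univ j z := by
  obtain ⟨c, h1, h2⟩ := exists_isPR_code hf
  refine ⟨Encodable.encode c, fun z => ?_⟩
  unfold univ
  rw [Denumerable.ofNat_encode, h1]
  exact h2 z

end Pool.Agent.H71.NT
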