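import Pool.Agent.H78.NP.More

/-!
Polynomial-time decoding of trees and nested lists.
-/

namespace Pool.Agent.H71.NT

open Pool.Agent.H79.Cx

variable {α β : Type} [Enc α] [Enc β]

/-! ### Trees as lists -/

/-- The list of the cars along the spine. -/
def toL : D → List D
  | .nil => []
  | .cons x y => x :: toL y

theorem enc_toL (d : D) : Enc.enc (toL d) = d := by
  induction d with
  | nil => rfl
  | cons x y _ ih =>
    show D.cons x (Enc.enc (toL y)) = D.cons x y
    rw [ih]

@[fun_prop]
theorem PT.toL {f : α → D} (hf : PT f) : PT (fun x => toL (f x)) :=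
  PT.comp (PT.of_enc_eq fun d => enc_toL d) hf

/-- Decoding a number. -/
def decN (d : D) : ℕ := (toL d).length

/-- Decoding a list. -/
def decL (f : D → β) (d : D) : List β := (toL d).map f

@[fun_prop]
theorem PT.decN {f : α → D} (hf : PT f) : PT (fun x => decN (f x)) := by
  unfold NT.decN
  fun_prop

theorem PT.decL {g : D → β} {f : α → D} (hg : PT g) (hf : PT f) : PT (fun x => decL g (f x)) := by
  unfold NT.decL
  exact PT.map (f := fun _ d => g d) (hg.comp PT.snd) (PT.toL hf)

theorem toL_enc (l : List β) : toL (Enc.enc l) = l.map Enc.enc := by
  induction l with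
  | nil => rfl
  | cons b l ih =>
    show Enc.enc b :: toL (Enc.enc l) = _
    rw [ih]
    rfl

theorem decN_enc (n : ℕ) : decN (Enc.enc n) = n := by
  unfold decN
  induction n with
  | zero => rfl
  | succ n ih =>
    show (D.nil :: toL (Enc.enc n)).length = n + 1
    rw [List.length_cons, ih]

theorem decL_enc {g : D → β} (hg : ∀ b, g (Enc.enc b) = b) (l : List β) :
    decL g (Enc.enc l) = l := by
  unfold decL
  rw [toL_enc, List.map_map]
  conv_rhs => rw [← List.map_id l]
  exact List.map_congr_left fun b _ => hg b

/-- Decoding a list of lists of numbers. -/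
def decLL : D → List (List ℕ) := decL (decL decN)

/-- Decoding a list of lists of lists of numbers. -/
def decLLL : D → List (List (List ℕ)) := decL decLL

@[fun_prop]
theorem PT.decLL {f : α → D} (hf : PT f) : PT (fun x => decLL (f x)) :=
  PT.decL (PT.decL (PT.decN PT.id) PT.id) hf

@[fun_prop]
theorem PT.decLLL {f : α → D} (hf : PT f) : PT (fun x => decLLL (f x)) :=
  PT.decL (PT.decLL PT.id) hf

theorem decLL_enc (l : List (List ℕ)) : decLL (Enc.enc l) = l :=
  decL_enc (decL_enc decN_enc) l

theorem decLLL_enc (l : List (List (List ℕ))) : decLLL (Enc.enc l) = l :=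
  decL_enc decLL_enc l

/-! ### Parsing -/

/-- One step of the parser (reading the code from the right). -/
def pstep (s : List D) (b : Bool) : List D :=
  if b = true then D.cons (s.headD .nil) (s.tail.headD .nil) :: s.tail.tail else .nil :: s

/-- The tree whose code is at the beginning of the list. -/
def parse (l : List Bool) : D := (l.reverse.foldl pstep []).headD .nil

theorem foldl_enc (d : D) (s : List D) : d.enc.reverse.foldl pstep s = d :: s := by
  induction d generalizing s with
  | nil => rfl
  | cons x y ihx ihy =>
    rw [D.enc_cons, List.reverse_cons, List.reverse_append, List.foldl_append, List.foldl_append,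
      ihy, ihx]
    rfl

theorem parse_enc (d : D) (r : List Bool) : parse (d.enc ++ r) = d := by
  unfold parse
  rw [List.reverse_append, List.foldl_append, foldl_enc]
  rfl

theorem parse_cd (x : α) : parse (cd x) = Enc.enc x := by
  have := parse_enc (Enc.enc x) []
  rwa [List.append_nil] at this

theorem sz_pstep (s : List D) (b : Bool) : sz (pstep s b) ≤ sz s + 4 := by
  unfold pstep
  cases b with
  | false =>
    have h : sz (D.nil :: s) = 1 + sz D.nil + sz s := sz_cons _ _
    rw [if_neg (by simp), h]
    have : sz D.nil = 1 := rfl
    omega
  | true =>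
    rw [if_pos rfl]
    rcases s with _ | ⟨x, _ | ⟨y, s⟩⟩
    · decide
    · have h1 : sz (D.cons x D.nil :: ([] : List D)) = 1 + (1 + x.size + 1) + 1 := rfl
      have h2 : sz [x] = 1 + x.size + 1 := rfl
      show sz (D.cons x D.nil :: ([] : List D)) ≤ sz [x] + 4
      omega
    · have h1 : sz (D.cons x y :: s) = 1 + (1 + x.size + y.size) + sz s := rfl
      have h2 : sz (x :: y :: s) = 1 + x.size + (1 + y.size + sz s) := rfl
      show sz (D.cons x y :: s) ≤ sz (x :: y :: s) + 4
      omega

theorem sz_foldl_pstep (l : List Bool) (s : List D) :
    sz (l.foldl pstep s) ≤ sz s + 4 * l.length := by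
  induction l generalizing s with
  | nil => simp
  | cons b l ih =>
    rw [List.foldl_cons, List.length_cons]
    have h1 := ih (pstep s b)
    have h2 := sz_pstep s b
    omega

@[fun_prop]
theorem PT.parse {f : α → List Bool} (hf : PT f) : PT (fun x => parse (f x)) := by
  unfold NT.parse
  obtain ⟨R, hR⟩ := hf.size_le
  have h : PT (fun x => (f x).reverse.foldl pstep []) := by
    refine PT.foldl (f := fun _ s b => pstep s b) ?_ (by fun_prop) (by fun_prop) (1 + 4 * R) ?_
    · unfold pstep
      fun_prop
    · intro a i _
      show sz (((f a).reverse.take i).foldl pstep []) ≤ _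
      have h1 := sz_foldl_pstep ((f a).reverse.take i) []
      have h2 : ((f a).reverse.take i).length ≤ (f a).length := by
        rw [List.length_take, List.length_reverse]
        exact min_le_right _ _
      have h3 := length_le_sz (f a)
      have h4 := hR a
      have h5 : sz ([] : List D) = 1 := rfl
      simp only [Polynomial.eval_add, Polynomial.eval_one, Polynomial.eval_mul,
        Polynomial.eval_ofNat]
      omega
  exact PT.headD h (by fun_prop)

/-! ### Bits -/

/-- One step of the computation of the bits. -/
def bstep (s : List Bool × ℕ) : List Bool × ℕ :=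
  if s.2 = 0 then s else (decide (s.2 % 2 = 1) :: s.1, s.2 / 2)

/-- The bits of a number, least significant bit first. -/
def bitsL (n : ℕ) : List Bool := ((bstep^[n] ([], n)).1).reverse

/-- The number with given bits. -/
def numL : List Bool → ℕ
  | [] => 0
  | b :: l => (if b = true then 1 else 0) + 2 * numL l

theorem bstep_iter (l : List Bool) (s : List Bool) (j : ℕ) (hj : l.length + 1 ≤ j) :
    bstep^[j] (s, numL (l ++ [true])) = (true :: l.reverse ++ s, 0) := by
  induction l generalizing s j with
  | nil =>
    obtain ⟨j, rfl⟩ := Nat.exists_eq_add_of_le' hj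
    have h1 : bstep^[j + 1] (s, numL ([] ++ [true])) = bstep^[j] (true :: s, 0) := by
      rw [Function.iterate_succ_apply]
      congr 1
      simp [bstep, numL]
    have h2 : ∀ j, bstep^[j] (true :: s, 0) = (true :: s, 0) := by
      intro j
      induction j with
      | zero => rfl
      | succ j ih => rw [Function.iterate_succ_apply', ih]; rfl
    have h3 : j + (List.length ([] : List Bool) + 1) = j + 1 := rfl
    rw [h3, h1, h2]
    rfl
  | cons b l ih =>
    obtain ⟨j, rfl⟩ : ∃ i, j = i + 1 := ⟨j - 1, by simp only [List.length_cons] at hj; omega⟩
    have hpos : 0 < numL (l ++ [true]) := by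
      clear ih hj
      induction l with
      | nil => decide
      | cons c l ih =>
        show 0 < (if c = true then 1 else 0) + 2 * numL (l ++ [true])
        omega
    have h1 : numL (b :: l ++ [true]) = (if b = true then 1 else 0) + 2 * numL (l ++ [true]) := rfl
    have h2 : bstep (s, numL (b :: l ++ [true])) = (b :: s, numL (l ++ [true])) := by
      unfold bstep
      have h3 : numL (b :: l ++ [true]) ≠ 0 := by
        rw [h1]; omega
      rw [if_neg h3]
      simp only [h1]
      cases b with
      | true =>
        have h4 : ((if true = true then 1 else 0) + 2 * numL (l ++ [true])) % 2 = 1 := by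
          simp only [if_true]; omega
        have h5 : ((if true = true then 1 else 0) + 2 * numL (l ++ [true])) / 2 =
            numL (l ++ [true]) := by
          simp only [if_true]; omega
        rw [h4, h5]
        rfl
      | false =>
        have h4 : ((if false = true then 1 else 0) + 2 * numL (l ++ [true])) % 2 = 0 := by
          simp
        have h5 : ((if false = true then 1 else 0) + 2 * numL (l ++ [true])) / 2 =
            numL (l ++ [true]) := by
          simp
        rw [h4, h5]
        rfl
    rw [Function.iterate_succ_apply, h2, ih (b :: s) j (by simp only [List.length_cons] at hj; omega)]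
    simp

theorem length_le_numL (l : List Bool) : l.length + 1 ≤ numL (l ++ [true]) := by
  induction l with
  | nil => decide
  | cons b l ih =>
    show (b :: l).length + 1 ≤ (if b = true then 1 else 0) + 2 * numL (l ++ [true])
    rw [List.length_cons]
    omega

theorem bitsL_numL (l : List Bool) : bitsL (numL (l ++ [true])) = l ++ [true] := by
  unfold bitsL
  rw [bstep_iter l [] _ (length_le_numL l)]
  simp

theorem bstep_size (n i : ℕ) : (bstep^[i] ([], n)).1.length ≤ i ∧ (bstep^[i] ([], n)).2 ≤ n := by
  induction i with
  | zero => simp
  | succ i ih =>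
    rw [Function.iterate_succ_apply']
    revert ih
    generalize bstep^[i] ([], n) = s
    rintro ⟨h1, h2⟩
    unfold bstep
    split_ifs with h
    · constructor
      · omega
      · omega
    · constructor
      · simp only [List.length_cons]; omega
      · simp only; omega

@[fun_prop]
theorem PT.bitsL {f : α → ℕ} (hf : PT f) : PT (fun x => bitsL (f x)) := by
  unfold NT.bitsL
  obtain ⟨R, hR⟩ := hf.size_le
  have h : PT (fun x => bstep^[f x] ([], f x)) := by
    refine PT.iterate (f := fun _ s => bstep s) ?_ hf (by fun_prop) (3 + 8 * R) ?_
    · unfold bstep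
      fun_prop
    · intro a i hi
      show sz (bstep^[i] ([], f a)) ≤ _
      obtain ⟨h1, h2⟩ := bstep_size (f a) i
      have h3 := hR a
      rw [sz_nat] at h3
      have h4 := sz_list_le (bstep^[i] ([], f a)).1 3 (fun b _ => sz_bool_le b)
      rw [sz_pair, sz_nat]
      simp only [Polynomial.eval_add, Polynomial.eval_ofNat, Polynomial.eval_mul]
      omega
  exact PT.reverse (PT.fst' h)

end Pool.Agent.H71.NT
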