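import Pool.Agent.Lead.NTM

/-!
Bounded acceptance of a fixed nondeterministic machine on the words `aⁿ` is primitive recursive.
-/

namespace Pool.Agent.H71.NT

/-! ### Abstract finite history systems -/

/-- The finite data of a machine with `m` tapes and `b` rules, everything coded by numbers. -/
structure HSys (m : ℕ) where
  b : ℕ
  src : Fin b → ℕ
  tgt : Fin b → ℕ
  rd : Fin m → Fin b → ℕ
  wr : Fin m → Fin b → ℕ
  mr : Fin m → Fin b → ℕ
  ml : Fin m → Fin b → ℕ
  start : ℕ
  letter : ℕ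
  blank : ℕ
  acc : ℕ → Bool

namespace HSys

variable {m : ℕ} (S : HSys m)

/-- Position of head `i` after the history `h` (latest rule first), as (rights, lefts). -/
def pos (i : Fin m) (h : List (Fin S.b)) : ℕ × ℕ :=
  h.foldr (fun ρ p => (p.1 + S.mr i ρ, p.2 + S.ml i ρ)) (0, 0)

/-- Initial content of the cell `c.1 - c.2` of tape `i`. -/
def ini (i : Fin m) (n : ℕ) (c : ℕ × ℕ) : ℕ :=
  if (i : ℕ) = 0 ∧ c.2 ≤ c.1 ∧ c.1 < n + c.2 then S.letter else S.blank

/-- Content of the cell `c` of tape `i` after the history `h`. -/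
def cont (i : Fin m) (n : ℕ) (h : List (Fin S.b)) (c : ℕ × ℕ) : ℕ :=
  List.recOn h (S.ini i n c) fun ρ t IH =>
    if (S.pos i t).1 + c.2 = c.1 + (S.pos i t).2 then S.wr i ρ else IH

/-- The state after the history `h`. -/
def state (h : List (Fin S.b)) : ℕ :=
  List.recOn h S.start fun ρ _ _ => S.tgt ρ

/-- The rule `ρ` is applicable after the history `t`. -/
def App (n : ℕ) (ρ : Fin S.b) (t : List (Fin S.b)) : Prop :=
  S.src ρ = S.state t ∧ ∀ i, S.rd i ρ = S.cont i n t (S.pos i t)

instance (n : ℕ) (ρ : Fin S.b) (t : List (Fin S.b)) : Decidable (S.App n ρ t) := by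
  unfold App; infer_instance

/-- The history is valid on input `aⁿ`. -/
def valid (n : ℕ) (h : List (Fin S.b)) : Bool :=
  List.recOn h true fun ρ t IH => (decide (S.App n ρ t) && IH)

/-- All histories of length `s`. -/
def hist (s : ℕ) : List (List (Fin S.b)) :=
  Nat.rec [[]] (fun _ L => L.flatMap fun h => (List.finRange S.b).map fun ρ => ρ :: h) s

theorem mem_hist (s : ℕ) (h : List (Fin S.b)) : h ∈ S.hist s ↔ h.length = s := by
  induction s generalizing h with
  | zero => simp [hist]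
  | succ s ih =>
    have : S.hist (s + 1) = (S.hist s).flatMap fun h => (List.finRange S.b).map fun ρ => ρ :: h :=
      rfl
    rw [this]
    simp only [List.mem_flatMap, List.mem_map, List.mem_finRange, true_and]
    constructor
    · rintro ⟨t, ht, ρ, rfl⟩
      rw [ih] at ht
      simp [ht]
    · intro hl
      cases h with
      | nil => simp at hl
      | cons ρ t =>
        exact ⟨t, (ih t).2 (by simpa using hl), ρ, rfl⟩

theorem primrec_pos (i : Fin m) : Primrec (S.pos i) := by
  unfold pos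
  refine Primrec.list_foldr (g := fun _ => ((0 : ℕ), (0 : ℕ))) Primrec.id (Primrec.const _)
    (h := fun _ (q : Fin S.b × (ℕ × ℕ)) => (q.2.1 + S.mr i q.1, q.2.2 + S.ml i q.1)) ?_
  have h1 : Primrec fun p : List (Fin S.b) × (Fin S.b × (ℕ × ℕ)) => S.mr i p.2.1 :=
    (Primrec.dom_finite (S.mr i)).comp (Primrec.fst.comp Primrec.snd)
  have h2 : Primrec fun p : List (Fin S.b) × (Fin S.b × (ℕ × ℕ)) => S.ml i p.2.1 :=
    (Primrec.dom_finite (S.ml i)).comp (Primrec.fst.comp Primrec.snd)
  have h3 : Primrec fun p : List (Fin S.b) × (Fin S.b × (ℕ × ℕ)) => p.2.2.1 :=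
    Primrec.fst.comp (Primrec.snd.comp Primrec.snd)
  have h4 : Primrec fun p : List (Fin S.b) × (Fin S.b × (ℕ × ℕ)) => p.2.2.2 :=
    Primrec.snd.comp (Primrec.snd.comp Primrec.snd)
  exact (Primrec.nat_add.comp h3 h1).pair (Primrec.nat_add.comp h4 h2)

theorem primrec_ini (i : Fin m) : Primrec fun p : ℕ × (ℕ × ℕ) => S.ini i p.1 p.2 := by
  unfold ini
  refine Primrec.ite ?_ (Primrec.const _) (Primrec.const _)
  have hc1 : Primrec fun p : ℕ × (ℕ × ℕ) => p.2.1 := Primrec.fst.comp Primrec.snd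
  have hc2 : Primrec fun p : ℕ × (ℕ × ℕ) => p.2.2 := Primrec.snd.comp Primrec.snd
  have h0 : PrimrecPred fun p : ℕ × (ℕ × ℕ) => (i : ℕ) = 0 :=
    Primrec.eq.comp (Primrec.const _) (Primrec.const _)
  have h1 : PrimrecPred fun p : ℕ × (ℕ × ℕ) => p.2.2 ≤ p.2.1 := Primrec.nat_le.comp hc2 hc1
  have h2 : PrimrecPred fun p : ℕ × (ℕ × ℕ) => p.2.1 < p.1 + p.2.2 :=
    Primrec.nat_lt.comp hc1 (Primrec.nat_add.comp Primrec.fst hc2)
  exact h0.and (h1.and h2)

theorem primrec_cont (i : Fin m) :
    Primrec fun p : (ℕ × (ℕ × ℕ)) × List (Fin S.b) => S.cont i p.1.1 p.2 p.1.2 := by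
  unfold cont
  refine Primrec.list_rec (f := fun p : (ℕ × (ℕ × ℕ)) × List (Fin S.b) => p.2)
    (g := fun p => S.ini i p.1.1 p.1.2)
    (h := fun p (q : Fin S.b × List (Fin S.b) × ℕ) =>
      if (S.pos i q.2.1).1 + p.1.2.2 = p.1.2.1 + (S.pos i q.2.1).2 then S.wr i q.1 else q.2.2)
    Primrec.snd ((S.primrec_ini i).comp Primrec.fst) ?_
  have hc1 : Primrec fun p : ((ℕ × (ℕ × ℕ)) × List (Fin S.b)) ×
      (Fin S.b × List (Fin S.b) × ℕ) => p.1.1.2.1 :=
    Primrec.fst.comp (Primrec.snd.comp (Primrec.fst.comp Primrec.fst))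
  have hc2 : Primrec fun p : ((ℕ × (ℕ × ℕ)) × List (Fin S.b)) ×
      (Fin S.b × List (Fin S.b) × ℕ) => p.1.1.2.2 :=
    Primrec.snd.comp (Primrec.snd.comp (Primrec.fst.comp Primrec.fst))
  have hp : Primrec fun p : ((ℕ × (ℕ × ℕ)) × List (Fin S.b)) ×
      (Fin S.b × List (Fin S.b) × ℕ) => S.pos i p.2.2.1 :=
    (S.primrec_pos i).comp (Primrec.fst.comp (Primrec.snd.comp Primrec.snd))
  have hw : Primrec fun p : ((ℕ × (ℕ × ℕ)) × List (Fin S.b)) ×
      (Fin S.b × List (Fin S.b) × ℕ) => S.wr i p.2.1 :=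
    (Primrec.dom_finite (S.wr i)).comp (Primrec.fst.comp Primrec.snd)
  have hI : Primrec fun p : ((ℕ × (ℕ × ℕ)) × List (Fin S.b)) ×
      (Fin S.b × List (Fin S.b) × ℕ) => p.2.2.2 :=
    Primrec.snd.comp (Primrec.snd.comp Primrec.snd)
  refine Primrec.ite ?_ hw hI
  exact Primrec.eq.comp (Primrec.nat_add.comp (Primrec.fst.comp hp) hc2)
    (Primrec.nat_add.comp hc1 (Primrec.snd.comp hp))

theorem primrec_state : Primrec S.state := by
  unfold state
  exact Primrec.list_rec (f := fun h : List (Fin S.b) => h) (g := fun _ => S.start)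
    (h := fun _ (q : Fin S.b × List (Fin S.b) × ℕ) => S.tgt q.1) Primrec.id (Primrec.const _)
    ((Primrec.dom_finite S.tgt).comp (Primrec.fst.comp Primrec.snd)).to₂

theorem primrecPred_forall_fin {α : Type} [Primcodable α] :
    ∀ {k : ℕ} {P : Fin k → α → Prop}, (∀ i, PrimrecPred (P i)) → PrimrecPred fun a => ∀ i, P i a
  | 0, P, _ => (PrimrecPred.of_eq (p := fun _ : α => True)
      ⟨fun _ => inferInstance, by simpa using Primrec.const true⟩ (by simp))
  | k + 1, P, h => by
    have h1 := (h 0).and (primrecPred_forall_fin fun i : Fin k => h i.succ)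
    exact h1.of_eq fun a => by rw [Fin.forall_fin_succ]

theorem primrecPred_app :
    PrimrecPred fun p : ℕ × (Fin S.b × List (Fin S.b)) => S.App p.1 p.2.1 p.2.2 := by
  unfold App
  have hρ : Primrec fun p : ℕ × (Fin S.b × List (Fin S.b)) => p.2.1 :=
    Primrec.fst.comp Primrec.snd
  have ht : Primrec fun p : ℕ × (Fin S.b × List (Fin S.b)) => p.2.2 :=
    Primrec.snd.comp Primrec.snd
  refine PrimrecPred.and ?_ (primrecPred_forall_fin fun i => ?_)
  · exact Primrec.eq.comp ((Primrec.dom_finite S.src).comp hρ) (S.primrec_state.comp ht)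
  · refine Primrec.eq.comp ((Primrec.dom_finite (S.rd i)).comp hρ) ?_
    exact (S.primrec_cont i).comp
      ((Primrec.fst.pair ((S.primrec_pos i).comp ht)).pair ht)

theorem primrec_valid : Primrec fun p : ℕ × List (Fin S.b) => S.valid p.1 p.2 := by
  unfold valid
  refine Primrec.list_rec (f := fun p : ℕ × List (Fin S.b) => p.2) (g := fun _ => true)
    (h := fun p (q : Fin S.b × List (Fin S.b) × Bool) =>
      (decide (S.App p.1 q.1 q.2.1) && q.2.2)) Primrec.snd (Primrec.const _) ?_
  have h1 : Primrec fun p : (ℕ × List (Fin S.b)) × (Fin S.b × List (Fin S.b) × Bool) =>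
      decide (S.App p.1.1 p.2.1 p.2.2.1) :=
    (S.primrecPred_app.comp (f := fun p : (ℕ × List (Fin S.b)) × (Fin S.b × List (Fin S.b) × Bool)
      => (p.1.1, (p.2.1, p.2.2.1))) ((Primrec.fst.comp Primrec.fst).pair
        ((Primrec.fst.comp Primrec.snd).pair
          (Primrec.fst.comp (Primrec.snd.comp Primrec.snd))))).decide
  exact (Primrec.and.comp h1 (Primrec.snd.comp (Primrec.snd.comp Primrec.snd))).to₂

theorem primrec_hist : Primrec S.hist := by
  unfold hist
  refine Primrec.nat_rec₁ _ ?_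
  refine Primrec.list_flatMap (f := fun p : ℕ × List (List (Fin S.b)) => p.2)
    (g := fun _ h => (List.finRange S.b).map fun ρ => ρ :: h) Primrec.snd ?_
  refine Primrec.list_map (f := fun _ : (ℕ × List (List (Fin S.b))) × List (Fin S.b) =>
    List.finRange S.b) (g := fun p ρ => ρ :: p.2) (Primrec.const _) ?_
  exact (Primrec.list_cons.comp Primrec.snd (Primrec.snd.comp Primrec.fst)).to₂

/-- Bounded acceptance in the abstract system. -/
theorem primrecPred_accepts :
    PrimrecPred fun p : ℕ × ℕ =>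
      ∃ h ∈ S.hist p.2, (S.valid p.1 h = true ∧ S.acc (S.state h) = true) := by
  have hacc : Primrec fun h : List (Fin S.b) => S.acc (S.state h) := by
    have : (fun h : List (Fin S.b) => S.acc (S.state h)) = fun h : List (Fin S.b) =>
        List.recOn h (S.acc S.start) fun ρ _ _ => S.acc (S.tgt ρ) := by
      funext h
      cases h <;> rfl
    rw [this]
    exact Primrec.list_rec (f := fun h : List (Fin S.b) => h) (g := fun _ => S.acc S.start)
      (h := fun _ (q : Fin S.b × List (Fin S.b) × Bool) => S.acc (S.tgt q.1)) Primrec.id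
      (Primrec.const _)
      ((Primrec.dom_finite fun ρ => S.acc (S.tgt ρ)).comp (Primrec.fst.comp Primrec.snd)).to₂
  have hR : PrimrecRel fun (h : List (Fin S.b)) (n : ℕ) =>
      (S.valid n h = true ∧ S.acc (S.state h) = true) := by
    refine PrimrecPred.and ?_ ?_
    · exact Primrec.eq.comp (S.primrec_valid.comp (Primrec.snd.pair Primrec.fst))
        (Primrec.const true)
    · exact Primrec.eq.comp (hacc.comp Primrec.fst) (Primrec.const true)
  exact (hR.exists_mem_list.comp (S.primrec_hist.comp Primrec.snd) Primrec.fst)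

end HSys

end Pool.Agent.H71.NT
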