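import Pool.Agent.H71.NT.Check
import Pool.Agent.H71.NT.Diag

/-!
The verification function of the diagonal language.
-/

namespace Pool.Agent.H71.NT

open Pool.Agent.H79.Cx Pool.Agent.Lead.NTM

variable {α : Type} [Enc α]

theorem PT.cond'' {β : Type} [Enc β] {c : α → Bool} {f g : α → β} (hc : PT c) (hf : PT f)
    (hg : PT g) : PT (fun x => bif c x then f x else g x) := by
  refine PT.congr (PT.ite hc hf hg) fun x => ?_
  cases c x <;> rfl

/-! ### The special lengths -/

/-- The special lengths. -/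
def bb (i : ℕ) : ℕ := 2 ^ 2 ^ i

theorem bb_succ (i : ℕ) : bb (i + 1) = bb i * bb i := by
  unfold bb
  rw [← pow_add, pow_succ, Nat.mul_two]

theorem two_le_bb (i : ℕ) : 2 ≤ bb i := by
  unfold bb
  calc 2 = 2 ^ 1 := rfl
    _ ≤ 2 ^ 2 ^ i := Nat.pow_le_pow_right (by norm_num) Nat.one_le_two_pow

theorem bb_strictMono : StrictMono bb := by
  intro i j h
  exact Nat.pow_lt_pow_right (by norm_num) (Nat.pow_lt_pow_right (by norm_num) h)

theorem lt_bb (i : ℕ) : i < bb i := (Nat.lt_two_pow_self).trans Nat.lt_two_pow_self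

/-- Repeated squaring, stopped above `n`. -/
def sqs (n i : ℕ) : ℕ := (fun s => if s ≤ n then s * s else s)^[i] 2

theorem sqs_succ (n i : ℕ) :
    sqs n (i + 1) = if sqs n i ≤ n then sqs n i * sqs n i else sqs n i := by
  unfold sqs
  rw [Function.iterate_succ_apply']

theorem sqs_inv (n i : ℕ) : sqs n i = bb i ∨ (n < sqs n i ∧ sqs n i ≤ bb i) := by
  induction i with
  | zero => exact Or.inl rfl
  | succ i ih =>
    rw [sqs_succ, bb_succ]
    have hb := two_le_bb i
    rcases ih with h | ⟨h1, h2⟩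
    · rw [h]
      split_ifs with h3
      · exact Or.inl rfl
      · exact Or.inr ⟨by omega, by nlinarith⟩
    · rw [if_neg (by omega)]
      exact Or.inr ⟨h1, by nlinarith⟩

theorem sqs_eq_iff (n i : ℕ) : sqs n i = n ↔ bb i = n := by
  rcases sqs_inv n i with h | ⟨h1, h2⟩
  · rw [h]
  · constructor
    · intro h; omega
    · intro h; omega

theorem sqs_le (n i : ℕ) : sqs n i ≤ 2 + n * n := by
  induction i with
  | zero => exact Nat.le_add_right _ _
  | succ i ih =>
    rw [sqs_succ]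
    split_ifs with h
    · have := Nat.mul_le_mul h h
      omega
    · exact ih

@[fun_prop]
theorem PT.sqs {n i : α → ℕ} (hn : PT n) (hi : PT i) : PT (fun x => sqs (n x) (i x)) := by
  unfold NT.sqs
  obtain ⟨R, hR⟩ := hn.size_le
  refine PT.iterate (f := fun x s => if s ≤ n x then s * s else s) ?_ hi (by fun_prop)
    (5 + 2 * (R * R)) ?_
  · fun_prop
  · intro a i _
    have h1 : ((fun s => if s ≤ n a then s * s else s)^[i] 2) ≤ 2 + n a * n a := sqs_le _ _
    have h2 := hR a
    rw [sz_nat] at h2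
    rw [sz_nat]
    simp only [Polynomial.eval_add, Polynomial.eval_mul, Polynomial.eval_ofNat]
    have h3 : n a * n a ≤ R.eval (sz a) * R.eval (sz a) := Nat.mul_le_mul (by omega) (by omega)
    omega

/-- Powers, stopped above `L`. -/
def pw (n L k : ℕ) : ℕ := (fun s => if s < L then s * n else s)^[k] 1

theorem pw_succ (n L k : ℕ) : pw n L (k + 1) = if pw n L k < L then pw n L k * n else pw n L k := by
  unfold pw
  rw [Function.iterate_succ_apply']

theorem pw_inv (n L k : ℕ) (hn : 1 ≤ n) :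
    pw n L k ≤ n ^ k ∧ (pw n L k = n ^ k ∨ L ≤ pw n L k) := by
  induction k with
  | zero => exact ⟨le_rfl, Or.inl rfl⟩
  | succ k ih =>
    rw [pw_succ, pow_succ]
    obtain ⟨h1, h2⟩ := ih
    split_ifs with h
    · have h3 : pw n L k = n ^ k := by
        rcases h2 with h2 | h2
        · exact h2
        · omega
      rw [h3]
      exact ⟨le_rfl, Or.inl rfl⟩
    · exact ⟨h1.trans (Nat.le_mul_of_pos_right _ hn), Or.inr (by omega)⟩

theorem le_pw_iff (n L k : ℕ) (hn : 1 ≤ n) : L ≤ pw n L k ↔ L ≤ n ^ k := by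
  obtain ⟨h1, h2⟩ := pw_inv n L k hn
  constructor
  · intro h; exact h.trans h1
  · intro h
    rcases h2 with h2 | h2
    · rw [h2]; exact h
    · exact h2

theorem pw_le (n L k : ℕ) : pw n L k ≤ 1 + L * n := by
  induction k with
  | zero => exact Nat.le_add_right _ _
  | succ k ih =>
    rw [pw_succ]
    split_ifs with h
    · have := Nat.mul_le_mul_right n h.le
      omega
    · exact ih

@[fun_prop]
theorem PT.pw {n L k : α → ℕ} (hn : PT n) (hL : PT L) (hk : PT k) :
    PT (fun x => pw (n x) (L x) (k x)) := by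
  unfold NT.pw
  obtain ⟨R, hR⟩ := hn.size_le
  obtain ⟨Q, hQ⟩ := hL.size_le
  refine PT.iterate (f := fun x s => if s < L x then s * n x else s) ?_ hk (by fun_prop)
    (3 + 2 * (Q * R)) ?_
  · fun_prop
  · intro a i _
    have h1 : ((fun s => if s < L a then s * n a else s)^[i] 1) ≤ 1 + L a * n a := pw_le _ _ _
    have h2 := hR a
    have h3 := hQ a
    rw [sz_nat] at h2 h3
    rw [sz_nat]
    simp only [Polynomial.eval_add, Polynomial.eval_mul, Polynomial.eval_ofNat]
    have h4 : L a * n a ≤ Q.eval (sz a) * R.eval (sz a) := Nat.mul_le_mul (by omega) (by omega)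
    omega

/-! ### Decoding of indices -/

theorem decStep_le (n i : ℕ) : (decStep^[i] (n, 0)).1 ≤ n ∧ (decStep^[i] (n, 0)).2 ≤ i := by
  induction i with
  | zero => simp
  | succ i ih =>
    rw [Function.iterate_succ_apply']
    revert ih
    generalize decStep^[i] (n, 0) = s
    rintro ⟨h1, h2⟩
    unfold decStep
    cases h : (s.1 % 2 == 0) with
    | true =>
      simp only [cond_true]
      constructor
      · omega
      · omega
    | false =>
      simp only [cond_false]
      constructor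
      · omega
      · omega

@[fun_prop]
theorem PT.dec {n : α → ℕ} (hn : PT n) : PT (fun x => dec (n x)) := by
  unfold NT.dec
  obtain ⟨R, hR⟩ := hn.size_le
  refine PT.iterate (f := fun _ s => decStep s) ?_ hn (by fun_prop) (3 + 4 * R) ?_
  · unfold decStep
    refine PT.cond'' ?_ (by fun_prop) (by fun_prop)
    have h : PT fun p : α × ℕ × ℕ => decide (p.2.1 % 2 = 0) := by fun_prop
    exact PT.congr h fun p => rfl
  · intro a i hi
    show sz (decStep^[i] (n a, 0)) ≤ _
    obtain ⟨h1, h2⟩ := decStep_le (n a) i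
    have h3 := hR a
    rw [sz_nat] at h3
    rw [sz_pair, sz_nat, sz_nat]
    simp only [Polynomial.eval_add, Polynomial.eval_mul, Polynomial.eval_ofNat]
    omega

/-- the exponent coded by `j` -/
def kk (j : ℕ) : ℕ := (dec (j + 1)).2

/-- the description coded by `j` -/
def dd (j : ℕ) : Desc := decLLL (parse (bitsL ((dec (j + 1)).1 / 2)))

@[fun_prop]
theorem PT.kk {j : α → ℕ} (hj : PT j) : PT (fun x => kk (j x)) := by
  unfold NT.kk
  fun_prop

@[fun_prop]
theorem PT.dd {j : α → ℕ} (hj : PT j) : PT (fun x => dd (j x)) := by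
  unfold NT.dd
  fun_prop

/-- `j + 1 = 2 ^ k * (2 * i + 1)`, where the bits of `i` begin with the code of `d`. -/
theorem exists_index_desc (k : ℕ) (d : Desc) (B : ℕ) : ∃ j, B ≤ j ∧ kk j = k ∧ dd j = d := by
  set l := cd d ++ List.replicate B false with hl
  set i := numL (l ++ [true]) with hi
  have h1 : l.length + 1 ≤ i := length_le_numL l
  have h2 : B ≤ l.length := by simp [hl]
  have h3 : i < len k i := by
    unfold len
    calc i < 2 * i + 1 := by omega
      _ ≤ 2 ^ k * (2 * i + 1) := Nat.le_mul_of_pos_left _ (by positivity)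
  refine ⟨len k i - 1, by omega, ?_, ?_⟩
  · unfold kk
    rw [Nat.sub_add_cancel (by omega), dec_len]
  · unfold dd
    rw [Nat.sub_add_cancel (by omega), dec_len]
    have h4 : (2 * i + 1) / 2 = i := by omega
    simp only [h4]
    rw [hi, bitsL_numL, hl, List.append_assoc]
    have h5 : parse (cd d ++ (List.replicate B false ++ [true])) = Enc.enc d :=
      parse_enc _ _
    rw [h5, decLLL_enc]

theorem kk_le (j : ℕ) : kk j ≤ j := by
  unfold kk
  obtain ⟨c, m, hm, h⟩ := Nat.exists_eq_two_pow_mul_odd (Nat.succ_ne_zero j)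
  obtain ⟨x, rfl⟩ := hm
  have h1 : j + 1 = len c x := h
  have h2 : c < 2 ^ c := Nat.lt_two_pow_self
  have h3 : 2 ^ c ≤ 2 ^ c * (2 * x + 1) := Nat.le_mul_of_pos_right _ (by omega)
  rw [h1, dec_len]
  have h4 : len c x = 2 ^ c * (2 * x + 1) := rfl
  show c ≤ j
  omega

@[fun_prop]
theorem PT.natPair {a b : α → ℕ} (ha : PT a) (hb : PT b) :
    PT (fun x => Nat.pair (a x) (b x)) := by
  unfold Nat.pair
  fun_prop

/-! ### The verification function -/

/-- The verification function. -/
def ver (C : Desc) (n : ℕ) (c : List (List ℕ)) : Bool :=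
  decide (sqs n (Desc.at2 c 0 0 * Desc.at2 c 0 0) = n) &&
  (decide (Desc.at2 c 0 1 ≤ n) && (decide ((c.getD 1 []).length ≤ n) &&
  (C.valid (Nat.pair (kk (Desc.at2 c 0 0)) (Desc.at2 c 0 1)) (c.getD 1 []) &&
  (C.acc (c.getD 1 []) &&
  (decide ((c.getD 2 []).length ≤ pw n (c.getD 2 []).length (kk (Desc.at2 c 0 0))) &&
  ((dd (Desc.at2 c 0 0)).valid n (c.getD 2 []) && (dd (Desc.at2 c 0 0)).acc (c.getD 2 [])))))))

@[fun_prop]
theorem PT.ver (C : Desc) {n : α → ℕ} {c : α → List (List ℕ)} (hn : PT n) (hc : PT c) :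
    PT (fun x => ver C (n x) (c x)) := by
  unfold NT.ver
  fun_prop

/-- The verification function on lists of bits. -/
def verB (C : Desc) (x : ℕ × List Bool) : Bool := ver C x.1 (decLL (parse x.2))

theorem pt_verB (C : Desc) : PT (verB C) := by
  show PT fun x => verB C x
  unfold verB
  fun_prop

/-- The precondition of a test at `n` with exponent `k`. -/
def Good (C : Desc) (k n : ℕ) : Prop :=
  ∃ N ≤ n, ∃ h : List ℕ, h.length ≤ n ∧ C.valid (Nat.pair k N) h = true ∧ C.acc h = true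

theorem ver_iff (C : Desc) (n : ℕ) (c : List (List ℕ)) : ver C n c = true ↔
    bb (Desc.at2 c 0 0 * Desc.at2 c 0 0) = n ∧ Desc.at2 c 0 1 ≤ n ∧ (c.getD 1 []).length ≤ n ∧
    C.valid (Nat.pair (kk (Desc.at2 c 0 0)) (Desc.at2 c 0 1)) (c.getD 1 []) = true ∧
    C.acc (c.getD 1 []) = true ∧
    (c.getD 2 []).length ≤ n ^ (kk (Desc.at2 c 0 0)) ∧
    (dd (Desc.at2 c 0 0)).valid n (c.getD 2 []) = true ∧
    (dd (Desc.at2 c 0 0)).acc (c.getD 2 []) = true := by
  unfold ver
  simp only [Bool.and_eq_true, decide_eq_true_eq, sqs_eq_iff]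
  refine and_congr_right fun h => ?_
  have hn : 1 ≤ n := by
    rw [← h]
    exact (by norm_num : 1 ≤ 2).trans (two_le_bb _)
  rw [le_pw_iff _ _ _ hn]

/-- Entries of valid histories. -/
theorem Desc.lt_of_valid {d : Desc} {n : ℕ} {h : List ℕ} (hv : d.valid n h = true) :
    ∀ ρ ∈ h, ρ < d.nr := by
  intro ρ hρ
  obtain ⟨u, hu, rfl⟩ := List.mem_iff_getElem.1 hρ
  unfold Desc.valid at hv
  rw [List.all_eq_true] at hv
  have h2 := hv u (List.mem_range.2 hu)
  unfold Desc.app at h2
  rw [Bool.and_eq_true, decide_eq_true_eq] at h2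
  have h3 : h.getD u 0 = h[u] := by
    rw [List.getD_eq_getElem?_getD, List.getElem?_eq_getElem hu]
    rfl
  rw [h3] at h2
  exact h2.1

/-- What the verification verifies, without certificates. -/
def Vf (C : Desc) (n : ℕ) : Prop :=
  ∃ j, bb (j * j) = n ∧ Good C (kk j) n ∧
    ∃ h : List ℕ, h.length ≤ n ^ kk j ∧ (dd j).valid n h = true ∧ (dd j).acc h = true

theorem vf_of_verB {C : Desc} {n : ℕ} {y : List Bool} (h : verB C (n, y) = true) : Vf C n := by
  unfold verB at h
  rw [ver_iff] at h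
  obtain ⟨h1, h2, h3, h4, h5, h6, h7, h8⟩ := h
  exact ⟨_, h1, ⟨_, h2, _, h3, h4, h5⟩, _, h6, h7, h8⟩

theorem sz_hist_le {h : List ℕ} {b : ℕ} (hb : ∀ ρ ∈ h, ρ < b) :
    sz h ≤ 1 + h.length * (2 * b + 2) := by
  refine (sz_list_le h (2 * b + 1) fun ρ hρ => ?_).trans ?_
  · have := hb ρ hρ
    rw [sz_nat]
    omega
  · refine Nat.add_le_add_left (Nat.mul_le_mul_left _ ?_) _
    omega

/-- Small certificates. -/
theorem exists_cert (C : Desc) : ∃ Q : Polynomial ℕ, ∀ n j, bb (j * j) = n →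
    Good C (kk j) n → (∃ h : List ℕ, h.length ≤ n ^ kk j ∧ (dd j).valid n h = true ∧
      (dd j).acc h = true) →
    ∃ y, verB C (n, y) = true ∧ y.length ≤ Q.eval (n + n ^ kk j) := by
  obtain ⟨R, hR⟩ := (PT.dd (α := ℕ) PT.id).size_le
  refine ⟨9 + 4 * Polynomial.X + (1 + Polynomial.X * Polynomial.C (2 * C.nr + 2)) +
    (1 + Polynomial.X * (2 * (R.comp (2 * Polynomial.X + 1)) + 2)), ?_⟩
  rintro n j hj ⟨N, hN, h1, hl1, hv1, ha1⟩ ⟨h2, hl2, hv2, ha2⟩
  refine ⟨cd [[j, N], h1, h2], ?_, ?_⟩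
  · unfold verB
    have h0 : decLL (parse (cd [[j, N], h1, h2])) = [[j, N], h1, h2] := by
      rw [parse_cd, decLL_enc]
    show ver C n (decLL (parse (cd [[j, N], h1, h2]))) = true
    rw [h0, ver_iff]
    exact ⟨hj, hN, hl1, hv1, ha1, hl2, hv2, ha2⟩
  · rw [length_cd]
    have hjn : j ≤ n := by
      rw [← hj]
      have := lt_bb (j * j)
      nlinarith
    have e1 : sz [[j, N], h1, h2] = 1 + (1 + (2 * j + 1) + (1 + (2 * N + 1) + 1)) +
        (1 + sz h1 + (1 + sz h2 + 1)) := by
      simp only [sz_cons, sz_nil, sz_nat]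
    have e2 : sz h1 ≤ 1 + n * (2 * C.nr + 2) :=
      (sz_hist_le (Desc.lt_of_valid hv1)).trans
        (Nat.add_le_add_left (Nat.mul_le_mul_right _ hl1) _)
    have e3 : (dd j).nr ≤ R.eval (2 * n + 1) := by
      have h3 := hR j
      have h4 : (dd j).length ≤ sz (dd j) := length_le_sz _
      have h5 : R.eval (sz j) ≤ R.eval (2 * n + 1) := eval_mono R (by rw [sz_nat]; omega)
      have h6 : (dd j).nr = (dd j).length - 1 := rfl
      omega
    have e4 : sz h2 ≤ 1 + n ^ kk j * (2 * R.eval (2 * n + 1) + 2) := by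
      refine (sz_hist_le (Desc.lt_of_valid hv2)).trans (Nat.add_le_add_left ?_ _)
      exact Nat.mul_le_mul hl2 (by omega)
    set X := n + n ^ kk j with hX
    have e5 : n * (2 * C.nr + 2) ≤ X * (2 * C.nr + 2) := Nat.mul_le_mul_right _ (by omega)
    have e6 : n ^ kk j * (2 * R.eval (2 * n + 1) + 2) ≤ X * (2 * R.eval (2 * X + 1) + 2) := by
      have h7 : R.eval (2 * n + 1) ≤ R.eval (2 * X + 1) := eval_mono R (by omega)
      exact Nat.mul_le_mul (by omega) (by omega)
    simp only [Polynomial.eval_add, Polynomial.eval_mul, Polynomial.eval_ofNat,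
      Polynomial.eval_one, Polynomial.eval_X, Polynomial.eval_C, Polynomial.eval_comp]
    rw [e1]
    omega

theorem exists_verB_iff (C : Desc) (n : ℕ) : (∃ y, verB C (n, y) = true) ↔ Vf C n := by
  constructor
  · rintro ⟨y, hy⟩
    exact vf_of_verB hy
  · rintro ⟨j, hj, h1, h2⟩
    obtain ⟨Q, hQ⟩ := exists_cert C
    obtain ⟨y, hy, -⟩ := hQ n j hj h1 h2
    exact ⟨y, hy⟩

end Pool.Agent.H71.NT
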