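import Pool.Agent.H71.NT.Ver

/-!
The verification function of the diagonal language above an honest time bound.
-/

namespace Pool.Agent.H71.NT

open Pool.Agent.H79.Cx Pool.Agent.Lead.NTM

variable {α : Type} [Enc α]

@[fun_prop]
theorem PT.min {f g : α → ℕ} (hf : PT f) (hg : PT g) : PT (fun x => min (f x) (g x)) := by
  have h : PT (fun x => if f x ≤ g x then f x else g x) := by fun_prop
  refine PT.congr h fun x => ?_
  split_ifs <;> omega

/-! ### Chains of special lengths -/

/-- The special lengths for the running time `τ`. -/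
def sN (τ : ℕ → ℕ) (r : ℕ) : ℕ := Nat.rec 2 (fun i ih => (τ ih + 2) ^ (i + 1)) r

theorem sN_succ (τ : ℕ → ℕ) (r : ℕ) : sN τ (r + 1) = (τ (sN τ r) + 2) ^ (r + 1) := rfl

/-- One step along a chain. -/
def cst (G : Desc) (n : ℕ) (s : ℕ × ℕ) (h : List ℕ) : ℕ × ℕ :=
  if (G.valid s.2 h && G.acc h) = true then
    (s.1 + 1, min (n + 1) (pw (h.length + 2) (n + 1) (s.1 + 1)))
  else (s.1 + 1, n + 1)

/-- The end of a chain. -/
def chn (G : Desc) (n : ℕ) (l : List (List ℕ)) : ℕ × ℕ := l.foldl (cst G n) (0, 2)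

theorem cst_fst (G : Desc) (n : ℕ) (s : ℕ × ℕ) (h : List ℕ) : (cst G n s h).1 = s.1 + 1 := by
  unfold cst
  split_ifs <;> rfl

theorem cst_snd_le (G : Desc) (n : ℕ) (s : ℕ × ℕ) (h : List ℕ) : (cst G n s h).2 ≤ n + 1 := by
  unfold cst
  split_ifs
  · exact min_le_left _ _
  · exact le_rfl

theorem chn_append (G : Desc) (n : ℕ) (l : List (List ℕ)) (h : List ℕ) :
    chn G n (l ++ [h]) = cst G n (chn G n l) h := by
  unfold chn
  rw [List.foldl_append]
  rfl

theorem chn_fst (G : Desc) (n : ℕ) (l : List (List ℕ)) : (chn G n l).1 = l.length := by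
  induction l using List.reverseRecOn with
  | nil => rfl
  | append_singleton l h ih => rw [chn_append, cst_fst, ih]; simp

theorem chn_snd_le (G : Desc) (n : ℕ) (l : List (List ℕ)) : (chn G n l).2 ≤ n + 2 := by
  induction l using List.reverseRecOn with
  | nil => exact Nat.le_add_left _ _
  | append_singleton l h ih =>
    rw [chn_append]
    exact (cst_snd_le _ _ _ _).trans (by omega)

@[fun_prop]
theorem PT.chn (G : Desc) {n : α → ℕ} {l : α → List (List ℕ)} (hn : PT n) (hl : PT l) :
    PT (fun x => chn G (n x) (l x)) := by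
  unfold NT.chn
  obtain ⟨R, hR⟩ := hn.size_le
  obtain ⟨Q, hQ⟩ := hl.size_le
  refine PT.foldl (f := fun x s h => cst G (n x) s h) ?_ hl (by fun_prop) (7 + 2 * R + 2 * Q) ?_
  · unfold cst
    fun_prop
  · intro a i _
    have h1 := chn_fst G (n a) ((l a).take i)
    have h2 := chn_snd_le G (n a) ((l a).take i)
    have h3 := hR a
    have h4 := hQ a
    have h5 : ((l a).take i).length ≤ (l a).length := by
      rw [List.length_take]; exact min_le_right _ _
    have h6 := length_le_sz (l a)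
    rw [sz_nat] at h3
    show sz (NT.chn G (n a) ((l a).take i)) ≤ _
    rw [sz_pair, sz_nat, sz_nat, h1]
    simp only [Polynomial.eval_add, Polynomial.eval_mul, Polynomial.eval_ofNat]
    omega

/-- The description `G` describes a machine with running time `τ`. -/
def IsTime (G : Desc) (τ : ℕ → ℕ) : Prop :=
  (∀ n s, (∃ h : List ℕ, h.length = s ∧ G.valid n h = true ∧ G.acc h = true) ↔ s = τ n) ∧
    ∀ n, n ≤ τ n

section Chain

variable {G : Desc} {τ : ℕ → ℕ} (hG : IsTime G τ)

include hG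

theorem IsTime.length {n : ℕ} {h : List ℕ} (hv : G.valid n h = true) (ha : G.acc h = true) :
    h.length = τ n := (hG.1 n _).1 ⟨h, rfl, hv, ha⟩

theorem IsTime.exists (n : ℕ) : ∃ h : List ℕ, h.length = τ n ∧ G.valid n h = true ∧
    G.acc h = true := (hG.1 n _).2 rfl

omit hG in
theorem two_le_sN (r : ℕ) : 2 ≤ sN τ r := by
  cases r with
  | zero => exact le_rfl
  | succ r =>
    rw [sN_succ]
    calc 2 ≤ τ (sN τ r) + 2 := Nat.le_add_left _ _
      _ = (τ (sN τ r) + 2) ^ 1 := (pow_one _).symm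
      _ ≤ _ := Nat.pow_le_pow_right (by omega) (by omega)

omit hG in
theorem sN_lt_succ (r : ℕ) : τ (sN τ r) + 2 ≤ sN τ (r + 1) := by
  rw [sN_succ]
  calc τ (sN τ r) + 2 = (τ (sN τ r) + 2) ^ 1 := (pow_one _).symm
    _ ≤ _ := Nat.pow_le_pow_right (by omega) (by omega)

theorem sN_strictMono : StrictMono (sN τ) :=
  strictMono_nat_of_lt_succ fun r => by
    have h1 := sN_lt_succ (τ := τ) r
    have h2 := hG.2 (sN τ r)
    omega

theorem chn_inv (n : ℕ) (l : List (List ℕ)) :
    (chn G n l).2 = sN τ l.length ∨ (chn G n l).2 = n + 1 := by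
  induction l using List.reverseRecOn with
  | nil => exact Or.inl rfl
  | append_singleton l h ih =>
    rw [chn_append, List.length_append, List.length_singleton, sN_succ]
    unfold cst
    split_ifs with hv
    · rw [Bool.and_eq_true] at hv
      have hlen := hG.length hv.1 hv.2
      simp only
      rw [chn_fst, hlen]
      obtain ⟨h1, h2⟩ := pw_inv (τ (chn G n l).2 + 2) (n + 1) (l.length + 1) (by omega)
      rcases ih with h3 | h3
      · rw [h3] at h1 h2 ⊢
        rcases h2 with h2 | h2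
        · rw [h2]
          rcases Nat.le_total (n + 1) ((τ (sN τ l.length) + 2) ^ (l.length + 1)) with h4 | h4
          · right; exact min_eq_left h4
          · left; exact min_eq_right h4
        · right; exact min_eq_left h2
      · right
        rw [h3] at h1 h2 ⊢
        have h4 := hG.2 (n + 1)
        refine min_eq_left ?_
        rcases h2 with h2 | h2
        · rw [h2]
          calc n + 1 ≤ τ (n + 1) + 2 := by omega
            _ = (τ (n + 1) + 2) ^ 1 := (pow_one _).symm
            _ ≤ _ := Nat.pow_le_pow_right (by omega) (by omega)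
        · exact h2
    · exact Or.inr rfl

theorem chn_eq {n : ℕ} {l : List (List ℕ)} (h : (chn G n l).2 = n) : sN τ l.length = n := by
  rcases chn_inv hG n l with h1 | h1
  · exact h1.symm.trans h
  · omega

theorem exists_chain (n r : ℕ) (h : sN τ r ≤ n) : ∃ l : List (List ℕ), l.length = r ∧
    (chn G n l).2 = sN τ r ∧ ∀ x ∈ l, x.length ≤ n ∧ ∀ ρ ∈ x, ρ < G.nr := by
  induction r with
  | zero => exact ⟨[], rfl, rfl, by simp⟩
  | succ r ih =>
    have h0 := sN_lt_succ (τ := τ) r
    have h00 := hG.2 (sN τ r)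
    obtain ⟨l, hl, hc, hx⟩ := ih (by omega)
    obtain ⟨x, hxl, hxv, hxa⟩ := hG.exists (sN τ r)
    refine ⟨l ++ [x], by simp [hl], ?_, ?_⟩
    · rw [chn_append]
      unfold cst
      rw [hc, if_pos (by rw [Bool.and_eq_true]; exact ⟨hxv, hxa⟩)]
      simp only
      rw [chn_fst, hl, hxl, sN_succ]
      obtain ⟨h1, h2⟩ := pw_inv (τ (sN τ r) + 2) (n + 1) (r + 1) (by omega)
      rw [sN_succ] at h
      rcases h2 with h2 | h2
      · rw [h2]
        exact min_eq_right (by omega)
      · omega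
    · intro y hy
      rw [List.mem_append, List.mem_singleton] at hy
      rcases hy with hy | rfl
      · exact hx y hy
      · exact ⟨by omega, Desc.lt_of_valid hxv⟩

end Chain

/-! ### The verification function -/

/-- The verification function. -/
def verG (C G : Desc) (n : ℕ) (c : List (List ℕ)) : Bool :=
  decide ((chn G n (c.drop 4)).2 = n) &&
  (decide (Desc.at2 c 0 0 ≤ n) && (decide ((c.getD 1 []).length ≤ n) &&
  (C.valid (Nat.pair (kk (c.drop 4).length) (Desc.at2 c 0 0)) (c.getD 1 []) &&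
  (C.acc (c.getD 1 []) &&
  (G.valid n (c.getD 3 []) && (G.acc (c.getD 3 []) &&
  (decide ((c.getD 2 []).length ≤ pw (c.getD 3 []).length (c.getD 2 []).length
    (kk (c.drop 4).length)) &&
  ((dd (c.drop 4).length).valid n (c.getD 2 []) &&
    (dd (c.drop 4).length).acc (c.getD 2 [])))))))))

@[fun_prop]
theorem PT.verG (C G : Desc) {n : α → ℕ} {c : α → List (List ℕ)} (hn : PT n) (hc : PT c) :
    PT (fun x => verG C G (n x) (c x)) := by
  unfold NT.verG
  fun_prop

/-- The verification function on lists of bits. -/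
def verGB (C G : Desc) (x : ℕ × List Bool) : Bool := verG C G x.1 (decLL (parse x.2))

theorem pt_verGB (C G : Desc) : PT (verGB C G) := by
  show PT fun x => verGB C G x
  unfold verGB
  fun_prop

/-- What is verified. -/
def VG (C : Desc) (τ : ℕ → ℕ) (n : ℕ) : Prop :=
  ∃ r, sN τ r = n ∧ Good C (kk r) n ∧
    ∃ h : List ℕ, h.length ≤ τ n ^ kk r ∧ (dd r).valid n h = true ∧ (dd r).acc h = true

section Spec

variable {G : Desc} {τ : ℕ → ℕ} (hG : IsTime G τ) (C : Desc)

include hG

theorem verG_iff (n : ℕ) (c : List (List ℕ)) : verG C G n c = true ↔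
    (chn G n (c.drop 4)).2 = n ∧ Desc.at2 c 0 0 ≤ n ∧ (c.getD 1 []).length ≤ n ∧
    C.valid (Nat.pair (kk (c.drop 4).length) (Desc.at2 c 0 0)) (c.getD 1 []) = true ∧
    C.acc (c.getD 1 []) = true ∧
    G.valid n (c.getD 3 []) = true ∧ G.acc (c.getD 3 []) = true ∧
    (c.getD 2 []).length ≤ τ n ^ (kk (c.drop 4).length) ∧
    (dd (c.drop 4).length).valid n (c.getD 2 []) = true ∧
    (dd (c.drop 4).length).acc (c.getD 2 []) = true := by
  unfold verG
  simp only [Bool.and_eq_true, decide_eq_true_eq]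
  refine and_congr_right fun h0 => and_congr_right fun _ => and_congr_right fun _ =>
    and_congr_right fun _ => and_congr_right fun _ => and_congr_right fun hv =>
    and_congr_right fun ha => ?_
  have h1 := hG.length hv ha
  have hn : 1 ≤ τ n := by
    have h2 := two_le_sN (τ := τ) (c.drop 4).length
    have h3 := chn_eq hG h0
    have h4 := hG.2 n
    omega
  rw [h1, le_pw_iff _ _ _ hn]

theorem vG_of_verGB {n : ℕ} {y : List Bool} (h : verGB C G (n, y) = true) : VG C τ n := by
  unfold verGB at h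
  rw [verG_iff hG] at h
  obtain ⟨h1, h2, h3, h4, h5, h6, h7, h8, h9, h10⟩ := h
  exact ⟨_, chn_eq hG h1, ⟨_, h2, _, h3, h4, h5⟩, _, h8, h9, h10⟩

/-- Small certificates. -/
theorem exists_certG : ∃ Q : Polynomial ℕ, ∀ n r, sN τ r = n →
    Good C (kk r) n → (∃ h : List ℕ, h.length ≤ τ n ^ kk r ∧ (dd r).valid n h = true ∧
      (dd r).acc h = true) →
    ∃ y, verGB C G (n, y) = true ∧ y.length ≤ Q.eval (τ n + τ n ^ kk r) := by
  obtain ⟨R, hR⟩ := (PT.dd (α := ℕ) PT.id).size_le
  refine ⟨9 + 2 * Polynomial.X + (1 + Polynomial.X * Polynomial.C (2 * C.nr + 2)) +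
    (1 + Polynomial.X * (2 * (R.comp (2 * Polynomial.X + 1)) + 2)) +
    (1 + Polynomial.X * Polynomial.C (2 * G.nr + 2)) +
    (1 + Polynomial.X * (1 + (1 + Polynomial.X * Polynomial.C (2 * G.nr + 2)))), ?_⟩
  rintro n r hr ⟨N, hN, h1, hl1, hv1, ha1⟩ ⟨h2, hl2, hv2, ha2⟩
  obtain ⟨h3, hl3, hv3, ha3⟩ := hG.exists n
  obtain ⟨l, hl, hc, hx⟩ := exists_chain hG n r hr.le
  refine ⟨cd ([N] :: h1 :: h2 :: h3 :: l), ?_, ?_⟩
  · unfold verGB
    have h0 : decLL (parse (cd ([N] :: h1 :: h2 :: h3 :: l))) = [N] :: h1 :: h2 :: h3 :: l := by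
      rw [parse_cd, decLL_enc]
    show verG C G n (decLL (parse (cd ([N] :: h1 :: h2 :: h3 :: l)))) = true
    rw [h0, verG_iff hG]
    have hd : ([N] :: h1 :: h2 :: h3 :: l).drop 4 = l := rfl
    rw [hd, hl]
    exact ⟨hc.trans hr, hN, hl1, hv1, ha1, hv3, ha3, hl2, hv2, ha2⟩
  · rw [length_cd]
    have hrn : r ≤ n := by
      rw [← hr]
      exact (sN_strictMono hG).id_le r
    have hnτ := hG.2 n
    have e1 : sz ([N] :: h1 :: h2 :: h3 :: l) = 1 + (1 + (2 * N + 1) + 1) +
        (1 + sz h1 + (1 + sz h2 + (1 + sz h3 + sz l))) := by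
      simp only [sz_cons, sz_nil, sz_nat]
    have e2 : sz h1 ≤ 1 + n * (2 * C.nr + 2) :=
      (sz_hist_le (Desc.lt_of_valid hv1)).trans
        (Nat.add_le_add_left (Nat.mul_le_mul_right _ hl1) _)
    have e3 : (dd r).nr ≤ R.eval (2 * n + 1) := by
      have h3 := hR r
      have h4 : (dd r).length ≤ sz (dd r) := length_le_sz _
      have h5 : R.eval (sz r) ≤ R.eval (2 * n + 1) := eval_mono R (by rw [sz_nat]; omega)
      have h6 : (dd r).nr = (dd r).length - 1 := rfl
      omega
    have e4 : sz h2 ≤ 1 + τ n ^ kk r * (2 * R.eval (2 * n + 1) + 2) := by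
      refine (sz_hist_le (Desc.lt_of_valid hv2)).trans (Nat.add_le_add_left ?_ _)
      exact Nat.mul_le_mul hl2 (by omega)
    have e4' : sz h3 ≤ 1 + τ n * (2 * G.nr + 2) := by
      refine (sz_hist_le (Desc.lt_of_valid hv3)).trans (Nat.add_le_add_left ?_ _)
      rw [hl3]
    have e4'' : sz l ≤ 1 + r * (1 + (1 + n * (2 * G.nr + 2))) := by
      rw [← hl]
      refine sz_list_le l _ fun x hxm => ?_
      obtain ⟨hx1, hx2⟩ := hx x hxm
      exact (sz_hist_le hx2).trans (Nat.add_le_add_left (Nat.mul_le_mul_right _ hx1) _)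
    set X := τ n + τ n ^ kk r with hX
    have e5 : n * (2 * C.nr + 2) ≤ X * (2 * C.nr + 2) := Nat.mul_le_mul_right _ (by omega)
    have e6 : τ n ^ kk r * (2 * R.eval (2 * n + 1) + 2) ≤ X * (2 * R.eval (2 * X + 1) + 2) := by
      have h7 : R.eval (2 * n + 1) ≤ R.eval (2 * X + 1) := eval_mono R (by omega)
      exact Nat.mul_le_mul (by omega) (by omega)
    have e7 : τ n * (2 * G.nr + 2) ≤ X * (2 * G.nr + 2) := Nat.mul_le_mul_right _ (by omega)
    have e8 : r * (1 + (1 + n * (2 * G.nr + 2))) ≤ X * (1 + (1 + X * (2 * G.nr + 2))) := by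
      have h7 : n * (2 * G.nr + 2) ≤ X * (2 * G.nr + 2) := Nat.mul_le_mul_right _ (by omega)
      exact Nat.mul_le_mul (by omega) (by omega)
    simp only [Polynomial.eval_add, Polynomial.eval_mul, Polynomial.eval_ofNat,
      Polynomial.eval_one, Polynomial.eval_X, Polynomial.eval_C, Polynomial.eval_comp]
    rw [e1]
    omega

theorem exists_verGB_iff (n : ℕ) : (∃ y, verGB C G (n, y) = true) ↔ VG C τ n := by
  constructor
  · rintro ⟨y, hy⟩
    exact vG_of_verGB hG C hy
  · rintro ⟨r, hr, h1, h2⟩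
    obtain ⟨Q, hQ⟩ := exists_certG hG C
    obtain ⟨y, hy, -⟩ := hQ n r hr h1 h2
    exact ⟨y, hy⟩

end Spec

end Pool.Agent.H71.NT
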